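import Pool.Agent.MP_875478_co.Perturb

set_option autoImplicit false
open Set Topology Filter Matrix

namespace Pool.Agent.MP_875478_co

theorem assemble {n r : ℕ} (hr : 0 < r) {K S : Type} [Fintype K] [Fintype S]
    {G : SimpleGraph (Fin n)} (φ : K → S → Fin n)
    (hinj : ∀ k a l b, φ k a = φ l b → k = l ∧ a = b)
    (hcl : ∀ k a b, a ≠ b → G.Adj (φ k a) (φ k b))
    (hcr : ∀ k l, k ≠ l → ∀ e : Sym2 (Fin n), ∃ B B' : S → Fin r → ℝ, ∀ Y : S → S → ℝ,
      (∀ a b, G.Adj (φ k a) (φ l b) ∧ s(φ k a, φ l b) ≠ e → Y a b = 0) →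
      (∀ a c, ∑ b, Y a b * B' b c = 0) → (∀ b c, ∑ a, Y a b * B a c = 0) → Y = 0) :
    ∃ A, IsNu G A ∧ A.rank ≤ Fintype.card K * r + {v | ¬ ∃ k a, φ k a = v}.ncard := by
  classical
  let Bl : K × K × Sym2 (Fin n) → (K → S → Fin r → ℝ) →ₗ[ℝ] (S → S → ℝ) →ₗ[ℝ]
      ((S → Fin r → ℝ) × (S → Fin r → ℝ)) := fun q =>
    LinearMap.mk₂ ℝ (fun x Y => (fun a c => ∑ b, Y a b * x q.2.1 b c,
      fun b c => ∑ a, Y a b * x q.1 a c))
    (fun _ _ _ => by ext <;> simp [mul_add, Finset.sum_add_distrib])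
    (fun _ _ _ => by ext <;> simp [Finset.mul_sum, mul_left_comm])
    (fun _ _ _ => by ext <;> simp [add_mul, Finset.sum_add_distrib])
    (fun _ _ _ => by ext <;> simp [Finset.mul_sum, mul_assoc])
  let W : K × K × Sym2 (Fin n) → Submodule ℝ (S → S → ℝ) := fun q =>
    { carrier := {Y | ∀ a b, (φ q.1 a = φ q.2.1 b ∨
        G.Adj (φ q.1 a) (φ q.2.1 b) ∧ s(φ q.1 a, φ q.2.1 b) ≠ q.2.2) → Y a b = 0}
      add_mem' := fun {Y Y'} h h' a b hab => by simp [h a b hab, h' a b hab]
      zero_mem' := by simp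
      smul_mem' := fun c Y h a b hab => by simp [h a b hab] }
  obtain ⟨x, hx⟩ := exists_generic Bl W fun ⟨k, l, e⟩ => by
    by_cases hkl : k = l
    · subst hkl
      refine ⟨fun _ _ _ => 1, fun Y hY h0 => ?_⟩
      ext a b
      by_contra hne
      have h1 : ∑ b, Y a b * 1 = 0 := congrFun (congrFun (congrArg Prod.fst h0) a) ⟨0, hr⟩
      have h2 : ∀ b, Y a b ≠ 0 → s(φ k a, φ k b) = e := fun b hb => by
        by_contra h
        by_cases hab : a = b
        · exact hb (hY a b (Or.inl (by rw [hab])))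
        · exact hb (hY a b (Or.inr ⟨hcl k a b hab, h⟩))
      rw [Finset.sum_eq_single b (fun b' _ hb' => ?_) (by simp), mul_one] at h1
      · exact hne h1
      · by_contra h
        rw [mul_one] at h
        exact hb' (hinj _ _ _ _ (Sym2.congr_right.1 ((h2 b' h).trans (h2 b hne).symm))).2
    · obtain ⟨B, B', h⟩ := hcr k l hkl e
      refine ⟨fun k' => if k' = k then B else B', fun Y hY h0 => h Y
        (fun a b hab => hY a b (Or.inr hab)) (fun a c => ?_) fun b c => ?_⟩
      · have := congrFun (congrFun (congrArg Prod.fst h0) a) c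
        simpa [Bl, Ne.symm hkl] using this
      · have := congrFun (congrFun (congrArg Prod.snd h0) b) c
        simpa [Bl] using this
  let V : Fin n → (K × Fin r) ⊕ {v | ¬ ∃ k a, φ k a = v} → ℝ := fun v =>
    Sum.elim (fun q => ∑ a, if φ q.1 a = v then x q.1 a q.2 else 0)
      (fun w => if v = w.1 then 1 else 0)
  have hO : Orth G V := by
    intro i j hij hadj
    rw [dotProduct, Fintype.sum_sum_type]
    simp only [V, Sum.elim_inl, Sum.elim_inr]
    rw [Finset.sum_eq_zero, Finset.sum_eq_zero, add_zero]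
    · intro w _
      by_cases h : i = w.1
      · have : j ≠ w.1 := fun h' => hij (h.trans h'.symm)
        simp [this]
      · simp [h]
    · intro q _
      rw [Finset.sum_mul_sum]
      refine Finset.sum_eq_zero fun a _ => Finset.sum_eq_zero fun b _ => ?_
      by_cases h1 : φ q.1 a = i
      · by_cases h2 : φ q.1 b = j
        · refine absurd ?_ hadj
          rw [← h1, ← h2]
          exact hcl _ _ _ fun h => hij (by rw [← h1, ← h2, h])
        · simp [h2]
      · simp [h1]
  have hR : Rigid G V := by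
    intro e X h1 h2 h3 h4
    have a1 : ∀ i k c, ∑ b, X i (φ k b) * x k b c = 0 := by
      intro i k c
      have := h4 i (Sum.inl (k, c))
      simp only [V, Sum.elim_inl, Finset.mul_sum] at this
      rw [Finset.sum_comm] at this
      simpa using this
    have a2 : ∀ i j, (¬ ∃ k a, φ k a = j) → X i j = 0 := by
      intro i j hj
      simpa [V] using h4 i (Sum.inr ⟨j, hj⟩)
    ext i j
    by_cases hj : ∃ k a, φ k a = j
    · by_cases hi : ∃ k a, φ k a = i
      · obtain ⟨k, a, rfl⟩ := hi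
        obtain ⟨l, b, rfl⟩ := hj
        refine congrFun (congrFun (hx (k, l, e) (fun a b => X (φ k a) (φ l b)) ?_ ?_) a) b
        · rintro a b (h | h)
          · change X (φ k a) (φ l b) = 0
            rw [show φ k a = φ l b from h, h2]
          · exact h3 _ _ h.1 h.2
        · ext a c
          · exact a1 _ _ _
          · change ∑ b, X (φ k b) (φ l a) * x k b c = 0
            simp only [h1 (φ k _)]
            exact a1 _ _ _
      · rw [h1]; exact a2 j i hi
    · exact a2 i j hj
  obtain ⟨A, hA, hrk⟩ := exists_isNu hO hR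
  refine ⟨A, hA, hrk.trans (le_of_eq ?_)⟩
  rw [Fintype.card_sum, Fintype.card_prod, Fintype.card_fin, ← Nat.card_coe_set_eq,
    Nat.card_eq_fintype_card]

/-- there is an edge between any two disjoint sets of size `a` -/
def NoHole {ι : Type} (G : SimpleGraph ι) (a : ℕ) : Prop :=
  ∀ S T : Finset ι, Disjoint S T → S.card = a → T.card = a → ∃ u ∈ S, ∃ v ∈ T, G.Adj u v

lemma exists_clique {ι : Type} {G : SimpleGraph ι} {a : ℕ} (ha : 0 < a) (h : NoHole G a) (j : ℕ) :
    ∀ U : Finset ι, (3 * a) ^ j ≤ U.card → ∃ C ⊆ U, G.IsNClique j C := by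
  classical
  induction j with
  | zero => exact fun U _ => ⟨∅, by simp, by simp⟩
  | succ j ih =>
    intro U hU
    have h1 : 1 ≤ (3 * a) ^ j := Nat.one_le_pow _ _ (by omega)
    rw [pow_succ] at hU
    obtain ⟨S, hS, hSa⟩ := Finset.exists_subset_card_eq (s := U) (n := a) (by nlinarith)
    set T := (U \ S).filter fun v => ∀ u ∈ S, ¬ G.Adj u v with hT
    have hTa : T.card < a := by
      by_contra hc
      obtain ⟨T', hT', hT'a⟩ := Finset.exists_subset_card_eq (not_lt.1 hc)
      obtain ⟨u, hu, v, hv, huv⟩ := h S T' (Finset.disjoint_left.2 fun w h1 h2 =>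
        (Finset.mem_sdiff.1 (Finset.mem_filter.1 (hT' h2)).1).2 h1) hSa hT'a
      exact (Finset.mem_filter.1 (hT' hv)).2 u hu huv
    have hcov : U ⊆ S ∪ T ∪ S.biUnion fun u => U.filter (G.Adj u) := by
      intro v hv
      simp only [hT, Finset.mem_union, Finset.mem_filter, Finset.mem_sdiff, Finset.mem_biUnion]
      by_contra hc
      push Not at hc
      obtain ⟨u, hu, huv⟩ := hc.1.2 ⟨hv, hc.1.1⟩
      exact hc.2 u hu hv huv
    obtain ⟨u, hu, hu'⟩ : ∃ u ∈ S, (3 * a) ^ j ≤ (U.filter (G.Adj u)).card := by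
      by_contra hc
      push Not at hc
      have h2 := Finset.card_biUnion_le_card_mul S (fun u => U.filter (G.Adj u)) _
        fun u hu => (hc u hu).le
      have h3 := (Finset.card_le_card hcov).trans ((Finset.card_union_le _ _).trans
        (add_le_add (Finset.card_union_le _ _) h2))
      nlinarith
    obtain ⟨C, hC, hC'⟩ := ih _ hu'
    refine ⟨insert u C, Finset.insert_subset (hS hu) (hC.trans (Finset.filter_subset _ _)),
      hC'.insert fun b hb => (Finset.mem_filter.1 (hC hb)).2⟩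

lemma exists_tiling {ι : Type} [Fintype ι] {G : SimpleGraph ι} {a : ℕ} (ha : 0 < a)
    (h : NoHole G a) (S : Type) [Fintype S] [Nonempty S] :
    ∃ (K : Type) (_ : Fintype K) (φ : K → S → ι),
      (∀ k a l b, φ k a = φ l b → k = l ∧ a = b) ∧ (∀ k a b, a ≠ b → G.Adj (φ k a) (φ k b)) ∧
      {v | ¬ ∃ k a, φ k a = v}.ncard < (3 * a) ^ Fintype.card S := by
  classical
  obtain ⟨𝒯, h𝒯, hmax⟩ := Finset.exists_max_image (Finset.univ.filter fun 𝒯 : Finset (Finset ι) =>
    (∀ C ∈ 𝒯, G.IsNClique (Fintype.card S) C) ∧ ∀ C ∈ 𝒯, ∀ D ∈ 𝒯, C ≠ D → Disjoint C D)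
    Finset.card ⟨∅, by simp⟩
  simp only [Finset.mem_filter, Finset.mem_univ, true_and] at h𝒯 hmax
  have he : ∀ C : 𝒯, Nonempty (S ≃ C.1) := fun C =>
    Fintype.card_eq.1 (by rw [Fintype.card_coe, (h𝒯.1 C C.2).card_eq])
  let e := fun C => (he C).some
  refine ⟨𝒯, inferInstance, fun C a => e C a, fun C a D b hab => ?_, fun C a b hab => ?_, ?_⟩
  · have : C = D := by
      by_contra hne
      exact Finset.disjoint_left.1 (h𝒯.2 C C.2 D D.2 fun h => hne (Subtype.ext h)) (e C a).2
        (by rw [show (e C a : ι) = e D b from hab]; exact (e D b).2)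
    subst this
    exact ⟨rfl, (e C).injective (Subtype.ext hab)⟩
  · exact (h𝒯.1 C C.2).isClique (e C a).2 (e C b).2
      fun h => hab ((e C).injective (Subtype.ext h))
  · by_contra hc
    rw [Set.ncard_eq_toFinset_card'] at hc
    obtain ⟨C, hC, hC'⟩ := exists_clique ha h _ _ (not_lt.1 hc)
    have hd : ∀ D ∈ 𝒯, Disjoint C D := fun D hD => Finset.disjoint_left.2 fun v h1 h2 => by
      have := hC h1
      simp only [Set.mem_toFinset, mem_ofPred_eq] at this
      exact this ⟨⟨D, hD⟩, (e ⟨D, hD⟩).symm ⟨v, h2⟩, by simp⟩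
    have hn : C ∉ 𝒯 := fun hm => by
      have h1 := hd C hm
      rw [disjoint_self] at h1
      have h2 := hC'.card_eq
      rw [h1] at h2
      exact Fintype.card_ne_zero h2.symm
    have := hmax (insert C 𝒯) ⟨by simpa [hC'] using h𝒯.1, fun D hD D' hD' hne => by
      rcases Finset.mem_insert.1 hD with rfl | h1 <;> rcases Finset.mem_insert.1 hD' with rfl | h2
      · exact absurd rfl hne
      · exact hd _ h2
      · exact (hd _ h1).symm
      · exact h𝒯.2 _ h1 _ h2 hne⟩
    rw [Finset.card_insert_of_notMem hn] at this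
    omega

end Pool.Agent.MP_875478_co
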