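import Mathlib

set_option autoImplicit false
open Set Topology Filter

namespace Pool.Agent.MP_875478_co

section OD
variable {E U F : Type} [NormedAddCommGroup E] [NormedSpace ℝ E] [FiniteDimensional ℝ E]
  [NormedAddCommGroup U] [NormedSpace ℝ U] [FiniteDimensional ℝ U]
  [NormedAddCommGroup F] [NormedSpace ℝ F] [FiniteDimensional ℝ F]

omit [FiniteDimensional ℝ F] in
lemma isOpen_inj (B : E →ₗ[ℝ] U →ₗ[ℝ] F) (W : Submodule ℝ U) :
    IsOpen {x | ∀ u ∈ W, B x u = 0 → u = 0} := by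
  let L : E →ₗ[ℝ] (W →L[ℝ] F) :=
    (LinearMap.toContinuousLinearMap : (W →ₗ[ℝ] F) ≃ₗ[ℝ] (W →L[ℝ] F)).toLinearMap ∘ₗ
      (LinearMap.lcomp ℝ F W.subtype ∘ₗ B)
  have h := ContinuousLinearMap.isOpen_injective.preimage L.continuous_of_finiteDimensional
  convert h using 1
  ext x
  simp only [mem_ofPred_eq, mem_preimage]
  rw [injective_iff_map_eq_zero]
  constructor
  · intro h u hu; exact Subtype.ext (h u u.2 hu)
  · intro h u hu h0; exact congrArg Subtype.val (h ⟨u, hu⟩ h0)

omit [FiniteDimensional ℝ E] [FiniteDimensional ℝ F] in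
lemma dense_inj (B : E →ₗ[ℝ] U →ₗ[ℝ] F) (W : Submodule ℝ U) {x₀ : E}
    (h₀ : ∀ u ∈ W, B x₀ u = 0 → u = 0) : Dense {x | ∀ u ∈ W, B x u = 0 → u = 0} := by
  obtain ⟨g, hg⟩ := ((B x₀).comp W.subtype).exists_leftInverse_of_injective
    (LinearMap.ker_eq_bot'.2 fun u hu => Subtype.ext (h₀ u u.2 hu))
  intro y
  set N : Module.End ℝ W := g.comp ((B y).comp W.subtype) with hN
  have hfin : {τ : ℝ | N.HasEigenvalue (-τ)}.Finite :=
    N.finite_hasEigenvalue.preimage neg_injective.injOn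
  have ht : Tendsto (fun τ : ℝ => y + τ • x₀) (𝓝[≠] 0) (𝓝 y) := by
    have : Continuous fun τ : ℝ => y + τ • x₀ := by fun_prop
    simpa using (this.tendsto 0).mono_left nhdsWithin_le_nhds
  refine mem_closure_of_tendsto ht ?_
  have hev : ∀ᶠ τ in 𝓝[≠] (0 : ℝ), τ ∉ {τ : ℝ | N.HasEigenvalue (-τ)} :=
    nhdsNE_le_cofinite _ hfin.compl_mem_cofinite
  filter_upwards [hev] with τ hτ u hu h0
  by_contra hne
  refine hτ (Module.End.hasEigenvalue_of_hasEigenvector (x := ⟨u, hu⟩)
    ⟨Module.End.mem_eigenspace_iff.2 ?_, fun h => hne (congrArg Subtype.val h)⟩)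
  have h1 : g (B x₀ u) = ⟨u, hu⟩ := congr($hg ⟨u, hu⟩)
  have h2 := congrArg g h0
  simp only [map_add, map_smul, LinearMap.add_apply, LinearMap.smul_apply, h1, map_zero] at h2
  rw [neg_smul, eq_neg_iff_add_eq_zero]
  exact h2

omit [FiniteDimensional ℝ F] in
/-- finitely many injectivity conditions, each satisfiable, are simultaneously satisfiable -/
lemma exists_generic {J : Type} [Finite J] (B : J → E →ₗ[ℝ] U →ₗ[ℝ] F) (W : J → Submodule ℝ U)
    (h : ∀ j, ∃ x₀, ∀ u ∈ W j, B j x₀ u = 0 → u = 0) :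
    ∃ x, ∀ j, ∀ u ∈ W j, B j x u = 0 → u = 0 := by
  have := FiniteDimensional.complete ℝ E
  obtain ⟨x, hx⟩ := (dense_iInter_of_isOpen (fun j => isOpen_inj (B j) (W j))
    (fun j => let ⟨_, h₀⟩ := h j; dense_inj (B j) (W j) h₀)).nonempty
  exact ⟨x, fun j => mem_iInter.1 hx j⟩

end OD

/-- Vandermonde -/
lemma van_zero {C : Type} [Fintype C] [DecidableEq C] {x : C → ℝ} (hx : Function.Injective x)
    {y : C → ℝ} {m : ℕ} (S : Finset C) (hS : S.card ≤ m) (hy : ∀ j, j ∉ S → y j = 0)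
    (h : ∀ u < m, ∑ j, y j * x j ^ u = 0) : y = 0 := by
  let e := S.equivFin.symm
  have h1 := Matrix.eq_zero_of_forall_pow_sum_mul_pow_eq_zero (f := fun i => x (e i))
    (v := fun i => y (e i)) (fun a b hab => e.injective (Subtype.ext (hx hab))) (fun i => by
      rw [← h i (i.2.trans_le hS), e.sum_comp (fun j => y j * x j ^ (i : ℕ)),
        Finset.sum_coe_sort S (fun j => y j * x j ^ (i : ℕ))]
      exact Finset.sum_subset (Finset.subset_univ _) fun j _ hj => by simp [hy j hj])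
  ext j
  by_cases hj : j ∈ S
  · simpa using congrFun h1 (e.symm ⟨j, hj⟩)
  · exact hy j hj

/-- a matrix whose left kernel is a direct sum of Vandermonde codes on the classes of a
partition -/
lemma exists_blocks {C P : Type} [Fintype C] [Fintype P] [DecidableEq P] (π : C → P) (m : P → ℕ)
    {r : ℕ} (hr : ∑ p, m p ≤ r) (x : C → ℝ) :
    ∃ B : C → Fin r → ℝ, ∀ y : C → ℝ, (∀ c, ∑ j, y j * B j c = 0) →
      ∀ p, ∀ u < m p, ∑ j, (if π j = p then y j else 0) * x j ^ u = 0 := by
  classical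
  obtain ⟨ψ⟩ : Nonempty ((Σ p, Fin (m p)) ↪ Fin r) :=
    Function.Embedding.nonempty_of_card_le (by simpa using hr)
  refine ⟨fun j c => ∑ q : (Σ p, Fin (m p)),
    if ψ q = c ∧ π j = q.1 then x j ^ (q.2 : ℕ) else 0, fun y hy p u hu => ?_⟩
  refine Eq.trans (Finset.sum_congr rfl fun j _ => ?_) (hy (ψ ⟨p, ⟨u, hu⟩⟩))
  beta_reduce
  rw [Finset.sum_eq_single ⟨p, ⟨u, hu⟩⟩ (fun q _ hq => by simp [hq]) (by simp)]
  by_cases h : π j = p <;> simp [h]

/-- the bilinear map `(B, Y) ↦ Y B` -/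
def mulR (A C K : Type) [Fintype C] : (C → K → ℝ) →ₗ[ℝ] (A → C → ℝ) →ₗ[ℝ] (A → K → ℝ) :=
  LinearMap.mk₂ ℝ (fun B Y a c => ∑ j, Y a j * B j c)
    (fun _ _ _ => by ext; simp [mul_add, Finset.sum_add_distrib])
    (fun _ _ _ => by ext; simp [Finset.mul_sum, mul_left_comm])
    (fun _ _ _ => by ext; simp [add_mul, Finset.sum_add_distrib])
    (fun _ _ _ => by ext; simp [Finset.mul_sum, mul_assoc])

@[simp] lemma mulR_apply {A C K : Type} [Fintype C] (B : C → K → ℝ) (Y : A → C → ℝ) (a : A)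
    (c : K) : mulR A C K B Y a c = ∑ j, Y a j * B j c := rfl

/-- the cross lemma: a sufficient condition for rigidity of a bipartite pattern -/
lemma cross {Γ T C : Type} [Fintype Γ] [Fintype T] [Fintype C] [DecidableEq Γ] [DecidableEq T]
    [DecidableEq C] (Z : Γ × T → C → Prop) [∀ a j, Decidable (Z a j)] {e r : ℕ} (he : 0 < e)
    (good : Γ → Prop) [DecidablePred good] (ρ : Γ → C → Finset T) (f : Γ → Finset T → ℕ)
    (ha : ∀ γ, good γ → ∀ R, f γ R ≠ 0 → e ≤ R.card ∧
      ∀ i ∈ R, f γ R ≤ (Finset.univ.filter fun j => ρ γ j = R ∧ Z (γ, i) j).card)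
    (hb : ∀ γ, good γ → Fintype.card C ≤ r + ∑ R, f γ R)
    (hc : ∑ γ, (if good γ then Fintype.card T - e else Fintype.card T) ≤ r) :
    ∃ (B : Γ × T → Fin r → ℝ) (B' : C → Fin r → ℝ), ∀ Y : Γ × T → C → ℝ,
      (∀ a j, Z a j → Y a j = 0) → (∀ a c, ∑ j, Y a j * B' j c = 0) →
      (∀ j c, ∑ a, Y a j * B a c = 0) → Y = 0 := by
  obtain ⟨x, hx⟩ : ∃ x : Γ × T → ℝ, Function.Injective x :=
    ⟨_, Nat.cast_injective.comp (Fin.val_injective.comp (Fintype.equivFin _).injective)⟩
  obtain ⟨x', hx'⟩ : ∃ x : C → ℝ, Function.Injective x :=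
    ⟨_, Nat.cast_injective.comp (Fin.val_injective.comp (Fintype.equivFin _).injective)⟩
  set m : Γ → ℕ := fun γ => if good γ then Fintype.card T - e else Fintype.card T with hm
  obtain ⟨B, hB⟩ := exists_blocks (Prod.fst : Γ × T → Γ) m hc x
  let W : Γ → Submodule ℝ (Γ × T → C → ℝ) := fun γ =>
    { carrier := {Y | (∀ a j, a.1 ≠ γ → Y a j = 0) ∧ (∀ a j, Z a j → Y a j = 0) ∧
        ∀ j, ∀ u < m γ, ∑ a, Y a j * x a ^ u = 0}
      add_mem' := fun {Y Y'} h h' => ⟨fun a j ha => by simp [h.1 a j ha, h'.1 a j ha],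
        fun a j ha => by simp [h.2.1 a j ha, h'.2.1 a j ha],
        fun j u hu => by simp [add_mul, Finset.sum_add_distrib, h.2.2 j u hu, h'.2.2 j u hu]⟩
      zero_mem' := by simp
      smul_mem' := fun c Y h => ⟨fun a j ha => by simp [h.1 a j ha],
        fun a j ha => by simp [h.2.1 a j ha],
        fun j u hu => by simp [mul_assoc, ← Finset.mul_sum, h.2.2 j u hu]⟩ }
  have hcol : ∀ γ, ∀ Y ∈ W γ, ∀ j, ∀ R : Finset T, Fintype.card T - R.card ≤ m γ →
      (∀ i ∈ R, Y (γ, i) j = 0) → ∀ a, Y a j = 0 := by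
    intro γ Y hY j R hR h0
    refine congrFun (van_zero hx (y := fun a => Y a j) (Rᶜ.image fun i => (γ, i))
      (Finset.card_image_le.trans (by rwa [Finset.card_compl])) ?_ (hY.2.2 j))
    rintro ⟨γ', i⟩ hi
    by_cases h : γ' = γ
    · subst h
      exact h0 i (by simpa using hi)
    · exact hY.1 _ j h
  obtain ⟨B', hB'⟩ := exists_generic (fun _ : Γ => mulR (Γ × T) C (Fin r)) W fun γ => by
    by_cases hg : good γ
    · set m' : Finset T → ℕ := fun R => (Finset.univ.filter fun j => ρ γ j = R).card - f γ R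
      have hle : ∀ R, f γ R ≤ (Finset.univ.filter fun j => ρ γ j = R).card := by
        intro R
        by_cases h0 : f γ R = 0
        · omega
        · obtain ⟨h1, h2⟩ := ha γ hg R h0
          obtain ⟨i, hi⟩ := Finset.card_pos.1 (he.trans_le h1)
          exact (h2 i hi).trans (Finset.card_le_card fun j hj => by
            simp only [Finset.mem_filter] at hj ⊢; exact ⟨hj.1, hj.2.1⟩)
      have hs : ∑ R, m' R ≤ r := by
        have h1 : ∑ R, m' R + ∑ R, f γ R = Fintype.card C := by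
          rw [← Finset.sum_add_distrib, Finset.sum_congr rfl fun R _ => Nat.sub_add_cancel (hle R)]
          exact (Finset.card_eq_sum_card_fiberwise fun j _ => Finset.mem_univ _).symm
        have := hb γ hg
        omega
      obtain ⟨B', hB'⟩ := exists_blocks (ρ γ) m' hs x'
      refine ⟨B', fun Y hY h0 => ?_⟩
      have hrow : ∀ a j, (f γ (ρ γ j) = 0 ∨ ∃ i ∈ ρ γ j, a = (γ, i)) → Y a j = 0 := by
        intro a j hj
        have h1 := hB' (Y a) (fun c => congrFun (congrFun h0 a) c) (ρ γ j)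
        have h2 := van_zero hx' (y := fun j' => if ρ γ j' = ρ γ j then Y a j' else 0)
          (Finset.univ.filter fun j' => ρ γ j' = ρ γ j ∧ (f γ (ρ γ j) = 0 ∨ ¬ Z a j')) ?_ ?_ h1
        · simpa using congrFun h2 j
        · by_cases h0 : f γ (ρ γ j) = 0
          · simp [m', h0]
          · obtain ⟨i, hi, rfl⟩ := hj.resolve_left h0
            have h3 := (ha γ hg _ h0).2 i hi
            have h4 := Finset.card_filter_add_card_filter_not
              (s := Finset.univ.filter fun j' => ρ γ j' = ρ γ j) (fun j' => Z (γ, i) j')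
            simp only [Finset.filter_filter] at h4
            simp only [m', h0, false_or]
            omega
        · intro j' hj'
          split_ifs with h
          · simp only [Finset.mem_filter, Finset.mem_univ, true_and, h, not_or, not_not] at hj'
            exact hY.2.1 a j' hj'.2
          · rfl
      ext a j
      by_cases h0 : f γ (ρ γ j) = 0
      · exact hrow a j (Or.inl h0)
      · refine hcol γ Y hY j (ρ γ j) ?_ (fun i hi => hrow _ j (Or.inr ⟨i, hi, rfl⟩)) a
        have := (ha γ hg _ h0).1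
        simp only [hm, hg, if_true]
        omega
    · refine ⟨0, fun Y hY _ => ?_⟩
      ext a j
      exact hcol γ Y hY j ∅ (by simp [hm, hg]) (by simp) a
  refine ⟨B, B', fun Y h1 h2 h3 => ?_⟩
  ext ⟨γ, i⟩ j
  have := hB' γ (fun a j => if a.1 = γ then Y a j else 0)
    ⟨fun a j ha => by simp [ha], fun a j ha => by simp [h1 a j ha],
      fun j u hu => hB (fun a => Y a j) (h3 j) γ u hu⟩ (by
      ext a c
      by_cases h : a.1 = γ <;> simp [h, h2])
  simpa using congrFun (congrFun this (γ, i)) j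

end Pool.Agent.MP_875478_co
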