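import Pool.Agent.MP_875478_co.Random2

set_option autoImplicit false
set_option linter.unusedSectionVars false
open Finset Filter Topology MeasureTheory

namespace Pool.Agent.MP_875478_co

lemma eventually_of_scale {P : ℕ → Prop}
    (h : ∀ᶠ u : ℕ in atTop, ∀ n, 2 ^ (u ^ 3) ≤ n → n < 2 ^ ((u + 1) ^ 3) → P n) :
    ∀ᶠ n in atTop, P n := by
  classical
  obtain ⟨u₀, h⟩ := eventually_atTop.1 h
  refine eventually_atTop.2 ⟨2 ^ (u₀ ^ 3), fun n hn => ?_⟩
  have hex : ∃ u, n < 2 ^ ((u + 1) ^ 3) := ⟨n, lt_of_lt_of_le Nat.lt_two_pow_self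
    (Nat.pow_le_pow_right two_pos ((Nat.le_succ n).trans (Nat.le_self_pow (by norm_num) _)))⟩
  have h1 := Nat.find_spec hex
  have h2 : u₀ ≤ Nat.find hex := by
    by_contra hc
    exact absurd (h1.trans_le (Nat.pow_le_pow_right two_pos
      (Nat.pow_le_pow_left (by omega) 3))) (not_lt.2 hn)
  refine h _ h2 n ?_ h1
  rcases Nat.eq_zero_or_pos (Nat.find hex) with h0 | h0
  · rw [h0]; exact le_trans (Nat.one_le_two_pow) hn
  · have := Nat.find_min hex (Nat.sub_one_lt_of_lt h0)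
    rw [Nat.sub_add_cancel h0] at this
    exact not_lt.1 this

lemma tendsto_fail' {η q ε : ℝ} (hη0 : 0 < η) (hη1 : η ≤ 1) (hε : 0 < ε) (hq : ε < q)
    (hq1 : q ≤ 1) {δ : ℝ} (hδ : 0 < δ) : ∀ᶠ n : ℕ in atTop, Ex (bern (η + (1 - η) * q ^ 2))
      (fun ω : Sym2 (Fin n) → Bool => ind (¬ Low (gr ω) ((1 - q + 5 * ε) * n))) ≤ δ := by
  have hexp : ∀ {c x : ℝ}, 0 < c → 0 < x → ∀ᶠ t : ℕ in atTop, Real.exp (-(c * t)) ≤ x := by
    intro c x hc hx
    exact (Real.tendsto_exp_neg_atTop_nhds_zero.comp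
      (tendsto_natCast_atTop_atTop.const_mul_atTop hc)).eventually (ge_mem_nhds hx)
  obtain ⟨t, hlln, ht⟩ := ((hexp (c := ε ^ 2 / 4) (by positivity) hε).and
    (eventually_gt_atTop 0)).exists
  set C : ℝ := 2 * (2 ^ t * t) with hC
  set c : ℝ := (ε / 2 ^ t) ^ 2 / 4 * ε * t with hc
  have hC0 : 0 ≤ C := by positivity
  have hc0 : 0 < c := by positivity
  have hpoly : ∀ᶠ u : ℕ in atTop, (u : ℝ) ^ (4 * t) / 2 ^ u ≤ ε / 3 ^ t :=
    (tendsto_pow_const_div_const_pow_of_one_lt (4 * t) one_lt_two).eventually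
      (ge_mem_nhds (by positivity))
  have hbig : ∀ x : ℝ, ∀ᶠ u : ℕ in atTop, x ≤ u := fun x =>
    tendsto_natCast_atTop_atTop.eventually (eventually_ge_atTop x)
  refine eventually_of_scale ?_
  filter_upwards [hpoly, hexp one_pos (half_pos hδ), hbig 1, hbig (1 / ε), hbig (17 / η),
    hbig ((17 + C) / c)] with u h1 h2 h3 h4 h5 h6 n hn1 hn2
  rw [div_le_iff₀ hε] at h4
  rw [div_le_iff₀ hη0] at h5
  rw [div_le_iff₀ hc0] at h6
  have hu : 0 < u := by exact_mod_cast zero_lt_one.trans_le h3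
  have hn3 : (n : ℝ) ≤ Real.exp (8 * u ^ 3) := by
    have a1 : (n : ℝ) ≤ 2 ^ (8 * u ^ 3) := by
      have : (u + 1) ^ 3 ≤ 8 * u ^ 3 := by
        have := Nat.pow_le_pow_left (show u + 1 ≤ 2 * u by omega) 3
        rw [mul_pow] at this; exact this
      exact_mod_cast hn2.le.trans (Nat.pow_le_pow_right two_pos this)
    refine a1.trans ((pow_le_pow_left₀ zero_le_two (b := Real.exp 1)
      (by linarith [Real.add_one_le_exp 1]) _).trans (le_of_eq ?_))
    rw [← Real.exp_nat_mul]; push_cast; rw [mul_one]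
  have hu2 : (u : ℝ) ≤ u ^ 2 := by nlinarith
  have hu3 : (u : ℝ) ^ 2 ≤ u ^ 3 := pow_le_pow_right₀ h3 (by norm_num)
  have hu7 : (u : ℝ) ≤ u ^ 7 := le_self_pow₀ h3 (by norm_num)
  refine (fail_bound (a := u ^ 4) (g := u ^ 2) hη0.le hη1 hε hq hq1 (by positivity) ht hlln
    (by push_cast; nlinarith) ?_).trans ?_
  · have a1 : ((3 * u ^ 4 : ℕ) : ℝ) ^ t ≤ ε * 2 ^ u := by
      rw [div_le_div_iff₀ (by positivity) (by positivity)] at h1
      push_cast
      rw [mul_pow, ← pow_mul, mul_comm]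
      exact h1
    rw [mul_comm (u ^ 2), pow_mul]
    refine (pow_le_pow_left₀ (by positivity) a1 _).trans ?_
    rw [mul_pow, ← pow_mul]
    refine mul_le_mul (pow_le_of_le_one hε.le (by linarith) (by positivity)) ?_ (by positivity)
      hε.le
    rw [show u * u ^ 2 = u ^ 3 by ring]
    exact_mod_cast hn1
  · rw [← add_halves δ]
    refine add_le_add (le_trans ?_ h2) (le_trans ?_ h2)
    · refine (mul_le_mul (pow_le_pow_left₀ (by positivity) hn3 _) (pow_le_pow_left₀ (by linarith)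
        (b := Real.exp (-η)) (by linarith [Real.add_one_le_exp (-η)]) _)
        (pow_nonneg (by linarith) _) (by positivity)).trans ?_
      rw [← Real.exp_nat_mul, ← Real.exp_nat_mul, ← Real.exp_add]
      refine Real.exp_le_exp.2 ?_
      push_cast
      nlinarith [mul_le_mul_of_nonneg_left h5 (show (0 : ℝ) ≤ u ^ 7 by positivity)]
    · refine (mul_le_mul (pow_le_pow_left₀ (by positivity) hn3 _)
        (mul_le_mul_of_nonneg_right (pow_le_pow_left₀ hC0 (b := Real.exp C)
          (by linarith [Real.add_one_le_exp C]) _) (Real.exp_pos _).le)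
        (by positivity) (by positivity)).trans ?_
      rw [← Real.exp_nat_mul, ← Real.exp_nat_mul, ← Real.exp_add, ← Real.exp_add]
      refine Real.exp_le_exp.2 ?_
      have a1 : (ε / 2 ^ t) ^ 2 / 4 * (ε * ((u ^ 2 : ℕ) : ℝ) * (((u ^ 2 : ℕ) : ℝ) * t)) =
          c * u ^ 4 := by rw [hc]; push_cast; ring
      rw [a1]
      push_cast
      nlinarith [mul_le_mul_of_nonneg_left h6 (show (0 : ℝ) ≤ u ^ 3 by positivity),
        mul_le_mul_of_nonneg_left hu3 hC0]

lemma Low.mono {n : ℕ} {G : SimpleGraph (Fin n)} {x y : ℝ} (h : Low G x) (hxy : x ≤ y) :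
    Low G y := let ⟨A, h1, h2⟩ := h; ⟨A, h1, h2.trans hxy⟩

theorem tendsto_fail {p ε : ℝ} (h0 : 0 < p) (h1 : p < 1) (hε : 0 < ε) {δ : ℝ} (hδ : 0 < δ) :
    ∀ᶠ n : ℕ in atTop, Ex (bern p)
      (fun ω : Sym2 (Fin n) → Bool => ind (¬ Low (gr ω) ((1 - √p + ε) * n))) ≤ δ := by
  have hs0 : 0 < √p := Real.sqrt_pos.2 h0
  have hs1 : √p < 1 := Real.sqrt_lt' one_pos |>.2 (by simpa using h1)
  have hs2 : √p ^ 2 = p := Real.sq_sqrt h0.le
  set ε₁ := min (ε / 6) (√p / 3) with hε₁
  have a1 : 0 < ε₁ := by positivity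
  have a2 : ε₁ ≤ ε / 6 := min_le_left _ _
  have a3 : ε₁ ≤ √p / 3 := min_le_right _ _
  set q := √p - ε₁ with hq
  have a4 : q ^ 2 < p := by nlinarith
  have a5 : 0 < 1 - q ^ 2 := by linarith
  have a6 : (p - q ^ 2) / (1 - q ^ 2) + (1 - (p - q ^ 2) / (1 - q ^ 2)) * q ^ 2 = p := by
    field_simp; ring
  have := tendsto_fail' (η := (p - q ^ 2) / (1 - q ^ 2)) (q := q) (ε := ε₁)
    (div_pos (by linarith) a5) ((div_le_one a5).2 (by linarith)) a1 (by linarith) (by linarith) hδ
  rw [a6] at this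
  filter_upwards [this] with n hn
  refine le_trans (Ex_mono (isP_bern h0.le h1.le) fun ω => ind_le (ind_nonneg _) fun h =>
    (ind_pos fun h' => h (h'.mono ?_)).ge) hn
  exact mul_le_mul_of_nonneg_right (by linarith) (Nat.cast_nonneg _)

lemma Ex_compl {ι : Type} [Fintype ι] [DecidableEq ι] (p : ℝ) (F : (ι → Bool) → ℝ) :
    Ex (bern p) (fun ω => F fun i => !ω i) = Ex (bern (1 - p)) F := by
  rw [Ex_map (fun a : Bool => !a) F]
  congr 1
  ext b
  cases b <;> simp [bern, ind]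

lemma gr_compl {V : Type} (ω : Sym2 V → Bool) : (gr ω)ᶜ = gr fun e => !ω e := by
  ext i j
  simp only [SimpleGraph.compl_adj, gr_adj]
  by_cases h : i = j <;> simp [h]

lemma real_eq_Ex (n : ℕ) (p : unitInterval) (P : SimpleGraph (Fin n) → Prop) :
    (SimpleGraph.binomialRandom (Fin n) p).real {G | P G} =
      Ex (bern p) fun ω : Sym2 (Fin n) → Bool => ind (P (gr ω)) := by
  classical
  have : MeasurableSingletonClass (SimpleGraph (Fin n)) := ⟨fun G => by
    rw [← Set.preimage_image_eq {G} SimpleGraph.edgeSet_injective, Set.image_singleton]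
    exact SimpleGraph.measurable_edgeSet (measurableSet_singleton _)⟩
  have h1 : ∀ ω : Sym2 (Fin n) → Bool, ind (P (gr ω)) = ∑ G ∈ univ.filter P,
      ∏ e, ind (e.IsDiag ∨ ω e = decide (e ∈ G.edgeSet)) := by
    intro ω
    have h2 : ∀ G : SimpleGraph (Fin n),
        (∀ e : Sym2 (Fin n), e.IsDiag ∨ ω e = decide (e ∈ G.edgeSet)) ↔ gr ω = G := by
      intro G
      constructor
      · intro h
        ext i j
        rw [gr_adj]
        by_cases hij : i = j
        · simp [hij]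
        · have := (h s(i, j)).resolve_left (by simpa using hij)
          simp [this, hij]
      · rintro rfl
        refine Sym2.ind fun i j => ?_
        by_cases hij : i = j <;> simp [gr_adj, hij]
    simp only [← ind_forall, h2]
    by_cases h : P (gr ω)
    · rw [sum_eq_single (gr ω) (fun G _ hG => ind_neg hG.symm) (fun h' => (h' (by simpa)).elim),
        ind_pos h, ind_pos rfl]
    · rw [ind_neg h, sum_eq_zero fun G hG => ind_neg fun h' : gr ω = G =>
        h (h' ▸ (mem_filter.1 hG).2)]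
  simp only [h1]
  rw [Ex_sum, show {G | P G} = ↑(univ.filter P) by simp, ← sum_measureReal_singleton]
  refine sum_congr rfl fun G _ => ?_
  rw [Ex_prod fun e b => ind (e.IsDiag ∨ b = decide (e ∈ G.edgeSet)), measureReal_def,
    SimpleGraph.binomialRandom_singleton]
  have h3 : ∀ e : Sym2 (Fin n), ∑ b, bern p b * ind (e.IsDiag ∨ b = decide (e ∈ G.edgeSet)) =
      (if e ∈ G.edgeSet then (p : ℝ) else 1) *
        (if e ∈ Sym2.diagSetᶜ \ G.edgeSet then 1 - (p : ℝ) else 1) := by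
    intro e
    by_cases hd : e.IsDiag
    · have : e ∉ G.edgeSet := fun h => G.not_isDiag_of_mem_edgeSet h hd
      simp [hd, this, ind, bern]
    · by_cases he : e ∈ G.edgeSet <;> simp [hd, he, ind, bern]
  simp only [h3, prod_mul_distrib, prod_ite, prod_const, one_pow, mul_one]
  have h4 : ∀ (s : Set (Sym2 (Fin n))) [DecidablePred (· ∈ s)],
      (univ.filter (· ∈ s)).card = s.ncard := fun s _ => by
    rw [Set.ncard_eq_toFinset_card']; congr 1; ext; simp
  rw [h4, h4, Set.ncard_sdiff G.edgeSet_subset_compl_diagSet, ← Nat.card_coe_set_eq Sym2.diagSetᶜ,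
    Nat.card_eq_fintype_card, Nat.card_eq_fintype_card, Sym2.card_diagSet_compl]
  simp

end Pool.Agent.MP_875478_co
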