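import Pool.Agent.MP_875478_co.Perturb

set_option autoImplicit false
open Set Topology Filter Matrix

namespace Pool.Agent.MP_875478_co

variable {ι κ : Type} [Fintype ι] [Fintype κ]

/-- no stress on the edges of `H` -/
def StressFree (H : SimpleGraph ι) (V : ι → κ → ℝ) : Prop :=
  ∀ X : ι → ι → ℝ, (∀ i j, X i j = X j i) → (∀ i j, ¬ H.Adj i j → X i j = 0) →
    (∀ i c, ∑ j, X i j * V j c = 0) → X = 0

/-- weak stress-free representation: orthogonal on the edges of `H`, no stress -/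
def WRep (H : SimpleGraph ι) (V : ι → κ → ℝ) : Prop :=
  (∀ i j, H.Adj i j → V i ⬝ᵥ V j = 0) ∧ StressFree H V

/-- the linearised Gram map onto the edges -/
lemma gram_surj [LinearOrder ι] {H : SimpleGraph ι} {V : ι → κ → ℝ} (hV : StressFree H V)
    (y : {q : ι × ι // q.1 < q.2 ∧ H.Adj q.1 q.2} → ℝ) :
    ∃ W : ι → κ → ℝ, ∀ t : {q : ι × ι // q.1 < q.2 ∧ H.Adj q.1 q.2},
      ∑ c, (V t.1.1 c * W t.1.2 c + V t.1.2 c * W t.1.1 c) = y t := by
  classical
  let P : ι × ι → Prop := fun q => q.1 < q.2 ∧ H.Adj q.1 q.2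
  let f' : (ι → κ → ℝ) →ₗ[ℝ] ({q // P q} → ℝ) :=
    { toFun := fun W t => ∑ c, (V t.1.1 c * W t.1.2 c + V t.1.2 c * W t.1.1 c)
      map_add' := fun W W' => by
        ext t
        simp only [Pi.add_apply, ← Finset.sum_add_distrib]
        exact Finset.sum_congr rfl fun c _ => by ring
      map_smul' := fun a W => by
        ext t
        simp only [Pi.smul_apply, smul_eq_mul, RingHom.id_apply, Finset.mul_sum]
        exact Finset.sum_congr rfl fun c _ => by ring }
  have hf'a : ∀ W t, f' W t = ∑ c, (V t.1.1 c * W t.1.2 c + V t.1.2 c * W t.1.1 c) :=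
    fun _ _ => rfl
  have hsurj : LinearMap.range f' = ⊤ := by
    by_contra hne
    obtain ⟨φ, hφ, hk⟩ := Submodule.exists_le_ker_of_lt_top _ (lt_top_iff_ne_top.2 hne)
    let c : {q // P q} → ℝ := fun t => φ fun j => if t = j then 1 else 0
    let c' : ι × ι → ℝ := fun q => if h : P q then c ⟨q, h⟩ else 0
    have hc' : ∀ g : ι × ι → ℝ, ∑ t : {q // P q}, g t.1 * c t = ∑ q, g q * c' q := by
      intro g
      rw [← Finset.sum_subset (Finset.subset_univ (Finset.univ.filter P))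
        (fun q _ hq => by simp only [Finset.mem_filter, Finset.mem_univ, true_and] at hq
                          simp [c', hq]),
        Finset.sum_subtype (Finset.univ.filter P) (p := P) (by simp)]
      exact Finset.sum_congr rfl fun t _ => by simp [c', t.2]
    let X : ι → ι → ℝ := fun i j => c' (i, j) + c' (j, i)
    have hX : X = 0 := by
      refine hV X (fun i j => add_comm _ _) (fun i j h1 => ?_) ?_
      · have a1 : ¬ P (i, j) := fun h => h1 h.2
        have a2 : ¬ P (j, i) := fun h => h1 h.2.symm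
        simp [X, c', a1, a2]
      · intro i k
        have h1 : φ (f' (Pi.single i (Pi.single k 1))) = 0 := hk ⟨_, rfl⟩
        rw [LinearMap.pi_apply_eq_sum_univ] at h1
        simp only [smul_eq_mul, hf'a] at h1
        have h2 := (hc' fun q => ∑ c, (V q.1 c * (Pi.single i (Pi.single k 1) : ι → κ → ℝ) q.2 c +
          V q.2 c * (Pi.single i (Pi.single k 1) : ι → κ → ℝ) q.1 c)).symm.trans h1
        have h3 : ∀ a b, ∑ c, V a c * (Pi.single i (Pi.single k 1) : ι → κ → ℝ) b c =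
            if b = i then V a k else 0 := by
          intro a b
          by_cases hb : b = i
          · subst hb; simp [Pi.single_apply]
          · simp [hb]
        simp only [Finset.sum_add_distrib, h3, add_mul, Fintype.sum_prod_type, ite_mul,
          zero_mul, Finset.sum_ite_eq', Finset.mem_univ, if_true] at h2
        rw [Finset.sum_comm] at h2
        simp only [Finset.sum_ite_eq', Finset.mem_univ, if_true] at h2
        simp only [X, add_mul, Finset.sum_add_distrib]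
        rw [← h2, add_comm]
        simp only [mul_comm]
    refine hφ (LinearMap.ext fun y => ?_)
    rw [LinearMap.pi_apply_eq_sum_univ]
    refine Finset.sum_eq_zero fun t _ => ?_
    have h1 := congrFun (congrFun hX t.1.1) t.1.2
    have h2 : ¬ P (t.1.2, t.1.1) := fun h => absurd h.1 (not_lt.2 t.2.1.le)
    simp only [X, c', h2, t.2, dif_pos, dif_neg, not_false_eq_true, add_zero, Pi.zero_apply] at h1
    change y t • c t = 0
    rw [h1, smul_zero]
  obtain ⟨W, hW⟩ := (LinearMap.range_eq_top.1 hsurj) y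
  exact ⟨W, fun t => congrFun hW t⟩

/-- small errors on the edges can be repaired -/
lemma repair {H : SimpleGraph ι} {V : ι → κ → ℝ} (hV : WRep H V)
    (φ : (ι → κ → ℝ) × ℝ → ι → ι → ℝ) (hφ : ContDiff ℝ 1 φ)
    (h0 : ∀ W i j, H.Adj i j → φ (W, 0) i j = 0) (hs : ∀ q i j, φ q i j = φ q j i)
    {N : Set ((ι → κ → ℝ) × ℝ)} (hN : N ∈ 𝓝 (V, (0 : ℝ))) :
    ∃ q ∈ N, q.2 ≠ 0 ∧ ∀ i j, H.Adj i j → q.1 i ⬝ᵥ q.1 j + φ q i j = 0 := by
  classical
  let _ : LinearOrder ι := LinearOrder.lift' (Fintype.equivFin ι) (Fintype.equivFin ι).injective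
  let T := {q : ι × ι // q.1 < q.2 ∧ H.Adj q.1 q.2}
  let g : (ι → κ → ℝ) → (T → ℝ) := fun W t => ∑ c, W t.1.1 c * W t.1.2 c
  let ev : ι → κ → (ι → κ → ℝ) →L[ℝ] ℝ := fun i c =>
    (ContinuousLinearMap.proj c : (κ → ℝ) →L[ℝ] ℝ).comp
      (ContinuousLinearMap.proj i : (ι → κ → ℝ) →L[ℝ] (κ → ℝ))
  let g' : (ι → κ → ℝ) →L[ℝ] (T → ℝ) := ContinuousLinearMap.pi fun t =>
    ∑ c, (V t.1.1 c • ev t.1.2 c + V t.1.2 c • ev t.1.1 c)
  have hg : HasStrictFDerivAt g g' V :=
    hasStrictFDerivAt_pi.2 fun t => HasStrictFDerivAt.fun_sum fun c _ =>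
      (ev t.1.1 c).hasStrictFDerivAt.fun_mul (ev t.1.2 c).hasStrictFDerivAt
  have hg'a : ∀ W t, g' W t = ∑ c, (V t.1.1 c * W t.1.2 c + V t.1.2 c * W t.1.1 c) := by
    intro W t; simp [g', ev]
  let ψ : (ι → κ → ℝ) × ℝ → (T → ℝ) := fun q t => φ q t.1.1 t.1.2
  have hψ : ContDiff ℝ 1 ψ := by
    refine contDiff_pi.2 fun t => ?_
    exact (contDiff_pi.1 (contDiff_pi.1 hφ t.1.1) t.1.2)
  have hψ' : HasStrictFDerivAt ψ (fderiv ℝ ψ (V, 0)) (V, 0) :=
    hψ.contDiffAt.hasStrictFDerivAt (by norm_num)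
  have hz : ∀ W, fderiv ℝ ψ (V, 0) (W, 0) = 0 := by
    intro W
    have h1 : HasFDerivAt (fun U : ι → κ → ℝ => ψ (U, 0))
        ((fderiv ℝ ψ (V, 0)).comp (ContinuousLinearMap.inl ℝ _ _)) V :=
      HasFDerivAt.comp V (f := fun U : ι → κ → ℝ => (U, (0 : ℝ))) hψ'.hasFDerivAt
        (hasFDerivAt_prodMk_left V (0 : ℝ))
    have h2 : (fun U : ι → κ → ℝ => ψ (U, 0)) = fun _ => 0 := by
      ext U t; exact h0 U _ _ t.2.2
    rw [h2] at h1
    have h3 := h1.unique (hasFDerivAt_const _ _)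
    simpa using congr($h3 W)
  let F : (ι → κ → ℝ) × ℝ → (T → ℝ) × ℝ := fun q => (g q.1 + ψ q, q.2)
  let F' : ((ι → κ → ℝ) × ℝ) →L[ℝ] ((T → ℝ) × ℝ) :=
    (g'.comp (ContinuousLinearMap.fst ℝ _ _) + fderiv ℝ ψ (V, 0)).prod
      (ContinuousLinearMap.snd ℝ _ _)
  have hF : HasStrictFDerivAt F F' (V, 0) := by
    refine HasStrictFDerivAt.prodMk (HasStrictFDerivAt.add ?_ hψ') hasStrictFDerivAt_snd
    exact HasStrictFDerivAt.comp (V, (0 : ℝ)) (f := Prod.fst) hg hasStrictFDerivAt_fst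
  have hsurj : F'.range = ⊤ := by
    refine LinearMap.range_eq_top.2 fun ⟨y, τ⟩ => ?_
    obtain ⟨W, hW⟩ := gram_surj hV.2 (y - fderiv ℝ ψ (V, 0) (0, τ))
    refine ⟨(W, τ), Prod.ext ?_ rfl⟩
    have h1 : fderiv ℝ ψ (V, 0) (W, τ) = fderiv ℝ ψ (V, 0) (0, τ) := by
      have : ((W, τ) : (ι → κ → ℝ) × ℝ) = (W, 0) + (0, τ) := by simp
      rw [this, map_add, hz, zero_add]
    change g' W + fderiv ℝ ψ (V, 0) (W, τ) = y
    rw [h1]
    ext t
    rw [Pi.add_apply, hg'a, hW]
    simp
  have hF0 : F (V, 0) = (0, 0) := by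
    refine Prod.ext ?_ rfl
    ext t
    have h1 := hV.1 _ _ t.2.2
    have h2 := h0 V _ _ t.2.2
    change ∑ c, V t.1.1 c * V t.1.2 c + φ (V, 0) t.1.1 t.1.2 = 0
    rw [h2, add_zero]
    exact h1
  have him := image_mem_map (m := F) hN
  rw [hF.map_nhds_eq_of_surj hsurj, hF0] at him
  have ht : Tendsto (fun τ : ℝ => ((0, τ) : (T → ℝ) × ℝ)) (𝓝[≠] 0) (𝓝 (0, 0)) := by
    have : Continuous fun τ : ℝ => ((0, τ) : (T → ℝ) × ℝ) := by fun_prop
    exact (this.tendsto 0).mono_left nhdsWithin_le_nhds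
  obtain ⟨τ, ⟨q, hq, hqτ⟩, hτ⟩ := ((ht.eventually him).and self_mem_nhdsWithin).exists
  have h2 : q.2 = τ := congrArg Prod.snd hqτ
  have h1 : g q.1 + ψ q = 0 := congrArg Prod.fst hqτ
  have key : ∀ i j, i < j → H.Adj i j → q.1 i ⬝ᵥ q.1 j + φ q i j = 0 := fun i j a b =>
    congrFun h1 ⟨(i, j), a, b⟩
  refine ⟨q, hq, h2 ▸ hτ, fun i j h => ?_⟩
  rcases lt_or_gt_of_ne h.ne with a | a
  · exact key i j a h
  · rw [dotProduct_comm, hs]; exact key j i a h.symm

/-- symmetric arrays supported on the edges of `H` -/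
def suppOn (H : SimpleGraph ι) : Submodule ℝ (ι → ι → ℝ) where
  carrier := {X | (∀ i j, X i j = X j i) ∧ ∀ i j, ¬ H.Adj i j → X i j = 0}
  add_mem' := fun {Y Y'} h h' => ⟨fun i j => by simp [h.1 i j, h'.1 i j],
    fun i j h1 => by simp [h.2 i j h1, h'.2 i j h1]⟩
  zero_mem' := by simp
  smul_mem' := fun c Y h => ⟨fun i j => by simp [h.1 i j], fun i j h1 => by simp [h.2 i j h1]⟩

/-- the bilinear map `((W, M), X) ↦ (X W, (∑ j, X i j * M i j)_i)` -/
def mulM (ι κ : Type) [Fintype ι] : ((ι → κ → ℝ) × (ι → ι → ℝ)) →ₗ[ℝ] (ι → ι → ℝ) →ₗ[ℝ]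
    ((ι → κ → ℝ) × (ι → ℝ)) :=
  LinearMap.mk₂ ℝ (fun B X => (fun i c => ∑ j, X i j * B.1 j c, fun i => ∑ j, X i j * B.2 i j))
    (fun _ _ _ => by ext <;> simp [mul_add, Finset.sum_add_distrib])
    (fun _ _ _ => by ext <;> simp [Finset.mul_sum, mul_left_comm])
    (fun _ _ _ => by ext <;> simp [add_mul, Finset.sum_add_distrib])
    (fun _ _ _ => by ext <;> simp [Finset.mul_sum, mul_assoc])

/-- one rank-one tropical step (a star forest of tight edges) costs one dimension -/
theorem WRep.step {H H' : SimpleGraph ι} (e : ι → ℤ) (leaf : ι → Prop) (par : ι → ι)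
    (h1 : ∀ i j, H.Adj i j → 0 ≤ e i + e j)
    (h2 : ∀ i j, H.Adj i j → e i + e j = 0 → (leaf i ∧ j = par i) ∨ (leaf j ∧ i = par j))
    (h3 : ∀ w, leaf w → ¬ leaf (par w) ∧ e w + e (par w) = 0)
    (h4 : ∀ i j, H.Adj i j → e i + e j ≠ 0 → H'.Adj i j)
    {V : ι → κ → ℝ} (hV : WRep H' V) : ∃ W : ι → Option κ → ℝ, WRep H W := by
  classical
  let H'' : SimpleGraph ι :=
    { Adj := fun i j => H.Adj i j ∧ e i + e j ≠ 0
      symm := ⟨fun i j h => ⟨h.1.symm, by rw [add_comm]; exact h.2⟩⟩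
      loopless := ⟨fun i h => h.1.ne rfl⟩ }
  have hV' : WRep H'' V := ⟨fun i j h => hV.1 i j (h4 i j h.1 h.2),
    fun X a b c => hV.2 X a (fun i j h => b i j fun h' => h (h4 i j h'.1 h'.2)) c⟩
  let y : (ι → κ → ℝ) → ι → ℝ := fun W i => if leaf i then -∑ c, W i c * W (par i) c else 1
  let p : ι → ι → ℕ := fun i j => (e i + e j).toNat
  let φ : (ι → κ → ℝ) × ℝ → ι → ι → ℝ := fun q i j => y q.1 i * y q.1 j * q.2 ^ p i j
  have hy : ∀ i, ContDiff ℝ 1 fun q : (ι → κ → ℝ) × ℝ => y q.1 i := by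
    intro i
    by_cases h : leaf i
    · simp only [y, h, if_true]; fun_prop
    · simp only [y, h, if_false]; fun_prop
  have hφ : ContDiff ℝ 1 φ := contDiff_pi.2 fun i => contDiff_pi.2 fun j =>
    ((hy i).mul (hy j)).mul (contDiff_snd.pow _)
  let M : (ι → κ → ℝ) × ℝ → ι → ι → ℝ := fun q i j =>
    if leaf i then y q.1 j * q.2 ^ p i j else 0
  have hM : Continuous M := continuous_pi fun i => continuous_pi fun j => by
    by_cases h : leaf i
    · simp only [M, h, if_true]; exact (hy j).continuous.mul (continuous_snd.pow _)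
    · simp only [M, h, if_false]; exact continuous_const
  have hN : {q : (ι → κ → ℝ) × ℝ | ∀ X ∈ suppOn H, mulM ι κ (q.1, M q) X = 0 → X = 0} ∈
      𝓝 (V, (0 : ℝ)) := by
    refine ((isOpen_inj (mulM ι κ) (suppOn H)).preimage (continuous_fst.prodMk hM)).mem_nhds ?_
    intro X hX h0
    have a1 : ∀ i c, ∑ j, X i j * V j c = 0 := fun i c =>
      congrFun (congrFun (congrArg Prod.fst h0) i) c
    have a2 : ∀ i, ∑ j, X i j * M (V, 0) i j = 0 := fun i => congrFun (congrArg Prod.snd h0) i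
    have a3 : ∀ w, leaf w → X w (par w) = 0 := by
      intro w hw
      have := a2 w
      rw [Finset.sum_eq_single (par w) (fun j _ hj => ?_) (by simp)] at this
      · simpa [M, hw, y, (h3 w hw).1, p, (h3 w hw).2] using this
      · by_cases ha : H.Adj w j
        · have b1 := h1 w j ha
          have b2 : e w + e j ≠ 0 := fun h => (h2 w j ha h).elim (fun h => hj h.2)
            fun h => (h3 j h.1).1 (h.2 ▸ hw)
          have b3 : p w j ≠ 0 := by simp only [p]; omega
          simp [M, hw, b3]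
        · simp [hX.2 w j ha]
    refine hV'.2 X hX.1 (fun i j h => ?_) a1
    by_cases ha : H.Adj i j
    · have b : e i + e j = 0 := by_contra fun h' => h ⟨ha, h'⟩
      rcases h2 i j ha b with ⟨c1, rfl⟩ | ⟨c1, rfl⟩
      · exact a3 i c1
      · rw [hX.1]; exact a3 j c1
    · exact hX.2 i j ha
  obtain ⟨q, hq, ht, hE⟩ := repair hV' φ hφ (fun W i j h => by
      have b1 := h1 i j h.1
      have b2 := h.2
      have b3 : p i j ≠ 0 := by simp only [p]; omega
      simp [φ, b3]) (fun q i j => by simp only [φ, p, add_comm (e i), mul_comm (y q.1 i)]) hN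
  have hp : ∀ i j, H.Adj i j → q.2 ^ e i * q.2 ^ e j = q.2 ^ p i j := by
    intro i j h
    rw [← zpow_add₀ ht, ← zpow_natCast, Int.toNat_of_nonneg (h1 i j h)]
  refine ⟨fun i c => c.elim (y q.1 i * q.2 ^ e i) (q.1 i), fun i j h => ?_, fun X a b c => ?_⟩
  · have b0 : (fun c : Option κ => c.elim (y q.1 i * q.2 ^ e i) (q.1 i)) ⬝ᵥ
        (fun c : Option κ => c.elim (y q.1 j * q.2 ^ e j) (q.1 j)) =
        q.1 i ⬝ᵥ q.1 j + φ q i j := by
      simp only [dotProduct, Fintype.sum_option, Option.elim, φ, ← hp i j h]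
      ring
    rw [b0]
    by_cases b : e i + e j = 0
    · have b3 : p i j = 0 := by simp [p, b]
      rcases h2 i j h b with ⟨c1, rfl⟩ | ⟨c1, rfl⟩
      · simp [φ, b3, y, c1, (h3 i c1).1, dotProduct]
      · simp [φ, b3, y, c1, (h3 j c1).1, dotProduct, mul_comm]
    · exact hE i j ⟨h, b⟩
  · refine hq X ⟨a, b⟩ (Prod.ext ?_ ?_)
    · ext i k; exact c i (some k)
    · ext i
      change ∑ j, X i j * M q i j = 0
      by_cases hi : leaf i
      · have d := congrArg (q.2 ^ e i * ·) (c i none)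
        simp only [Option.elim, Finset.mul_sum, mul_zero] at d
        rw [← d]
        refine Finset.sum_congr rfl fun j _ => ?_
        by_cases ha : H.Adj i j
        · simp only [M, hi, if_true, ← hp i j ha]; ring
        · simp [b i j ha]
      · simp [M, hi]

/-- a weak stress-free representation of the complement gives a faithful one, at the cost of
one dimension -/
theorem WRep.exists_isNu {n : ℕ} {G : SimpleGraph (Fin n)} {V : Fin n → κ → ℝ}
    (hV : WRep Gᶜ V) : ∃ A, IsNu G A ∧ A.rank ≤ Fintype.card κ + 1 := by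
  classical
  let S : Sym2 (Fin n) → Submodule ℝ (Fin n → Fin n → ℝ) := fun e =>
    { carrier := {X | (∀ i j, X i j = X j i) ∧ (∀ i, X i i = 0) ∧
        ∀ i j, G.Adj i j → s(i, j) ≠ e → X i j = 0}
      add_mem' := fun {Y Y'} h h' => ⟨fun i j => by simp [h.1 i j, h'.1 i j],
        fun i => by simp [h.2.1 i, h'.2.1 i],
        fun i j h1 h2 => by simp [h.2.2 i j h1 h2, h'.2.2 i j h1 h2]⟩
      zero_mem' := by simp
      smul_mem' := fun c Y h => ⟨fun i j => by simp [h.1 i j], fun i => by simp [h.2.1 i],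
        fun i j h1 h2 => by simp [h.2.2 i j h1 h2]⟩ }
  obtain ⟨w, hw⟩ := exists_generic (fun _ : Sym2 (Fin n) => mulR (Fin n) (Fin n) Unit)
    (fun e => S e ⊓ LinearMap.ker (mulR (Fin n) (Fin n) κ V)) (fun e => by
      induction e using Sym2.ind with
      | _ a b =>
        refine ⟨fun j _ => if j = a then 1 else 0, fun X hX h0 => ?_⟩
        have c1 : ∀ i, X i a = 0 := fun i => by simpa using congrFun (congrFun h0 i) ()
        refine hV.2 X hX.1.1 (fun i j h => ?_) fun i c => congrFun (congrFun hX.2 i) c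
        by_cases hij : i = j
        · subst hij; exact hX.1.2.1 i
        · have hG : G.Adj i j := by_contra fun h' => h ⟨hij, h'⟩
          by_cases he : s(i, j) = s(a, b)
          · rcases Sym2.eq_iff.1 he with ⟨rfl, rfl⟩ | ⟨rfl, rfl⟩
            · rw [hX.1.1]; exact c1 _
            · exact c1 _
          · exact hX.1.2.2 i j hG he)
  let ext : (Fin n → κ → ℝ) → ℝ → Fin n → Option κ → ℝ := fun W t i c =>
    c.elim (t * w i ()) (W i)
  have hc : Continuous fun q : (Fin n → κ → ℝ) × ℝ => ext q.1 1 :=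
    continuous_pi fun i => continuous_pi fun c => by
      cases c with
      | none => exact continuous_const
      | some c => simp only [ext, Option.elim]; fun_prop
  have hN : {q : (Fin n → κ → ℝ) × ℝ | Rigid G (ext q.1 1)} ∈ 𝓝 (V, (0 : ℝ)) := by
    refine ((isOpen_rigid G).preimage hc).mem_nhds ?_
    intro e X a b c d
    refine hw e X ⟨⟨a, b, c⟩, ?_⟩ ?_
    · ext i k; exact d i (some k)
    · ext i k; simpa [ext] using d i none
  obtain ⟨q, hq, ht, hE⟩ := repair hV (fun q i j => (q.2 * w i ()) * (q.2 * w j ()))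
    (by fun_prop) (fun W i j _ => by simp) (fun q i j => mul_comm _ _) hN
  have hO : Orth G (ext q.1 q.2) := by
    intro i j a b
    have := hE i j ⟨a, b⟩
    simp only [dotProduct, Fintype.sum_option, ext, Option.elim] at this ⊢
    linarith
  have hR : Rigid G (ext q.1 q.2) := by
    intro e X a b c d
    refine hq e X a b c fun i k => ?_
    cases k with
    | none =>
      have d1 := d i none
      simp only [ext, Option.elim] at d1 ⊢
      have d2 : q.2 * ∑ j, X i j * (1 * w j ()) = 0 := by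
        rw [← d1, Finset.mul_sum]
        exact Finset.sum_congr rfl fun j _ => by ring
      exact (mul_eq_zero.1 d2).resolve_left ht
    | some k => exact d i (some k)
  obtain ⟨A, hA, hr⟩ := Pool.Agent.MP_875478_co.exists_isNu hO hR
  exact ⟨A, hA, by simpa using hr⟩

end Pool.Agent.MP_875478_co
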