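import Pool.Agent.MP_875478_co.Generic

set_option autoImplicit false
open Set Topology Filter Matrix

namespace Pool.Agent.MP_875478_co

variable {ι κ : Type} [Fintype ι] [Fintype κ]

/-- transversality with respect to the non-edges and any one further pair -/
def Rigid (G : SimpleGraph ι) (V : ι → κ → ℝ) : Prop :=
  ∀ e : Sym2 ι, ∀ X : ι → ι → ℝ, (∀ i j, X i j = X j i) → (∀ i, X i i = 0) →
    (∀ i j, G.Adj i j → s(i, j) ≠ e → X i j = 0) → (∀ i c, ∑ j, X i j * V j c = 0) → X = 0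

/-- orthogonal representation (not necessarily faithful) -/
def Orth (G : SimpleGraph ι) (V : ι → κ → ℝ) : Prop :=
  ∀ i j, i ≠ j → ¬ G.Adj i j → V i ⬝ᵥ V j = 0

lemma isOpen_rigid (G : SimpleGraph ι) : IsOpen {V : ι → κ → ℝ | Rigid G V} := by
  let W : Sym2 ι → Submodule ℝ (ι → ι → ℝ) := fun e =>
    { carrier := {X | (∀ i j, X i j = X j i) ∧ (∀ i, X i i = 0) ∧
        ∀ i j, G.Adj i j → s(i, j) ≠ e → X i j = 0}
      add_mem' := fun {Y Y'} h h' => ⟨fun i j => by simp [h.1 i j, h'.1 i j],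
        fun i => by simp [h.2.1 i, h'.2.1 i],
        fun i j h1 h2 => by simp [h.2.2 i j h1 h2, h'.2.2 i j h1 h2]⟩
      zero_mem' := by simp
      smul_mem' := fun c Y h => ⟨fun i j => by simp [h.1 i j], fun i => by simp [h.2.1 i],
        fun i j h1 h2 => by simp [h.2.2 i j h1 h2]⟩ }
  have h := isOpen_iInter_of_finite fun e => isOpen_inj (mulR ι ι κ) (W e)
  have he : {V : ι → κ → ℝ | Rigid G V} =
      ⋂ e, {x | ∀ u ∈ W e, mulR ι ι κ x u = 0 → u = 0} := ?_
  · rwa [he]
  refine Set.ext fun V => ?_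
  simp only [mem_ofPred_eq, mem_iInter]
  refine forall_congr' fun e => forall_congr' fun X => ?_
  constructor
  · intro h hX h0
    exact h hX.1 hX.2.1 hX.2.2 fun i c => congrFun (congrFun h0 i) c
  · intro h h1 h2 h3 h4
    exact h ⟨h1, h2, h3⟩ (by ext i c; exact h4 i c)

lemma perturb_step [LinearOrder ι] {G : SimpleGraph ι} {V : ι → κ → ℝ} (hO : Orth G V)
    (hR : Rigid G V) {i₀ j₀ : ι} (hlt : i₀ < j₀) (hadj : G.Adj i₀ j₀) :
    ∃ W : ι → κ → ℝ, Orth G W ∧ Rigid G W ∧ W i₀ ⬝ᵥ W j₀ ≠ 0 ∧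
      ∀ i j, V i ⬝ᵥ V j ≠ 0 → W i ⬝ᵥ W j ≠ 0 := by
  classical
  by_cases h0 : V i₀ ⬝ᵥ V j₀ ≠ 0
  · exact ⟨V, hO, hR, h0, fun _ _ h => h⟩
  push Not at h0
  let P : ι × ι → Prop := fun q => q.1 < q.2 ∧ (¬ G.Adj q.1 q.2 ∨ q = (i₀, j₀))
  let f : (ι → κ → ℝ) → ({q // P q} → ℝ) := fun W t => ∑ c, W t.1.1 c * W t.1.2 c
  let ev : ι → κ → (ι → κ → ℝ) →L[ℝ] ℝ := fun i c =>
    (ContinuousLinearMap.proj c : (κ → ℝ) →L[ℝ] ℝ).comp
      (ContinuousLinearMap.proj i : (ι → κ → ℝ) →L[ℝ] (κ → ℝ))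
  let f' : (ι → κ → ℝ) →L[ℝ] ({q // P q} → ℝ) := ContinuousLinearMap.pi fun t =>
    ∑ c, (V t.1.1 c • ev t.1.2 c + V t.1.2 c • ev t.1.1 c)
  have hf : HasStrictFDerivAt f f' V :=
    hasStrictFDerivAt_pi.2 fun t => HasStrictFDerivAt.fun_sum fun c _ =>
      (ev t.1.1 c).hasStrictFDerivAt.fun_mul (ev t.1.2 c).hasStrictFDerivAt
  have hf'a : ∀ W t, f' W t = ∑ c, (V t.1.1 c * W t.1.2 c + V t.1.2 c * W t.1.1 c) := by
    intro W t; simp [f', ev]
  have hsurj : f'.range = ⊤ := by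
    by_contra hne
    obtain ⟨φ, hφ, hk⟩ := Submodule.exists_le_ker_of_lt_top _ (lt_top_iff_ne_top.2 hne)
    let c : {q // P q} → ℝ := fun t => φ fun j => if t = j then 1 else 0
    let c' : ι × ι → ℝ := fun q => if h : P q then c ⟨q, h⟩ else 0
    have hc' : ∀ g : ι × ι → ℝ, ∑ t : {q // P q}, g t.1 * c t = ∑ q, g q * c' q := by
      intro g
      rw [← Finset.sum_subset (Finset.subset_univ (Finset.univ.filter P))
        (fun q _ hq => by simp only [Finset.mem_filter, Finset.mem_univ, true_and] at hq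
                          simp [c', hq]),
        Finset.sum_subtype (Finset.univ.filter P) (p := P) (by simp)]
      exact Finset.sum_congr rfl fun t _ => by simp [c', t.2]
    let X : ι → ι → ℝ := fun i j => c' (i, j) + c' (j, i)
    have hX : X = 0 := by
      refine hR s(i₀, j₀) X (fun i j => add_comm _ _) (fun i => by simp [X, c', P])
        (fun i j h1 h2 => ?_) ?_
      · have a1 : ¬ P (i, j) := fun h => h.2.elim (fun h => h h1) fun h => h2 (by
          rw [Prod.mk.injEq] at h; rw [h.1, h.2])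
        have a2 : ¬ P (j, i) := fun h => h.2.elim (fun h => h h1.symm) fun h => h2 (by
          rw [Prod.mk.injEq] at h; rw [h.1, h.2, Sym2.eq_swap])
        simp [X, c', a1, a2]
      · intro i k
        have h1 : φ (f' (Pi.single i (Pi.single k 1))) = 0 := hk ⟨_, rfl⟩
        rw [LinearMap.pi_apply_eq_sum_univ] at h1
        simp only [smul_eq_mul, hf'a] at h1
        have h2 := (hc' fun q => ∑ c, (V q.1 c * (Pi.single i (Pi.single k 1) : ι → κ → ℝ) q.2 c +
          V q.2 c * (Pi.single i (Pi.single k 1) : ι → κ → ℝ) q.1 c)).symm.trans h1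
        have h3 : ∀ a b, ∑ c, V a c * (Pi.single i (Pi.single k 1) : ι → κ → ℝ) b c =
            if b = i then V a k else 0 := by
          intro a b
          by_cases hb : b = i
          · subst hb; simp [Pi.single_apply]
          · simp [hb]
        simp only [Finset.sum_add_distrib, h3, add_mul, Fintype.sum_prod_type, ite_mul,
          zero_mul, Finset.sum_ite_eq', Finset.mem_univ, if_true] at h2
        rw [Finset.sum_comm] at h2
        simp only [Finset.sum_ite_eq', Finset.mem_univ, if_true] at h2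
        simp only [X, add_mul, Finset.sum_add_distrib]
        rw [← h2, add_comm]
        simp only [mul_comm]
    refine hφ (LinearMap.ext fun y => ?_)
    rw [LinearMap.pi_apply_eq_sum_univ]
    refine Finset.sum_eq_zero fun t _ => ?_
    have h1 := congrFun (congrFun hX t.1.1) t.1.2
    have h2 : ¬ P (t.1.2, t.1.1) := fun h => absurd h.1 (not_lt.2 t.2.1.le)
    simp only [X, c', h2, t.2, dif_pos, dif_neg, not_false_eq_true, add_zero, Pi.zero_apply] at h1
    change y t • c t = 0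
    rw [h1, smul_zero]
  have hN : {W : ι → κ → ℝ | Rigid G W ∧ ∀ i j, V i ⬝ᵥ V j ≠ 0 → W i ⬝ᵥ W j ≠ 0} ∈ 𝓝 V := by
    refine inter_mem ((isOpen_rigid G).mem_nhds hR) ?_
    refine eventually_all.2 fun i => eventually_all.2 fun j => ?_
    by_cases h : V i ⬝ᵥ V j = 0
    · exact Eventually.of_forall fun _ h' => absurd h h'
    · have hc : Continuous fun W : ι → κ → ℝ => W i ⬝ᵥ W j := by unfold dotProduct; fun_prop
      exact (hc.continuousAt.eventually_ne h).mono fun _ h _ => h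
  have hfV : f V = 0 := by
    ext ⟨⟨i, j⟩, h1, h2⟩
    rcases h2 with h2 | h2
    · exact hO i j h1.ne h2
    · rw [Prod.mk.injEq] at h2
      obtain ⟨rfl, rfl⟩ := h2
      exact h0
  have him := image_mem_map (m := f) hN
  rw [hf.map_nhds_eq_of_surj hsurj, hfV] at him
  let t₀ : {q // P q} := ⟨(i₀, j₀), hlt, Or.inr rfl⟩
  have ht : Tendsto (fun τ : ℝ => (Pi.single t₀ τ : {q // P q} → ℝ)) (𝓝[≠] 0) (𝓝 0) := by
    have : Continuous fun τ : ℝ => (Pi.single t₀ τ : {q // P q} → ℝ) :=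
      continuous_single (A := fun _ => ℝ) t₀
    simpa using (this.tendsto 0).mono_left nhdsWithin_le_nhds
  obtain ⟨τ, ⟨W, hW, hWτ⟩, hτ⟩ := ((ht.eventually him).and self_mem_nhdsWithin).exists
  have key : ∀ i j, i < j → ¬ G.Adj i j → W i ⬝ᵥ W j = 0 := by
    intro i j h1 h2
    have := congrFun hWτ ⟨(i, j), h1, Or.inl h2⟩
    rw [Pi.single_eq_of_ne (fun h => h2 (by
      have h3 := congrArg Subtype.val h
      rw [Prod.mk.injEq] at h3
      rw [h3.1, h3.2]; exact hadj))] at this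
    exact this
  refine ⟨W, fun i j h1 h2 => ?_, hW.1, ?_, hW.2⟩
  · rcases lt_or_gt_of_ne h1 with h | h
    · exact key i j h h2
    · rw [dotProduct_comm]; exact key j i h fun h3 => h2 h3.symm
  · have := congrFun hWτ t₀
    rw [Pi.single_eq_same] at this
    exact fun h => hτ (this.symm.trans h)

lemma perturb [LinearOrder ι] {G : SimpleGraph ι} {V : ι → κ → ℝ} (hO : Orth G V)
    (hR : Rigid G V) : ∃ W : ι → κ → ℝ, Orth G W ∧ Rigid G W ∧
      ∀ i j, G.Adj i j → W i ⬝ᵥ W j ≠ 0 := by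
  classical
  have key : ∀ F : Finset (ι × ι), ∃ W : ι → κ → ℝ, Orth G W ∧ Rigid G W ∧
      ∀ q ∈ F, q.1 < q.2 → G.Adj q.1 q.2 → W q.1 ⬝ᵥ W q.2 ≠ 0 := by
    intro F
    induction F using Finset.induction_on with
    | empty => exact ⟨V, hO, hR, by simp⟩
    | insert q F _ ih =>
      obtain ⟨W, h1, h2, h3⟩ := ih
      by_cases hq : q.1 < q.2 ∧ G.Adj q.1 q.2
      · obtain ⟨W', a1, a2, a3, a4⟩ := perturb_step h1 h2 hq.1 hq.2
        refine ⟨W', a1, a2, fun q' hq' b1 b2 => ?_⟩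
        rcases Finset.mem_insert.1 hq' with rfl | h
        · exact a3
        · exact a4 _ _ (h3 q' h b1 b2)
      · refine ⟨W, h1, h2, fun q' hq' b1 b2 => ?_⟩
        rcases Finset.mem_insert.1 hq' with rfl | h
        · exact absurd ⟨b1, b2⟩ hq
        · exact h3 q' h b1 b2
  obtain ⟨W, h1, h2, h3⟩ := key Finset.univ
  refine ⟨W, h1, h2, fun i j h => ?_⟩
  rcases lt_or_gt_of_ne h.ne with hl | hl
  · exact h3 (i, j) (Finset.mem_univ _) hl h
  · rw [dotProduct_comm]; exact h3 (j, i) (Finset.mem_univ _) hl h.symm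

/-- `A` is positive semidefinite, has the pattern of `G` off the diagonal and has the strong
Arnold property -/
def IsNu {n : ℕ} (G : SimpleGraph (Fin n)) (A : Matrix (Fin n) (Fin n) ℝ) : Prop :=
  A.PosSemidef ∧ (∀ i j, i ≠ j → (A i j ≠ 0 ↔ G.Adj i j)) ∧
    ∀ X : Matrix (Fin n) (Fin n) ℝ, X.transpose = X → (∀ i, X i i = 0) →
      (∀ i j, A i j * X i j = 0) → A * X = 0 → X = 0

theorem exists_isNu {n : ℕ} {G : SimpleGraph (Fin n)} {V : Fin n → κ → ℝ} (hO : Orth G V)
    (hR : Rigid G V) : ∃ A, IsNu G A ∧ A.rank ≤ Fintype.card κ := by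
  classical
  obtain ⟨W, h1, h2, h3⟩ := perturb hO hR
  have ha : ∀ i j, (Matrix.of W * (Matrix.of W)ᴴ) i j = W i ⬝ᵥ W j := fun i j => by
    simp [Matrix.mul_apply, dotProduct]
  refine ⟨Matrix.of W * (Matrix.of W)ᴴ, ⟨Matrix.posSemidef_self_mul_conjTranspose _,
    fun i j hij => ?_, fun X a1 a2 a3 a4 => ?_⟩,
    (Matrix.rank_mul_le_left _ _).trans (Matrix.rank_le_card_width _)⟩
  · rw [ha]
    exact ⟨fun h => by_contra fun h' => h (h1 i j hij h'), h3 i j⟩
  · have hs : ∀ i j, X i j = X j i := fun i j => (congrFun (congrFun a1 i) j).symm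
    rw [Matrix.self_mul_conjTranspose_mul_eq_zero] at a4
    ext i j
    refine congrFun (congrFun (h2 s(i, i) X hs a2 (fun a b h _ => ?_) fun a c => ?_) i) j
    · have := a3 a b
      rw [ha] at this
      exact (mul_eq_zero.1 this).resolve_left (h3 a b h)
    · have := congrFun (congrFun a4 c) a
      simp only [Matrix.mul_apply, Matrix.conjTranspose_apply, Matrix.of_apply, star_trivial,
        Matrix.zero_apply] at this
      rw [← this]
      exact Finset.sum_congr rfl fun b _ => by rw [hs a b, mul_comm]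

end Pool.Agent.MP_875478_co
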