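import Mathlib

set_option autoImplicit false
set_option linter.unusedSectionVars false
open Finset

namespace Pool.Agent.MP_875478_co

variable {ι κ α β : Type} [Fintype ι] [DecidableEq ι] [Fintype κ] [DecidableEq κ]
  [Fintype α] [Fintype β]

/-- expectation for independent identically distributed coordinates -/
def Ex (w : α → ℝ) (f : (ι → α) → ℝ) : ℝ := ∑ ω, (∏ i, w (ω i)) * f ω

/-- probability vector -/
def IsP (w : α → ℝ) : Prop := (∀ a, 0 ≤ w a) ∧ ∑ a, w a = 1

open Classical in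
/-- indicator -/
noncomputable def ind (P : Prop) : ℝ := if P then 1 else 0

lemma ind_nonneg (P : Prop) : 0 ≤ ind P := by unfold ind; split_ifs <;> norm_num
lemma ind_le_one (P : Prop) : ind P ≤ 1 := by unfold ind; split_ifs <;> norm_num
lemma ind_pos {P : Prop} (h : P) : ind P = 1 := if_pos h
lemma ind_neg {P : Prop} (h : ¬ P) : ind P = 0 := if_neg h
lemma ind_and (P Q : Prop) : ind (P ∧ Q) = ind P * ind Q := by
  by_cases h : P <;> by_cases h' : Q <;> simp [ind, h, h']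
lemma ind_not (P : Prop) : ind (¬ P) = 1 - ind P := by by_cases h : P <;> simp [ind, h]
lemma ind_forall (P : ι → Prop) : ind (∀ i, P i) = ∏ i, ind (P i) := by
  by_cases h : ∀ i, P i
  · rw [ind_pos h, prod_eq_one fun i _ => ind_pos (h i)]
  · rw [ind_neg h]
    push Not at h
    obtain ⟨i, hi⟩ := h
    exact (prod_eq_zero (mem_univ i) (ind_neg hi)).symm
lemma ind_le {P : Prop} {x : ℝ} (h0 : 0 ≤ x) (h : P → 1 ≤ x) : ind P ≤ x := by
  by_cases hP : P
  · rw [ind_pos hP]; exact h hP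
  · rw [ind_neg hP]; exact h0
lemma sum_ind (P : ι → Prop) [DecidablePred P] : ∑ i, ind (P i) = (univ.filter P).card := by
  rw [card_filter]; push_cast
  exact sum_congr rfl fun i _ => by by_cases h : P i <;> simp [ind, h]

variable {w : α → ℝ}

lemma Ex_prod (f : ι → α → ℝ) :
    Ex w (fun ω => ∏ i, f i (ω i)) = ∏ i, ∑ a, w a * f i a := by
  rw [prod_univ_sum, Fintype.piFinset_univ, Ex]
  exact sum_congr rfl fun ω _ => prod_mul_distrib.symm

lemma Ex_const (hw : IsP w) (c : ℝ) : Ex w (fun _ : ι → α => c) = c := by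
  have := Ex_prod (ι := ι) (w := w) fun _ _ => 1
  simp only [prod_const_one, mul_one, hw.2, Ex] at this
  rw [Ex, ← sum_mul, this, one_mul]

lemma Ex_mono (hw : IsP w) {f g : (ι → α) → ℝ} (h : ∀ ω, f ω ≤ g ω) : Ex w f ≤ Ex w g :=
  sum_le_sum fun ω _ => mul_le_mul_of_nonneg_left (h ω) (prod_nonneg fun _ _ => hw.1 _)

lemma Ex_add (f g : (ι → α) → ℝ) : Ex w (fun ω => f ω + g ω) = Ex w f + Ex w g := by
  simp [Ex, mul_add, sum_add_distrib]

lemma Ex_sub (f g : (ι → α) → ℝ) : Ex w (fun ω => f ω - g ω) = Ex w f - Ex w g := by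
  simp [Ex, mul_sub, sum_sub_distrib]

lemma Ex_sum {J : Type} (s : Finset J) (f : J → (ι → α) → ℝ) :
    Ex w (fun ω => ∑ j ∈ s, f j ω) = ∑ j ∈ s, Ex w (f j) := by
  simp only [Ex, mul_sum]; exact sum_comm

lemma Ex_mul (c : ℝ) (f : (ι → α) → ℝ) : Ex w (fun ω => c * f ω) = c * Ex w f := by
  simp only [Ex, mul_sum]; exact sum_congr rfl fun _ _ => mul_left_comm _ _ _

lemma Ex_nonneg (hw : IsP w) {f : (ι → α) → ℝ} (h : ∀ ω, 0 ≤ f ω) : 0 ≤ Ex w f :=
  (Ex_const hw 0).symm.le.trans (Ex_mono hw h)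

lemma Ex_union (hw : IsP w) {J : Type} (s : Finset J) {P : (ι → α) → Prop}
    {Q : J → (ι → α) → Prop} (h : ∀ ω, P ω → ∃ j ∈ s, Q j ω) {b : ℝ}
    (hb : ∀ j ∈ s, Ex w (fun ω => ind (Q j ω)) ≤ b) : Ex w (fun ω => ind (P ω)) ≤ s.card * b := by
  refine (Ex_mono hw (g := fun ω => ∑ j ∈ s, ind (Q j ω)) fun ω => ?_).trans ?_
  · refine ind_le (sum_nonneg fun _ _ => ind_nonneg _) fun hP => ?_
    obtain ⟨j, hj, hQ⟩ := h ω hP
    exact (ind_pos hQ).ge.trans (single_le_sum (f := fun j => ind (Q j ω))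
      (fun _ _ => ind_nonneg _) hj)
  · rw [Ex_sum]; simpa using sum_le_card_nsmul _ _ _ hb

lemma eq_sum_ind (F : (ι → α) → ℝ) (ω : ι → α) : F ω = ∑ τ, F τ * ∏ i, ind (ω i = τ i) := by
  simp only [← ind_forall]
  rw [sum_eq_single ω (fun τ _ h => by rw [ind_neg fun h' => h (funext h').symm, mul_zero])
    (by simp), ind_pos fun _ => rfl, mul_one]

lemma sum_mul_ind (w : α → ℝ) (b : α) : ∑ a, w a * ind (a = b) = w b := by
  rw [sum_eq_single b (fun a _ h => by rw [ind_neg h, mul_zero]) (by simp), ind_pos rfl, mul_one]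

lemma Ex_comp (hw : IsP w) {φ : κ → ι} (hφ : Function.Injective φ) (F : (κ → α) → ℝ) :
    Ex w (fun ω => F fun k => ω (φ k)) = Ex w F := by
  have h1 : ∀ τ : κ → α, Ex w (fun ω : ι → α => ∏ k, ind (ω (φ k) = τ k)) = ∏ k, w (τ k) := by
    intro τ
    have h2 : ∀ ω : ι → α, ∏ k, ind (ω (φ k) = τ k) =
        ∏ i, ind (∀ k, φ k = i → ω i = τ k) := by
      intro ω
      rw [← ind_forall, ← ind_forall]
      congr 1
      exact propext ⟨fun h i k hk => hk ▸ h k, fun h k => h _ k rfl⟩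
    simp only [h2]
    rw [Ex_prod fun i a => ind (∀ k, φ k = i → a = τ k)]
    refine (Fintype.prod_of_injective φ hφ _ _ (fun i hi => ?_) fun k => ?_).symm
    · rw [← hw.2]
      exact sum_congr rfl fun a _ => by rw [ind_pos fun k hk => absurd ⟨k, hk⟩ hi, mul_one]
    · rw [← sum_mul_ind w (τ k)]
      refine sum_congr rfl fun a _ => ?_
      congr 2
      exact propext ⟨fun h k' hk => hφ hk ▸ h, fun h => h k rfl⟩
  have h3 : (fun ω : ι → α => F fun k => ω (φ k)) =
      fun ω => ∑ τ, F τ * ∏ k, ind (ω (φ k) = τ k) := funext fun ω => eq_sum_ind F _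
  rw [h3, Ex_sum]
  simp only [Ex_mul, h1]
  exact sum_congr rfl fun _ _ => mul_comm _ _

lemma Ex_map (g : α → β) (F : (ι → β) → ℝ) :
    Ex w (fun ω => F fun i => g (ω i)) = Ex (fun b => ∑ a, w a * ind (g a = b)) F := by
  have h3 : (fun ω : ι → α => F fun i => g (ω i)) =
      fun ω => ∑ τ, F τ * ∏ i, ind (g (ω i) = τ i) := funext fun ω => eq_sum_ind F _
  rw [h3, Ex_sum]
  simp only [Ex_mul]
  refine sum_congr rfl fun τ _ => ?_
  rw [Ex_prod fun i a => ind (g a = τ i), mul_comm]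

lemma Ex_curry (F : (ι → κ → α) → ℝ) :
    Ex w (fun ω : ι × κ → α => F fun c u => ω (c, u)) =
      Ex (fun τ : κ → α => ∏ u, w (τ u)) F := by
  refine Fintype.sum_equiv (Equiv.curry ι κ α) _ _ fun ω => ?_
  rw [Fintype.prod_prod_type]; rfl

lemma Ex_pair (w' : β → ℝ) (F : (ι → α) → (ι → β) → ℝ) :
    Ex (fun a : α × β => w a.1 * w' a.2) (fun ω => F (fun i => (ω i).1) fun i => (ω i).2) =
      Ex w fun ω₁ => Ex w' fun ω₂ => F ω₁ ω₂ := by
  simp only [Ex, mul_sum]
  rw [← Fintype.sum_prod_type']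
  refine Fintype.sum_equiv (Equiv.arrowProdEquivProdArrow ι (fun _ => α) fun _ => β) _ _
    fun ω => ?_
  rw [prod_mul_distrib, mul_assoc]; rfl

lemma IsP.pi (hw : IsP w) : IsP fun τ : κ → α => ∏ u, w (τ u) :=
  ⟨fun _ => prod_nonneg fun _ _ => hw.1 _, by simpa [Ex] using Ex_const (ι := κ) hw 1⟩

lemma IsP.pair {w' : β → ℝ} (hw : IsP w) (hw' : IsP w') :
    IsP fun a : α × β => w a.1 * w' a.2 :=
  ⟨fun _ => mul_nonneg (hw.1 _) (hw'.1 _), by
    rw [Fintype.sum_prod_type]; simp only [← mul_sum, hw'.2, mul_one, hw.2]⟩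

lemma chernoff (hw : IsP w) (Y : ι → α → Prop) (D : Finset ι) {ε : ℝ} (hε : 0 ≤ ε) :
    Ex w (fun ω => ind (∑ c ∈ D, ind (Y c (ω c)) ≤ ∑ c ∈ D, (∑ a, w a * ind (Y c a) - ε))) ≤
      Real.exp (-(ε ^ 2 / 4 * D.card)) := by
  set π : ι → ℝ := fun c => ∑ a, w a * ind (Y c a) with hπ
  have hπ1 : ∀ c, π c ≤ 1 := fun c =>
    (sum_le_sum fun a _ => mul_le_of_le_one_right (hw.1 a) (ind_le_one _)).trans hw.2.le
  set l := ε / 2 with hl
  have hl0 : 0 ≤ l := by positivity
  let f : ι → α → ℝ := fun c a => if c ∈ D then Real.exp (l * (π c - ε - ind (Y c a))) else 1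
  refine (Ex_mono hw (g := fun ω => ∏ c, f c (ω c)) fun ω => ?_).trans ?_
  · have : ∏ c, f c (ω c) = Real.exp (l * (∑ c ∈ D, (π c - ε) - ∑ c ∈ D, ind (Y c (ω c)))) := by
      rw [← sum_sub_distrib, mul_sum, Real.exp_sum, prod_ite_mem, univ_inter]
    rw [this]
    exact ind_le (Real.exp_pos _).le fun h => Real.one_le_exp (mul_nonneg hl0 (sub_nonneg.2 h))
  · rw [Ex_prod]
    have h1 : Real.exp (-l) ≤ 1 - (l - l ^ 2) := by
      rw [Real.exp_neg, inv_le_iff_one_le_mul₀ (Real.exp_pos _)]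
      nlinarith [Real.add_one_le_exp l, mul_nonneg hl0 (mul_nonneg hl0 hl0),
        mul_le_mul_of_nonneg_left (Real.add_one_le_exp l) (show 0 ≤ 1 - (l - l ^ 2) by nlinarith)]
    have h2 : ∀ c, ∑ a, w a * f c a ≤ if c ∈ D then Real.exp (-(ε ^ 2 / 4)) else 1 := by
      intro c
      by_cases hc : c ∈ D
      · simp only [f, hc, if_true]
        have h3 : ∀ a, Real.exp (l * (π c - ε - ind (Y c a))) ≤
            Real.exp (l * (π c - ε)) * (1 - (l - l ^ 2) * ind (Y c a)) := by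
          intro a
          rw [mul_sub l _ (ind _), sub_eq_add_neg, Real.exp_add]
          refine mul_le_mul_of_nonneg_left ?_ (Real.exp_pos _).le
          by_cases h : Y c a
          · simpa [ind_pos h] using h1
          · simp [ind_neg h]
        refine (sum_le_sum fun a _ => mul_le_mul_of_nonneg_left (h3 a) (hw.1 a)).trans ?_
        have h4 : ∑ a, w a * (Real.exp (l * (π c - ε)) * (1 - (l - l ^ 2) * ind (Y c a))) =
            Real.exp (l * (π c - ε)) * (-((l - l ^ 2) * π c) + 1) := by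
          rw [← hw.2, hπ]
          simp only [mul_sum, ← sum_neg_distrib, ← sum_add_distrib]
          refine sum_congr rfl fun a _ => ?_
          rw [hw.2]; ring
        rw [h4]
        refine (mul_le_mul_of_nonneg_left (Real.add_one_le_exp _) (Real.exp_pos _).le).trans ?_
        rw [← Real.exp_add]
        refine Real.exp_le_exp.2 ?_
        nlinarith [mul_le_of_le_one_right (sq_nonneg l) (hπ1 c)]
      · simp [f, hc, hw.2]
    refine (prod_le_prod (fun c _ => sum_nonneg fun a _ => mul_nonneg (hw.1 a) ?_)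
      fun c _ => h2 c).trans (le_of_eq ?_)
    · simp only [f]; split_ifs <;> positivity
    · rw [prod_ite_mem, univ_inter, prod_const, ← Real.exp_nat_mul]
      congr 1; ring

end Pool.Agent.MP_875478_co
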