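import Pool.Agent.MP_875478_co.Prob
import Pool.Agent.MP_875478_co.Assemble

set_option autoImplicit false
set_option linter.unusedSectionVars false
open Finset

namespace Pool.Agent.MP_875478_co

/-- Bernoulli weights -/
def bern (p : ℝ) : Bool → ℝ := fun b => if b then p else 1 - p

lemma isP_bern {p : ℝ} (h0 : 0 ≤ p) (h1 : p ≤ 1) : IsP (bern p) :=
  ⟨fun b => by cases b <;> simp [bern, h0, h1], by simp [bern]⟩

/-- weights of a pair of independent Bernoulli variables -/
def bern2 (q : ℝ) : Bool × Bool → ℝ := fun a => bern q a.1 * bern q a.2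

lemma isP_bern2 {q : ℝ} (h0 : 0 ≤ q) (h1 : q ≤ 1) : IsP (bern2 q) :=
  (isP_bern h0 h1).pair (isP_bern h0 h1)

/-- the graph of a configuration -/
def gr {V : Type} (ω : Sym2 V → Bool) : SimpleGraph V := SimpleGraph.fromEdgeSet {e | ω e = true}

lemma gr_adj {V : Type} {ω : Sym2 V → Bool} {i j : V} :
    (gr ω).Adj i j ↔ ω s(i, j) = true ∧ i ≠ j := by simp [gr]

lemma Ex_single {ι α : Type} [Fintype ι] [DecidableEq ι] [Fintype α] {w : α → ℝ} (hw : IsP w)
    (i : ι) (f : α → ℝ) : Ex w (fun ω : ι → α => f (ω i)) = ∑ a, w a * f a := by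
  have := Ex_prod (w := w) fun (j : ι) a => if j = i then f a else 1
  simp only [prod_ite_eq', mem_univ, if_true] at this
  rw [this, prod_eq_single i (fun j _ hj => by simp [hj, hw.2]) (by simp)]
  simp

lemma inj_pairs {A B V : Type} {u : A → V} {v : B → V} (hu : Function.Injective u)
    (hv : Function.Injective v) (huv : ∀ a b, u a ≠ v b) :
    Function.Injective fun c : A × B => s(u c.1, v c.2) := by
  rintro ⟨a, b⟩ ⟨a', b'⟩ h
  rcases Sym2.eq_iff.1 h with h | h
  · exact Prod.ext (hu h.1) (hv h.2)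
  · exact absurd h.1 (huv _ _)

lemma hole_bound {η : ℝ} (h0 : 0 ≤ η) (h1 : η ≤ 1) (n a : ℕ) :
    Ex (bern η) (fun ω : Sym2 (Fin n) → Bool => ind (¬ NoHole (gr ω) a)) ≤
      (n : ℝ) ^ (2 * a) * (1 - η) ^ (a * a) := by
  classical
  refine (Ex_union (isP_bern h0 h1) (univ.filter fun x : (Fin a → Fin n) × (Fin a → Fin n) =>
    Function.Injective fun c : Fin a × Fin a => s(x.1 c.1, x.2 c.2))
    (Q := fun x ω => ∀ c : Fin a × Fin a, ω s(x.1 c.1, x.2 c.2) = false) (fun ω h => ?_)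
    (b := (1 - η) ^ (a * a)) fun x hx => ?_).trans ?_
  · unfold NoHole at h
    push Not at h
    obtain ⟨S, T, hd, hS, hT, h⟩ := h
    have hne : ∀ i j, S.orderEmbOfFin hS i ≠ T.orderEmbOfFin hT j := fun i j he =>
      disjoint_left.1 hd (S.orderEmbOfFin_mem hS i) (he ▸ T.orderEmbOfFin_mem hT j)
    refine ⟨(S.orderEmbOfFin hS, T.orderEmbOfFin hT), mem_filter.2 ⟨mem_univ _,
      inj_pairs (S.orderEmbOfFin hS).injective (T.orderEmbOfFin hT).injective hne⟩, fun c => ?_⟩
    have := h _ (S.orderEmbOfFin_mem hS c.1) _ (T.orderEmbOfFin_mem hT c.2)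
    rw [gr_adj] at this
    simpa [hne] using this
  · rw [Ex_comp (isP_bern h0 h1) (mem_filter.1 hx).2 fun τ => ind (∀ c, τ c = false)]
    simp only [ind_forall]
    rw [Ex_prod fun _ b => ind (b = false)]
    simp only [sum_mul_ind]
    simp [bern]
  · refine mul_le_mul_of_nonneg_right ?_ (pow_nonneg (by linarith) _)
    have := card_filter_le (univ : Finset ((Fin a → Fin n) × (Fin a → Fin n))) fun x =>
      Function.Injective fun c : Fin a × Fin a => s(x.1 c.1, x.2 c.2)
    simp only [card_univ, Fintype.card_prod, Fintype.card_pi, prod_const, Fintype.card_fin] at this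
    rw [two_mul, pow_add]
    exact_mod_cast this

section cells
variable {T : Type} [Fintype T] [DecidableEq T]

/-- the class of a column -/
def cls (τ : T → Bool × Bool) : Finset T := univ.filter fun i => (τ i).1 = true

/-- probability of a class -/
noncomputable def piC (q : ℝ) (R : Finset T) : ℝ :=
  Ex (bern2 q) fun τ : T → Bool × Bool => ind (cls τ = R)

lemma piC_mul {q : ℝ} (h0 : 0 ≤ q) (h1 : q ≤ 1) (R : Finset T) (i : T) :
    Ex (bern2 q) (fun τ : T → Bool × Bool => ind (cls τ = R ∧ (τ i).2 = true)) = piC q R * q := by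
  have a1 := Ex_pair (ι := T) (w := bern q) (bern q)
    fun ω₁ ω₂ => ind (univ.filter (fun i => ω₁ i = true) = R) * ind (ω₂ i = true)
  have a2 := Ex_pair (ι := T) (w := bern q) (bern q)
    fun ω₁ _ => ind (univ.filter (fun i => ω₁ i = true) = R)
  simp only [Ex_const (isP_bern h0 h1)] at a2
  simp only [Ex_mul, Ex_single (isP_bern h0 h1) i fun b => ind (b = true), sum_mul_ind] at a1
  simp only [ind_and]
  refine a1.trans ?_
  simp only [mul_comm _ (bern q true), Ex_mul]
  rw [← a2, mul_comm]; rfl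

lemma lln {q ε : ℝ} (h0 : 0 ≤ q) (h1 : q ≤ 1) (hε : 0 ≤ ε) :
    1 - Real.exp (-(ε ^ 2 / 4 * Fintype.card T)) ≤
      ∑ R ∈ univ.filter fun R : Finset T => ⌈(q - ε) * Fintype.card T⌉₊ ≤ R.card, piC q R := by
  have hw := isP_bern2 h0 h1
  have a1 := chernoff hw (fun (_ : T) a => a.1 = true) univ hε
  have a2 : ∑ a : Bool × Bool, bern2 q a * ind (a.1 = true) = q := by
    simp [Fintype.sum_prod_type, bern2, bern, ind]; ring
  simp only [a2, sum_const, card_univ, nsmul_eq_mul] at a1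
  unfold piC
  rw [← Ex_sum, sub_le_comm]
  refine le_trans ?_ a1
  rw [← Ex_const (ι := T) hw 1, ← Ex_sub]
  refine Ex_mono hw fun τ => ?_
  by_cases h : ⌈(q - ε) * Fintype.card T⌉₊ ≤ (cls τ).card
  · rw [sum_eq_single (cls τ) (fun R _ hR => ind_neg hR.symm) 
      (fun h' => (h' (mem_filter.2 ⟨mem_univ _, h⟩)).elim),
      ind_pos rfl, sub_self]
    exact ind_nonneg _
  · rw [ind_pos]
    · exact sub_le_self _ (sum_nonneg fun _ _ => ind_nonneg _)
    · rw [not_le, Nat.lt_ceil] at h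
      rw [sum_ind, mul_comm]
      exact h.le

variable {Γ S : Type} [Fintype Γ] [DecidableEq Γ] [Fintype S] [DecidableEq S]

/-- a group of rows sees the expected number of columns of every kind -/
def GoodG (q ε : ℝ) (Ω : Γ × S → T → Bool × Bool) (γ : Γ) : Prop :=
  ∀ (R : Finset T) (i : T), (piC q R * q - ε) * Fintype.card S ≤
    ∑ j, ind (cls (Ω (γ, j)) = R ∧ (Ω (γ, j) i).2 = true)

lemma bad_bound [Nonempty T] {q ε m : ℝ} (h0 : 0 ≤ q) (h1 : q ≤ 1) (hε : 0 ≤ ε) :
    Ex (fun τ : T → Bool × Bool => ∏ u, bern2 q (τ u))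
      (fun Ω : Γ × S → T → Bool × Bool => ind (m ≤ ∑ γ, ind (¬ GoodG q ε Ω γ))) ≤
      (2 * (2 ^ Fintype.card T * Fintype.card T)) ^ Fintype.card Γ *
        Real.exp (-(ε ^ 2 / 4 * (m * Fintype.card S))) := by
  classical
  have hw : IsP fun τ : T → Bool × Bool => ∏ u, bern2 q (τ u) := (isP_bern2 h0 h1).pi
  refine (Ex_union hw (univ.filter fun x : Finset Γ × (Γ → Finset T × T) => m ≤ x.1.card)
    (Q := fun x Ω => ∑ c ∈ x.1 ×ˢ (univ : Finset S), ind (cls (Ω c) = (x.2 c.1).1 ∧ (Ω c (x.2 c.1).2).2 = true)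
      ≤ ∑ c ∈ x.1 ×ˢ (univ : Finset S), (∑ τ : T → Bool × Bool, (∏ u, bern2 q (τ u)) *
        ind (cls τ = (x.2 c.1).1 ∧ (τ (x.2 c.1).2).2 = true) - ε)) (fun Ω h => ?_)
    (b := Real.exp (-(ε ^ 2 / 4 * (m * Fintype.card S)))) fun x hx => ?_).trans ?_
  · have h2 : ∀ γ, ¬ GoodG q ε Ω γ → ∃ x : Finset T × T,
        ∑ j, ind (cls (Ω (γ, j)) = x.1 ∧ (Ω (γ, j) x.2).2 = true) ≤
          (piC q x.1 * q - ε) * Fintype.card S := by
      intro γ hγ
      unfold GoodG at hγ
      push Not at hγ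
      obtain ⟨R, i, h⟩ := hγ
      exact ⟨(R, i), h.le⟩
    choose! wit hwit using h2
    refine ⟨(univ.filter fun γ => ¬ GoodG q ε Ω γ, wit), mem_filter.2 ⟨mem_univ _, ?_⟩, ?_⟩
    · rwa [sum_ind] at h
    · rw [sum_product, sum_product]
      refine sum_le_sum fun γ hγ => (hwit γ (mem_filter.1 hγ).2).trans (le_of_eq ?_)
      dsimp only
      rw [← piC_mul h0 h1 (wit γ).1 (wit γ).2, sum_const, card_univ, nsmul_eq_mul, mul_comm]
      rfl
  · refine (chernoff hw (fun (c : Γ × S) τ => cls τ = (x.2 c.1).1 ∧ (τ (x.2 c.1).2).2 = true)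
      (x.1 ×ˢ univ) hε).trans (Real.exp_le_exp.2 (neg_le_neg ?_))
    rw [card_product, card_univ, Nat.cast_mul]
    have := (mem_filter.1 hx).2
    gcongr
  · refine mul_le_mul_of_nonneg_right ?_ (Real.exp_pos _).le
    have := card_filter_le (univ : Finset (Finset Γ × (Γ → Finset T × T))) fun x => m ≤ x.1.card
    simp only [card_univ, Fintype.card_prod, Fintype.card_pi, prod_const,
      Fintype.card_finset] at this
    rw [mul_pow]
    exact_mod_cast this

end cells

end Pool.Agent.MP_875478_co
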