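import Pool.Agent.MP_875478_co.Random1

set_option autoImplicit false
set_option linter.unusedSectionVars false
open Finset

namespace Pool.Agent.MP_875478_co

variable {Γ T : Type} [Fintype Γ] [DecidableEq Γ] [Fintype T] [DecidableEq T]

lemma cross_of_good [Nonempty T] {V : Type} {G : SimpleGraph V} {u v : Γ × T → V}
    (hu : Function.Injective u) (hv : Function.Injective v) (huv : ∀ a b, u a ≠ v b)
    (Ω : Γ × (Γ × T) → T → Bool × Bool)
    (hadj : ∀ γ j i, (Ω (γ, j) i).1 = true → (Ω (γ, j) i).2 = true → G.Adj (u (γ, i)) (v j))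
    {q ε : ℝ} (hε : 0 < ε) (hq : ε < q) (hq1 : q ≤ 1)
    (hlln : Real.exp (-(ε ^ 2 / 4 * Fintype.card T)) ≤ ε) (hg : 1 ≤ ε * Fintype.card Γ)
    (hbad : ¬ ε * Fintype.card Γ ≤ ∑ γ, ind (¬ GoodG q (ε / 2 ^ Fintype.card T) Ω γ))
    {r : ℕ} (hr : (1 - q + 3 * ε) * (Fintype.card Γ * Fintype.card T) ≤ r) (e : Sym2 V) :
    ∃ B B' : Γ × T → Fin r → ℝ, ∀ Y : Γ × T → Γ × T → ℝ,
      (∀ a b, G.Adj (u a) (v b) ∧ s(u a, v b) ≠ e → Y a b = 0) →
      (∀ a c, ∑ b, Y a b * B' b c = 0) → (∀ b c, ∑ a, Y a b * B a c = 0) → Y = 0 := by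
  classical
  set t := Fintype.card T with ht
  set g := Fintype.card Γ with hgd
  have ht0 : (1 : ℝ) ≤ t := Nat.one_le_cast.2 Fintype.card_pos
  have hg0 : (0 : ℝ) ≤ g := Nat.cast_nonneg _
  set e₀ := ⌈(q - ε) * t⌉₊ with he₀
  have he1 : e₀ ≤ t := Nat.ceil_le.2 (by nlinarith)
  have he2 : (q - ε) * t ≤ e₀ := Nat.le_ceil _
  set ε' := ε / 2 ^ t with hε'
  have hε'0 : 0 < ε' := by positivity
  refine cross (fun a b => G.Adj (u a) (v b) ∧ s(u a, v b) ≠ e) (e := e₀)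
    (Nat.ceil_pos.2 (by nlinarith))
    (fun γ => GoodG q ε' Ω γ ∧ ∀ i j, s(u (γ, i), v j) ≠ e) (fun γ j => cls (Ω (γ, j)))
    (fun _ R => if e₀ ≤ R.card then ⌈(piC q R * q - ε') * Fintype.card (Γ × T)⌉₊ else 0)
    (fun γ hγ R hR => ?_) (fun γ _ => ?_) ?_
  · have h1 : e₀ ≤ R.card := by by_contra h; simp [h] at hR
    refine ⟨h1, fun i hi => ?_⟩
    rw [if_pos h1, Nat.ceil_le]
    refine (hγ.1 R i).trans ?_
    rw [sum_ind, Nat.cast_le]
    refine card_le_card fun j hj => ?_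
    simp only [mem_filter, mem_univ, true_and] at hj ⊢
    refine ⟨hj.1, hadj γ j i ?_ hj.2, hγ.2 i j⟩
    rw [← hj.1] at hi
    exact (mem_filter.1 hi).2
  · rw [← Nat.cast_le (α := ℝ), ← sum_filter]
    push_cast
    have h1 := lln (T := T) (hε.trans hq).le hq1 hε.le
    have hs : (Fintype.card (Γ × T) : ℝ) = g * t := by rw [Fintype.card_prod, Nat.cast_mul]
    have h2 : ∑ R ∈ univ.filter fun R : Finset T => e₀ ≤ R.card,
        (piC q R * q - ε') * Fintype.card (Γ × T) ≤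
        ∑ R ∈ univ.filter fun R : Finset T => e₀ ≤ R.card,
          (⌈(piC q R * q - ε') * Fintype.card (Γ × T)⌉₊ : ℝ) :=
      sum_le_sum fun R _ => Nat.le_ceil _
    rw [← sum_mul, sum_sub_distrib, ← sum_mul, sum_const, nsmul_eq_mul] at h2
    have h3 : ((univ.filter fun R : Finset T => e₀ ≤ R.card).card : ℝ) * ε' ≤ ε := by
      have := card_filter_le (univ : Finset (Finset T)) fun R => e₀ ≤ R.card
      rw [card_univ, Fintype.card_finset] at this
      have h4 : ((univ.filter fun R : Finset T => e₀ ≤ R.card).card : ℝ) ≤ 2 ^ t := by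
        exact_mod_cast this
      refine (mul_le_mul_of_nonneg_right h4 hε'0.le).trans (le_of_eq ?_)
      rw [hε']; field_simp
    have h4 : (q - 2 * ε) ≤ (∑ R ∈ univ.filter fun R : Finset T => e₀ ≤ R.card, piC q R) * q -
        ((univ.filter fun R : Finset T => e₀ ≤ R.card).card : ℝ) * ε' := by
      have := mul_le_mul_of_nonneg_right ((sub_le_sub_left hlln 1).trans h1) (hε.trans hq).le
      nlinarith
    have h5 := mul_le_mul_of_nonneg_right h4 (Nat.cast_nonneg (α := ℝ) (Fintype.card (Γ × T)))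
    have h6 : 0 ≤ ε * (g * t) := by positivity
    refine le_trans ?_ (add_le_add hr (h5.trans h2))
    rw [hs]; nlinarith
  · rw [← Nat.cast_le (α := ℝ)]
    push_cast
    have h1 : ∑ γ, ind (∃ i j, s(u (γ, i), v j) = e) ≤ 1 := by
      rw [sum_ind, Nat.cast_le_one, card_le_one]
      intro γ hγ γ' hγ'
      obtain ⟨i, j, h⟩ := (mem_filter.1 hγ).2
      obtain ⟨i', j', h'⟩ := (mem_filter.1 hγ').2
      exact congrArg (fun c => c.1.1)
        (inj_pairs hu hv huv (a₁ := ((γ, i), j)) (a₂ := ((γ', i'), j')) (h.trans h'.symm))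
    have h2 : ∀ γ, (if GoodG q ε' Ω γ ∧ ∀ i j, s(u (γ, i), v j) ≠ e then ((t - e₀ : ℕ) : ℝ)
        else t) ≤ (1 - q + ε) * t + t * ind (¬ GoodG q ε' Ω γ) +
          t * ind (∃ i j, s(u (γ, i), v j) = e) := by
      intro γ
      have a1 := mul_nonneg (zero_le_one.trans ht0) (ind_nonneg (¬ GoodG q ε' Ω γ))
      have a2 := mul_nonneg (zero_le_one.trans ht0) (ind_nonneg (∃ i j, s(u (γ, i), v j) = e))
      have a3 : 0 ≤ (1 - q + ε) * t := mul_nonneg (by linarith) (zero_le_one.trans ht0)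
      split_ifs with h
      · rw [Nat.cast_sub he1]; linarith
      · rw [not_and_or] at h
        rcases h with h | h
        · rw [ind_pos h]; linarith
        · push Not at h
          rw [ind_pos h]; linarith
    refine (sum_le_sum fun γ _ => h2 γ).trans (le_trans ?_ hr)
    rw [sum_add_distrib, sum_add_distrib, sum_const, ← mul_sum, ← mul_sum, card_univ, nsmul_eq_mul,
      ← hgd]
    push Not at hbad
    nlinarith [mul_le_mul_of_nonneg_left hbad.le (zero_le_one.trans ht0),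
      mul_le_mul_of_nonneg_left (h1.trans hg) (zero_le_one.trans ht0)]

/-- `G` has a positive semidefinite matrix with the strong Arnold property of rank `≤ x` -/
def Low {n : ℕ} (G : SimpleGraph (Fin n)) (x : ℝ) : Prop := ∃ A, IsNu G A ∧ (A.rank : ℝ) ≤ x

lemma sprinkle {ι : Type} [Fintype ι] [DecidableEq ι] {η q : ℝ} (F : (ι → Bool) → ℝ) :
    Ex (bern (η + (1 - η) * q ^ 2)) F = Ex (bern η) fun ω₁ => Ex (bern2 q) fun ω₂ =>
      F fun i => ω₁ i || ((ω₂ i).1 && (ω₂ i).2) := by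
  rw [← Ex_pair (bern2 q) fun ω₁ ω₂ => F fun i => ω₁ i || ((ω₂ i).1 && (ω₂ i).2),
    Ex_map (fun a : Bool × Bool × Bool => a.1 || (a.2.1 && a.2.2)) F]
  congr 1
  ext b
  cases b <;> simp [Fintype.sum_prod_type, bern2, bern, ind] <;> ring

theorem fail_bound {η q ε : ℝ} (hη0 : 0 ≤ η) (hη1 : η ≤ 1) (hε : 0 < ε) (hq : ε < q) (hq1 : q ≤ 1)
    {n a g t : ℕ} (ha : 0 < a) (ht : 0 < t) (hlln : Real.exp (-(ε ^ 2 / 4 * t)) ≤ ε)
    (hg : 1 ≤ ε * g) (hn : ((3 * a : ℕ) : ℝ) ^ (g * t) ≤ ε * n) :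
    Ex (bern (η + (1 - η) * q ^ 2))
      (fun ω : Sym2 (Fin n) → Bool => ind (¬ Low (gr ω) ((1 - q + 5 * ε) * n))) ≤
      (n : ℝ) ^ (2 * a) * (1 - η) ^ (a * a) + n ^ 2 * ((2 * (2 ^ t * t)) ^ g *
        Real.exp (-((ε / 2 ^ t) ^ 2 / 4 * (ε * g * (g * t))))) := by
  classical
  have hq0 : 0 ≤ q := (hε.trans hq).le
  have hg0 : 0 < g := by
    rcases Nat.eq_zero_or_pos g with rfl | h
    · norm_num at hg
    · exact h
  have : Nonempty (Fin t) := ⟨⟨0, ht⟩⟩
  have : Nonempty (Fin g) := ⟨⟨0, hg0⟩⟩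
  set b := (2 * (2 ^ t * t) : ℝ) ^ g *
    Real.exp (-((ε / 2 ^ t) ^ 2 / 4 * (ε * g * (g * t)))) with hb
  have hb0 : 0 ≤ b := by positivity
  rw [sprinkle]
  refine (Ex_mono (isP_bern hη0 hη1) (g := fun ω => ind (¬ NoHole (gr ω) a) + n ^ 2 * b)
    fun ω₁ => ?_).trans ?_
  swap
  · rw [Ex_add, Ex_const (isP_bern hη0 hη1)]
    exact add_le_add (hole_bound hη0 hη1 n a) le_rfl
  by_cases hh : NoHole (gr ω₁) a
  swap
  · rw [ind_pos hh]
    refine (Ex_mono (isP_bern2 hq0 hq1) (g := fun _ => 1) fun _ => ind_le_one _).trans ?_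
    rw [Ex_const (isP_bern2 hq0 hq1)]
    exact le_add_of_nonneg_right (by positivity)
  refine le_add_of_nonneg_of_le (ind_nonneg _) ?_
  obtain ⟨K, _, φ, h1, h2, h3⟩ := exists_tiling ha hh (Fin g × Fin t)
  have hK : Fintype.card K * (g * t) ≤ n := by
    simpa using Fintype.card_le_of_injective (fun c : K × (Fin g × Fin t) => φ c.1 c.2)
      fun c d h => Prod.ext (h1 _ _ _ _ h).1 (h1 _ _ _ _ h).2
  have hK' : Fintype.card K ≤ n := le_trans (Nat.le_mul_of_pos_right _ (by positivity)) hK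
  have hinj : ∀ k, Function.Injective (φ k) := fun k _ _ h => (h1 _ _ _ _ h).2
  refine (Ex_union (isP_bern2 hq0 hq1) (univ.filter fun x : K × K => x.1 ≠ x.2)
    (Q := fun x ω => ε * Fintype.card (Fin g) ≤ ∑ γ, ind (¬ GoodG q (ε / 2 ^ Fintype.card (Fin t))
      (fun (c : Fin g × (Fin g × Fin t)) i => ω s(φ x.1 (c.1, i), φ x.2 c.2)) γ))
    (fun ω₂ h => ?_) (b := b) fun x hx => ?_).trans ?_
  · by_contra hc
    push Not at hc
    set r := ⌈(1 - q + 3 * ε) * (g * t)⌉₊ with hr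
    have hgt : (1 : ℝ) ≤ ε * (g * t) := by
      have : (1 : ℝ) ≤ t := Nat.one_le_cast.2 ht
      nlinarith
    have hpos : 0 < (1 - q + 3 * ε) * (g * t) := mul_pos (by linarith) (by positivity)
    obtain ⟨A, hA, hrk⟩ := assemble (r := r) (Nat.ceil_pos.2 hpos)
      (G := gr fun e => ω₁ e || ((ω₂ e).1 && (ω₂ e).2)) φ h1 (fun k a b hab => by
        have := gr_adj.1 (h2 k a b hab)
        exact gr_adj.2 ⟨by simp [this.1], this.2⟩) fun k l hkl e =>
      cross_of_good (hinj k) (hinj l) (fun _ _ h => hkl (h1 _ _ _ _ h).1) _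
        (fun γ j i a1 a2 => gr_adj.2 ⟨by simp only [a1, a2]; simp,
          fun h => hkl (h1 _ _ _ _ h).1⟩) hε hq hq1 (by simpa using hlln) (by simpa using hg)
        (not_le.2 (hc (k, l) (mem_filter.2 ⟨mem_univ _, hkl⟩)))
        (by simpa using Nat.le_ceil _) e
    refine h ⟨A, hA, ?_⟩
    have a1 : (r : ℝ) ≤ (1 - q + 4 * ε) * (g * t) := by
      have := Nat.ceil_lt_add_one hpos.le
      linarith
    have a2 : (A.rank : ℝ) ≤ Fintype.card K * r + ((3 * a : ℕ) : ℝ) ^ (g * t) := by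
      simp only [Fintype.card_prod, Fintype.card_fin] at h3
      exact_mod_cast hrk.trans (add_le_add le_rfl h3.le)
    have a3 : (Fintype.card K : ℝ) * (g * t) ≤ n := by exact_mod_cast hK
    have a4 := mul_le_mul_of_nonneg_left a1 (Nat.cast_nonneg (α := ℝ) (Fintype.card K))
    have a5 := mul_le_mul_of_nonneg_left a3 (show 0 ≤ 1 - q + 4 * ε by linarith)
    nlinarith
  · have hx' := (mem_filter.1 hx).2
    have hφ : Function.Injective fun c : (Fin g × (Fin g × Fin t)) × Fin t =>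
        s(φ x.1 (c.1.1, c.2), φ x.2 c.1.2) := by
      rintro ⟨⟨γ, j⟩, i⟩ ⟨⟨γ', j'⟩, i'⟩ h
      have := inj_pairs (hinj x.1) (hinj x.2) (fun _ _ h => hx' (h1 _ _ _ _ h).1)
        (a₁ := ((γ, i), j)) (a₂ := ((γ', i'), j')) h
      simp only [Prod.mk.injEq] at this ⊢
      tauto
    have e1 := Ex_comp (isP_bern2 hq0 hq1) hφ fun τ => ind (ε * Fintype.card (Fin g) ≤
      ∑ γ, ind (¬ GoodG q (ε / 2 ^ Fintype.card (Fin t)) (fun c i => τ (c, i)) γ))
    have e2 := Ex_curry (w := bern2 q) fun Ω : Fin g × (Fin g × Fin t) → Fin t → Bool × Bool =>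
      ind (ε * Fintype.card (Fin g) ≤ ∑ γ, ind (¬ GoodG q (ε / 2 ^ Fintype.card (Fin t)) Ω γ))
    refine (e1.trans e2).le.trans ((bad_bound hq0 hq1 (by positivity)).trans (le_of_eq ?_))
    simp [hb]
  · refine mul_le_mul_of_nonneg_right ?_ hb0
    have := card_filter_le (univ : Finset (K × K)) fun x => x.1 ≠ x.2
    rw [card_univ, Fintype.card_prod] at this
    rw [sq]
    exact_mod_cast this.trans (Nat.mul_le_mul hK' hK')

end Pool.Agent.MP_875478_co
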