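import Mathlib

set_option autoImplicit false
open SimpleGraph

namespace Pool.Agent.MP_875478_co

variable {ι : Type} {G G' : SimpleGraph ι}

/-- no induced cycle of length at least five -/
def HoleFree (G : SimpleGraph ι) : Prop := ∀ k, IsEmpty (cycleGraph (k + 5) ↪g G)

/-- `g 0, …, g (k + 4)` is an induced cycle -/
def Hole (G : SimpleGraph ι) (k : ℕ) (g : ℕ → ι) : Prop :=
  ∀ i j, i < j → j < k + 5 → g i ≠ g j ∧ (G.Adj (g i) (g j) ↔ j = i + 1 ∨ (i = 0 ∧ j = k + 4))

lemma cyc_adj {k : ℕ} {u v : Fin (k + 5)} (h : u.val < v.val) :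
    (cycleGraph (k + 5)).Adj u v ↔ v.val = u.val + 1 ∨ (u.val = 0 ∧ v.val = k + 4) := by
  rw [cycleGraph_adj', Fin.coe_sub_iff_lt.2 h, Fin.sub_val_of_le (le_of_lt h)]
  have := v.2
  omega

lemma holeFree_iff : HoleFree G ↔ ∀ k g, ¬ Hole G k g := by
  constructor
  · intro h k g hg
    have key : ∀ u v : Fin (k + 5), u.val < v.val →
        (G.Adj (g u) (g v) ↔ (cycleGraph (k + 5)).Adj u v) := fun u v a => by
      rw [cyc_adj a]; exact (hg u v a v.2).2
    refine (h k).false ⟨⟨fun t => g t, fun u v a => ?_⟩, fun {u v} => ?_⟩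
    · rcases lt_trichotomy u.val v.val with b | b | b
      · exact ((hg u v b v.2).1 a).elim
      · exact Fin.ext b
      · exact ((hg v u b u.2).1 a.symm).elim
    · change G.Adj (g u) (g v) ↔ _
      rcases lt_trichotomy u.val v.val with b | b | b
      · exact key u v b
      · simp [Fin.ext b]
      · rw [G.adj_comm, (cycleGraph _).adj_comm]; exact key v u b
  · intro h k
    refine ⟨fun e => h k (fun t => if a : t < k + 5 then e ⟨t, a⟩ else e 0) fun i j a b => ?_⟩
    have c : i < k + 5 := a.trans b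
    simp only [b, c, dif_pos, ne_eq, EmbeddingLike.apply_eq_iff_eq, Embedding.map_adj_iff]
    exact ⟨fun d => a.ne (congrArg Fin.val d), cyc_adj a⟩

lemma Hole.ne {k : ℕ} {g : ℕ → ι} (h : Hole G k g) {i j : ℕ} (hi : i < k + 5) (hj : j < k + 5)
    (hij : i ≠ j) : g i ≠ g j := by
  rcases lt_or_gt_of_ne hij with a | a
  · exact (h i j a hj).1
  · exact (h j i a hi).1.symm

lemma Hole.adj {k : ℕ} {g : ℕ → ι} (h : Hole G k g) {i j : ℕ} (hi : i < k + 5) (hj : j < k + 5) :
    G.Adj (g i) (g j) ↔ j = i + 1 ∨ i = j + 1 ∨ (i = 0 ∧ j = k + 4) ∨ (j = 0 ∧ i = k + 4) := by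
  rcases lt_trichotomy i j with a | a | a
  · rw [(h i j a hj).2]; omega
  · subst a; simp only [G.irrefl, false_iff]; omega
  · rw [G.adj_comm, (h j i a hi).2]; omega

lemma Hole.rot {k : ℕ} {g : ℕ → ι} (h : Hole G k g) {s : ℕ} (hs : s < k + 5) :
    ∃ g', Hole G k g' ∧ g' 0 = g s ∧ ∀ t < k + 5, ∃ t' < k + 5, g' t = g t' := by
  let ρ : ℕ → ℕ := fun t => if t + s < k + 5 then t + s else t + s - (k + 5)
  refine ⟨fun t => g (ρ t), fun i j a b => ?_, by simp [ρ, hs],
    fun t a => ⟨ρ t, by simp only [ρ]; split_ifs <;> omega, rfl⟩⟩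
  have hi : ρ i < k + 5 := by simp only [ρ]; split_ifs <;> omega
  have hj : ρ j < k + 5 := by simp only [ρ]; split_ifs <;> omega
  refine ⟨h.ne hi hj (by simp only [ρ]; split_ifs <;> omega), ?_⟩
  rw [h.adj hi hj]
  simp only [ρ]; split_ifs <;> omega

/-- replace the vertex `g 0` of a hole -/
lemma Hole.subst {k : ℕ} {g : ℕ → ι} (h : Hole G' k g) (s : ι)
    (h1 : ∀ t, 0 < t → t < k + 5 → s ≠ g t ∧ (G.Adj s (g t) ↔ t = 1 ∨ t = k + 4))
    (h2 : ∀ i j, 0 < i → i < j → j < k + 5 → (G.Adj (g i) (g j) ↔ G'.Adj (g i) (g j))) :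
    Hole G k fun t => if t = 0 then s else g t := by
  intro i j a b
  have c : j ≠ 0 := by omega
  by_cases d : i = 0
  · simp only [d, c, if_true, if_false]
    refine ⟨(h1 j (by omega) b).1, ?_⟩
    simpa using (h1 j (by omega) b).2
  · simp only [d, c, if_false]
    rw [h2 i j (by omega) a b]
    simpa [d] using h i j a b

/-- reachability through vertices of `S` -/
def Rch (G : SimpleGraph ι) (S : Set ι) : ι → ι → Prop :=
  Relation.ReflTransGen fun a b => G.Adj a b ∧ b ∈ S

/-- an induced path on four vertices whose ends are joined away from the middle gives a hole -/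
lemma HoleFree.p4 (h : HoleFree G) {a b c d w : ι} {S : Set ι} (ab : G.Adj a b) (bc : G.Adj b c)
    (cd : G.Adj c d) (ac : ¬ G.Adj a c) (bd : ¬ G.Adj b d) (ad : ¬ G.Adj a d) (ac' : a ≠ c)
    (bd' : b ≠ d) (hS : ∀ u ∈ S, ¬ G.Adj b u ∧ ¬ G.Adj c u) (hw : Rch G S a w)
    (wd : G.Adj w d) : False := by
  classical
  let P : ℕ → Prop := fun m => ∃ f : ℕ → ι, f 0 = a ∧ f m = d ∧
    (∀ i < m, G.Adj (f i) (f (i + 1))) ∧ ∀ i, 0 < i → i < m → f i ∈ S
  have h0 : ∀ x, Rch G S a x → ∃ (m : ℕ) (f : ℕ → ι), f 0 = a ∧ f m = x ∧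
      (∀ i < m, G.Adj (f i) (f (i + 1))) ∧ ∀ i, 0 < i → i ≤ m → f i ∈ S := by
    intro x hx
    induction hx with
    | refl => exact ⟨0, fun _ => a, rfl, rfl, by simp, by omega⟩
    | @tail x y _ e ih =>
      obtain ⟨m, f, f1, f2, f3, f4⟩ := ih
      refine ⟨m + 1, fun t => if t ≤ m then f t else y, by simpa using f1, by simp,
        fun i hi => ?_, fun i a b => ?_⟩
      · by_cases e' : i = m
        · simpa [e', f2] using e.1
        · simpa [show i ≤ m by omega, show i + 1 ≤ m by omega] using f3 i (by omega)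
      · by_cases e' : i ≤ m
        · simpa [e'] using f4 i a e'
        · simpa [e'] using e.2
  have hP : ∃ m, P m := by
    obtain ⟨m, f, f1, f2, f3, f4⟩ := h0 w hw
    refine ⟨m + 1, fun t => if t ≤ m then f t else d, by simpa using f1, by simp,
      fun i hi => ?_, fun i a b => by simpa [show i ≤ m by omega] using f4 i a (by omega)⟩
    by_cases e' : i = m
    · simpa [e', f2] using wd
    · simpa [show i ≤ m by omega, show i + 1 ≤ m by omega] using f3 i (by omega)
  obtain ⟨f, f1, f2, f3, f4⟩ := Nat.find_spec hP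
  set m := Nat.find hP with hm
  have cut : ∀ i j, i + 1 < j → j ≤ m → ¬ G.Adj (f i) (f j) := fun i j a1 a2 a3 => by
    refine Nat.find_min hP (m := m - (j - i - 1)) (by omega)
      ⟨fun t => if t ≤ i then f t else f (t + (j - i - 1)), by simpa using f1, ?_,
        fun t ht => ?_, fun t t1 t2 => ?_⟩
    · simp only [show ¬ m - (j - i - 1) ≤ i by omega, if_false]
      rw [show m - (j - i - 1) + (j - i - 1) = m by omega, f2]
    · by_cases e : t = i
      · simp only [e, le_refl, if_true, show ¬ i + 1 ≤ i by omega, if_false]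
        rwa [show i + 1 + (j - i - 1) = j by omega]
      · by_cases e' : t ≤ i
        · simpa [e', show t + 1 ≤ i by omega] using f3 t (by omega)
        · simp only [e', show ¬ t + 1 ≤ i by omega, if_false]
          rw [add_right_comm]
          exact f3 _ (by omega)
    · by_cases e' : t ≤ i
      · simpa [e'] using f4 t t1 (by omega)
      · simpa [e'] using f4 _ (by omega) (by omega)
  have m0 : m ≠ 0 := fun e => bd (by rw [← f2, e, f1]; exact ab.symm)
  have m1 : m ≠ 1 := fun e => ad (by have := f3 0 (by omega); rwa [f1, zero_add, ← e, f2] at this)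
  obtain ⟨k, hk⟩ : ∃ k, m = k + 2 := ⟨m - 2, by omega⟩
  have fb : ∀ i ≤ m, (G.Adj (f i) b ↔ i = 0) := fun i hi => by
    refine ⟨fun e => by_contra fun e' => ?_, fun e => by rwa [e, f1]⟩
    by_cases e'' : i = m
    · exact bd (by rw [← f2, ← e'']; exact e.symm)
    · exact (hS _ (f4 i (by omega) (by omega))).1 e.symm
  have fc : ∀ i ≤ m, (G.Adj (f i) c ↔ i = m) := fun i hi => by
    refine ⟨fun e => by_contra fun e' => ?_, fun e => by rw [e, f2]; exact cd.symm⟩
    by_cases e'' : i = 0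
    · exact ac (by rwa [e'', f1] at e)
    · exact (hS _ (f4 i (by omega) (by omega))).2 e.symm
  refine holeFree_iff.1 h k (fun t => if t ≤ m then f t else if t = m + 1 then c else b)
    fun i j a1 a2 => ?_
  by_cases hj : j ≤ m
  · simp only [hj, show i ≤ m by omega, if_true]
    refine ⟨fun e => ?_, fun e => by_contra fun e' => cut i j (by omega) hj e, fun e => ?_⟩
    · by_cases e' : j = m
      · have := (fc i (by omega)).1 (by rw [e]; exact (fc j hj).2 e')
        omega
      · exact cut i (j + 1) (by omega) (by omega) (by rw [e]; exact f3 j (by omega))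
    · rw [show j = i + 1 by omega]; exact f3 i (by omega)
  by_cases hi : i ≤ m
  · by_cases hj' : j = m + 1
    · simp only [hi, hj', if_true, show ¬ m + 1 ≤ m by omega, if_false]
      refine ⟨fun e => ?_, by rw [fc i hi]; omega⟩
      have := (fb i hi).1 (by rw [e]; exact bc.symm)
      exact ac' (by rw [← f1, ← this, e])
    · simp only [hi, hj, hj', if_true, if_false]
      refine ⟨fun e => ?_, by rw [fb i hi]; omega⟩
      have := (fc i hi).1 (by rw [e]; exact bc)
      exact bd' (by rw [← f2, ← this, e])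
  · simp only [hj, show i = m + 1 by omega, show j ≠ m + 1 by omega, if_true, if_false,
      show ¬ m + 1 ≤ m by omega]
    exact ⟨bc.ne', by simp only [bc.symm, true_iff]; omega⟩

/-- `G'` arises from `G` by giving `c` the union and `z` the intersection of the two
neighbourhoods, with `c` and `z` non-adjacent -/
structure IsShift (G G' : SimpleGraph ι) (c z : ι) : Prop where
  off : ∀ u w, u ≠ c → u ≠ z → w ≠ c → w ≠ z → (G'.Adj u w ↔ G.Adj u w)
  hc : ∀ w, w ≠ c → w ≠ z → (G'.Adj c w ↔ G.Adj c w ∨ G.Adj z w)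
  hz : ∀ w, G'.Adj z w ↔ G.Adj c w ∧ G.Adj z w

lemma exists_isShift (G : SimpleGraph ι) {c z : ι} (h : c ≠ z) : ∃ G', IsShift G G' c z := by
  have i1 := G.irrefl (v := c)
  have i2 := G.irrefl (v := z)
  refine ⟨SimpleGraph.fromRel fun u w => (u ≠ c ∧ u ≠ z ∧ w ≠ c ∧ w ≠ z ∧ G.Adj u w) ∨
    (u = c ∧ w ≠ c ∧ w ≠ z ∧ (G.Adj c w ∨ G.Adj z w)) ∨ (u = z ∧ G.Adj c w ∧ G.Adj z w),
    fun u w a b d e => ?_, fun w a b => ?_, fun w => ?_⟩
  · have := G.adj_comm u w
    have := G.ne_of_adj (a := u) (b := w)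
    simp only [fromRel_adj]
    grind
  · simp only [fromRel_adj]
    grind
  · simp only [fromRel_adj]
    grind

/-- the edge `c z` with the complete bipartite structure of a two-pair of the complement -/
structure CoPair (G : SimpleGraph ι) (c z : ι) (A : Set ι) : Prop where
  adj : G.Adj c z
  cA : c ∉ A
  hA : ∀ a ∈ A, G.Adj z a
  hB : ∀ u ∉ A, u ≠ c → G.Adj z u → G.Adj c u
  hAB : ∀ a ∈ A, ∀ b ∉ A, b ≠ z → G.Adj c b → G.Adj a b

variable {c z : ι} {A : Set ι}

lemma IsShift.holeFree (hs : IsShift G G' c z) (hp : CoPair G c z A) (h : HoleFree G) :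
    HoleFree G' := by
  rw [holeFree_iff] at h ⊢
  intro k g hg
  by_cases hz : ∃ t < k + 5, g t = z
  · obtain ⟨t, ht, e⟩ := hz
    obtain ⟨g, hg, e', -⟩ := hg.rot ht
    rw [e] at e'
    have nz : ∀ t, 0 < t → t < k + 5 → g t ≠ z := fun t a b => e' ▸ hg.ne b (by omega) (by omega)
    have az : ∀ t < k + 5, (G.Adj c (g t) ∧ G.Adj z (g t) ↔ t = 1 ∨ t = k + 4) := fun t a => by
      rw [← hs.hz, ← e', hg.adj (by omega) a]; omega
    have a1 := (az 1 (by omega)).2 (Or.inl rfl)
    have a2 := (az (k + 4) (by omega)).2 (Or.inr rfl)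
    have nc : ∀ t, 0 < t → t < k + 5 → g t ≠ c := fun t a b e => by
      have b1 := (hs.hc _ a1.1.ne' a1.2.ne').2 (Or.inl a1.1)
      have b2 := (hs.hc _ a2.1.ne' a2.2.ne').2 (Or.inl a2.1)
      rw [← e, hg.adj b (by omega)] at b1 b2
      omega
    have off : ∀ i j, 0 < i → i < k + 5 → 0 < j → j < k + 5 →
        (G.Adj (g i) (g j) ↔ G'.Adj (g i) (g j)) := fun i j a b d e =>
      (hs.off _ _ (nc i a b) (nz i a b) (nc j d e) (nz j d e)).symm
    have two : ∀ t, 0 < t → t < k + 5 → G.Adj (g t) (g 1) → G.Adj (g t) (g (k + 4)) → False :=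
      fun t a b b1 b2 => by
        rw [off _ _ a b (by omega) (by omega), hg.adj b (by omega)] at b1 b2
        omega
    have n12 : ¬ G.Adj (g 1) (g (k + 4)) := by
      rw [off _ _ (by omega) (by omega) (by omega) (by omega), hg.adj (by omega) (by omega)]
      omega
    by_cases hA : g 1 ∈ A
    · have hA' : g (k + 4) ∈ A := by_contra fun b => n12 (hp.hAB _ hA _ b a2.2.ne' a2.1)
      refine h k _ (hg.subst c (fun t a b => ⟨(nc t a b).symm, fun d => ?_,
        fun d => ((az t b).2 d).1⟩) fun i j a b d => off i j a (by omega) (by omega) d)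
      by_cases e : g t ∈ A
      · exact (az t b).1 ⟨d, hp.hA _ e⟩
      · exact (two t a b (hp.hAB _ hA _ e (nz t a b) d).symm
          (hp.hAB _ hA' _ e (nz t a b) d).symm).elim
    · have hA' : g (k + 4) ∉ A := fun b => n12 (hp.hAB _ b _ hA a1.2.ne' a1.1).symm
      refine h k _ (hg.subst z (fun t a b => ⟨(nz t a b).symm, fun d => ?_,
        fun d => ((az t b).2 d).2⟩) fun i j a b d => off i j a (by omega) (by omega) d)
      by_cases e : g t ∈ A
      · exact (two t a b (hp.hAB _ e _ hA a1.2.ne' a1.1) (hp.hAB _ e _ hA' a2.2.ne' a2.1)).elim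
      · exact (az t b).1 ⟨hp.hB _ e (nc t a b) d, d⟩
  push Not at hz
  by_cases hc : ∃ t < k + 5, g t = c
  · obtain ⟨t, ht, e⟩ := hc
    obtain ⟨g', hg, e', r⟩ := hg.rot ht
    rw [e] at e'
    have nz : ∀ t < k + 5, g' t ≠ z := fun t a => by
      obtain ⟨t', b, d⟩ := r t a
      exact d ▸ hz t' b
    have nc : ∀ t, 0 < t → t < k + 5 → g' t ≠ c := fun t a b =>
      e' ▸ hg.ne b (by omega) (by omega)
    have ac : ∀ t, 0 < t → t < k + 5 →
        (G.Adj c (g' t) ∨ G.Adj z (g' t) ↔ t = 1 ∨ t = k + 4) := fun t a b => by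
      rw [← hs.hc _ (nc t a b) (nz t b), ← e', hg.adj (by omega) b]; omega
    have a1 := (ac 1 (by omega) (by omega)).2 (Or.inl rfl)
    have a2 := (ac (k + 4) (by omega) (by omega)).2 (Or.inr rfl)
    have off : ∀ i j, 0 < i → i < k + 5 → 0 < j → j < k + 5 →
        (G.Adj (g' i) (g' j) ↔ G'.Adj (g' i) (g' j)) := fun i j a b d e =>
      (hs.off _ _ (nc i a b) (nz i b) (nc j d e) (nz j e)).symm
    have n12 : ¬ G.Adj (g' 1) (g' (k + 4)) := by
      rw [off _ _ (by omega) (by omega) (by omega) (by omega), hg.adj (by omega) (by omega)]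
      omega
    have b1 : g' 1 ∉ A → G.Adj c (g' 1) := fun a =>
      a1.elim id (hp.hB _ a (nc 1 (by omega) (by omega)))
    have b2 : g' (k + 4) ∉ A → G.Adj c (g' (k + 4)) := fun a =>
      a2.elim id (hp.hB _ a (nc _ (by omega) (by omega)))
    by_cases hA : g' 1 ∈ A
    · have hA' : g' (k + 4) ∈ A := by_contra fun b =>
        n12 (hp.hAB _ hA _ b (nz _ (by omega)) (b2 b))
      refine h k _ (hg.subst z (fun t a b => ⟨(nz t b).symm, fun d => (ac t a b).1 (Or.inr d),
        ?_⟩) fun i j a b d => off i j a (by omega) (by omega) d)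
      rintro (rfl | rfl)
      · exact hp.hA _ hA
      · exact hp.hA _ hA'
    · have hA' : g' (k + 4) ∉ A := fun b =>
        n12 (hp.hAB _ b _ hA (nz _ (by omega)) (b1 hA)).symm
      refine h k _ (hg.subst c (fun t a b => ⟨(nc t a b).symm, fun d => (ac t a b).1 (Or.inl d),
        ?_⟩) fun i j a b d => off i j a (by omega) (by omega) d)
      rintro (rfl | rfl)
      · exact b1 hA
      · exact b2 hA'
  push Not at hc
  refine h k g fun i j a b => ⟨(hg i j a b).1, ?_⟩
  rw [← hs.off _ _ (hc i (by omega)) (hz i (by omega)) (hc j b) (hz j b)]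
  exact (hg i j a b).2

lemma side {k : ℕ} (p : ℕ → Prop) (h : ∀ t, 2 ≤ t → t < k + 3 → (p t ↔ p (t + 1))) :
    (∀ t, 2 ≤ t → t ≤ k + 3 → p t) ∨ ∀ t, 2 ≤ t → t ≤ k + 3 → ¬ p t := by
  have key : ∀ t, 2 ≤ t → t ≤ k + 3 → (p 2 ↔ p t) := fun t a => by
    induction t, a using Nat.le_induction with
    | base => exact fun _ => Iff.rfl
    | succ t a ih => exact fun b => (ih (by omega)).trans (h t a (by omega))
  by_cases e : p 2
  · exact Or.inl fun t a b => (key t a b).1 e
  · exact Or.inr fun t a b d => e ((key t a b).2 d)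

lemma IsShift.holeFree_compl (hs : IsShift G G' c z) (hp : CoPair G c z A) (h : HoleFree Gᶜ) :
    HoleFree G'ᶜ := by
  rw [holeFree_iff] at h ⊢
  intro k g hg
  have offc : ∀ u w, u ≠ c → u ≠ z → w ≠ c → w ≠ z → (Gᶜ.Adj u w ↔ G'ᶜ.Adj u w) :=
    fun u w a b d e => by simp only [compl_adj, hs.off u w a b d e]
  have sd : ∀ g : ℕ → ι, Hole G'ᶜ k g → (∀ t, 0 < t → t < k + 5 → g t ≠ c ∧ g t ≠ z) →
      (∀ t, 2 ≤ t → t ≤ k + 3 → g t ∉ A → G.Adj c (g t)) →
      (∀ t, 2 ≤ t → t ≤ k + 3 → g t ∈ A) ∨ ∀ t, 2 ≤ t → t ≤ k + 3 → g t ∉ A :=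
    fun g hg n hb => side (fun t => g t ∈ A) fun t a b => by
      have n1 := n t (by omega) (by omega)
      have n2 := n (t + 1) (by omega) (by omega)
      have e : ¬ G.Adj (g t) (g (t + 1)) := ((offc _ _ n1.1 n1.2 n2.1 n2.2).2
        ((hg.adj (by omega) (by omega)).2 (Or.inl rfl))).2
      exact ⟨fun d => by_contra fun d' => e (hp.hAB _ d _ d' n2.2 (hb _ (by omega) b d')),
        fun d => by_contra fun d' => e (hp.hAB _ d _ d' n1.2 (hb _ a b.le d')).symm⟩
  by_cases hc : ∃ t < k + 5, g t = c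
  · obtain ⟨t, ht, e⟩ := hc
    obtain ⟨g, hg, e', -⟩ := hg.rot ht
    rw [e] at e'
    have nc : ∀ t, 0 < t → t < k + 5 → g t ≠ c := fun t a b => e' ▸ hg.ne b (by omega) (by omega)
    have ac : ∀ t < k + 5, (G'ᶜ.Adj c (g t) ↔ t = 1 ∨ t = k + 4) := fun t a => by
      rw [← e', hg.adj (by omega) a]; omega
    have cz : ∀ u, G'ᶜ.Adj c u → u ≠ z → G'ᶜ.Adj z u := fun u a b =>
      ⟨b.symm, fun d => a.2 ((hs.hc u a.ne' b).2 (Or.inl ((hs.hz u).1 d).1))⟩
    have nz : ∀ t, 0 < t → t < k + 5 → g t ≠ z := fun t a b e => by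
      have b1 := (ac t b).1 (e ▸ ⟨hp.adj.ne, fun d => G.irrefl ((hs.hz c).1 d.symm).1⟩)
      have b2 : ∀ s, s = 1 ∨ s = k + 4 → s ≠ t → G'ᶜ.Adj (g t) (g s) := fun s d d' =>
        e ▸ cz _ ((ac s (by omega)).2 d) (e ▸ hg.ne (by omega) b d')
      rcases b1 with rfl | rfl
      · have := (hg.adj b (by omega)).1 (b2 (k + 4) (Or.inr rfl) (by omega))
        omega
      · have := (hg.adj b (by omega)).1 (b2 1 (Or.inl rfl) (by omega))
        omega
    have ac' : ∀ t, 0 < t → t < k + 5 →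
        (¬ (G.Adj c (g t) ∨ G.Adj z (g t)) ↔ t = 1 ∨ t = k + 4) := fun t a b => by
      rw [← ac t b, compl_adj, hs.hc _ (nc t a b) (nz t a b)]
      simp [(nc t a b).symm]
    have hb : ∀ t, 2 ≤ t → t ≤ k + 3 → g t ∉ A → G.Adj c (g t) := fun t a b d => by
      have := mt (ac' t (by omega) (by omega)).1 (by omega)
      exact (not_not.1 this).elim id (hp.hB _ d (nc t (by omega) (by omega)))
    have off : ∀ i j, 0 < i → i < j → j < k + 5 →
        (Gᶜ.Adj (g i) (g j) ↔ G'ᶜ.Adj (g i) (g j)) := fun i j a b d =>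
      offc _ _ (nc i a (by omega)) (nz i a (by omega)) (nc j (by omega) d) (nz j (by omega) d)
    rcases sd g hg (fun t a b => ⟨nc t a b, nz t a b⟩) hb with hA | hA
    · refine h k _ (hg.subst z (fun t a b => ⟨(nz t a b).symm, fun d => by_contra fun d' =>
        d.2 (hp.hA _ (hA t (by omega) (by omega))), fun d => ⟨(nz t a b).symm,
          fun d' => (ac' t a b).2 d (Or.inr d')⟩⟩) off)
    · refine h k _ (hg.subst c (fun t a b => ⟨(nc t a b).symm, fun d => by_contra fun d' =>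
        d.2 (hb t (by omega) (by omega) (hA t (by omega) (by omega))), fun d => ⟨(nc t a b).symm,
          fun d' => (ac' t a b).2 d (Or.inl d')⟩⟩) off)
  push Not at hc
  by_cases hz : ∃ t < k + 5, g t = z
  · obtain ⟨t, ht, e⟩ := hz
    obtain ⟨g', hg, e', r⟩ := hg.rot ht
    rw [e] at e'
    have nc : ∀ t < k + 5, g' t ≠ c := fun t a => by
      obtain ⟨t', b, d⟩ := r t a
      exact d ▸ hc t' b
    have nz : ∀ t, 0 < t → t < k + 5 → g' t ≠ z := fun t a b =>
      e' ▸ hg.ne b (by omega) (by omega)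
    have az : ∀ t, 0 < t → t < k + 5 →
        (¬ (G.Adj c (g' t) ∧ G.Adj z (g' t)) ↔ t = 1 ∨ t = k + 4) := fun t a b => by
      have : G'ᶜ.Adj z (g' t) ↔ t = 1 ∨ t = k + 4 := by rw [← e', hg.adj (by omega) b]; omega
      rw [← this, compl_adj, hs.hz]
      simp [(nz t a b).symm]
    have hb : ∀ t, 2 ≤ t → t ≤ k + 3 → G.Adj c (g' t) ∧ G.Adj z (g' t) := fun t a b =>
      not_not.1 (mt (az t (by omega) (by omega)).1 (by omega))
    have off : ∀ i j, 0 < i → i < j → j < k + 5 →
        (Gᶜ.Adj (g' i) (g' j) ↔ G'ᶜ.Adj (g' i) (g' j)) := fun i j a b d =>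
      offc _ _ (nc i (by omega)) (nz i a (by omega)) (nc j d) (nz j (by omega) d)
    have nb : ∀ t, t = 1 ∨ t = k + 4 → ∃ s, 2 ≤ s ∧ s ≤ k + 3 ∧ ¬ G.Adj (g' s) (g' t) := by
      rintro t (rfl | rfl)
      · exact ⟨2, by omega, by omega, fun d => ((off 1 2 (by omega) (by omega) (by omega)).2
          ((hg.adj (by omega) (by omega)).2 (by omega))).2 d.symm⟩
      · exact ⟨k + 3, by omega, by omega, ((off _ _ (by omega) (by omega) (by omega)).2
          ((hg.adj (by omega) (by omega)).2 (by omega))).2⟩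
    rcases sd g' hg (fun t a b => ⟨nc t b, nz t a b⟩) (fun t a b _ => (hb t a b).1) with hA | hA
    · refine h k _ (hg.subst c (fun t a b => ⟨(nc t b).symm, fun d => by_contra fun d' =>
        d.2 (hb t (by omega) (by omega)).1, fun d => ⟨(nc t b).symm, fun d' => ?_⟩⟩) off)
      obtain ⟨s, s1, s2, s3⟩ := nb t d
      by_cases e : g' t ∈ A
      · exact (az t a b).2 d ⟨d', hp.hA _ e⟩
      · exact s3 (hp.hAB _ (hA s s1 s2) _ e (nz t a b) d')
    · refine h k _ (hg.subst z (fun t a b => ⟨(nz t a b).symm, fun d => by_contra fun d' =>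
        d.2 (hb t (by omega) (by omega)).2, fun d => ⟨(nz t a b).symm, fun d' => ?_⟩⟩) off)
      obtain ⟨s, s1, s2, s3⟩ := nb t d
      by_cases e : g' t ∈ A
      · exact s3 (hp.hAB _ e _ (hA s s1 s2) (nz s (by omega) (by omega)) (hb s s1 s2).1).symm
      · exact (az t a b).2 d ⟨hp.hB _ e (nc t b) d', d'⟩
  push Not at hz
  refine h k g fun i j a b => ⟨(hg i j a b).1, ?_⟩
  rw [offc _ _ (hc i (by omega)) (hz i (by omega)) (hc j b) (hz j b)]
  exact (hg i j a b).2

end Pool.Agent.MP_875478_co
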