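import Pool.Agent.MP_875478_co.WCHole

set_option autoImplicit false
open SimpleGraph Relation

namespace Pool.Agent.MP_875478_co

variable {ι : Type} {H : SimpleGraph ι} {S S' : Set ι} {a b s y : ι}

lemma Rch.mono (h : Rch H S a b) (hS : S ⊆ S') : Rch H S' a b := by
  induction h with
  | refl => exact ReflTransGen.refl
  | tail _ e ih => exact ih.tail ⟨e.1, hS e.2⟩

lemma Rch.mem (h : Rch H S a b) : b = a ∨ b ∈ S := by
  cases h with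
  | refl => exact Or.inl rfl
  | tail _ e => exact Or.inr e.2

lemma Rch.rev (h : Rch H S a b) (ha : a ∈ S) : Rch H S b a := by
  induction h with
  | refl => exact ReflTransGen.refl
  | tail h' e ih =>
    exact ReflTransGen.head ⟨e.1.symm, (Rch.mem h').elim (fun d => d ▸ ha) id⟩ ih

/-- the last exit from the closed neighbourhood of the starting point -/
lemma Rch.exit {x : ι} (h : Rch H S s y) (hs : s = x ∨ H.Adj x s) (h1 : y ≠ x)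
    (h2 : ¬ H.Adj x y) : ∃ u w, H.Adj x u ∧ (u = s ∨ u ∈ S) ∧ H.Adj u w ∧
      w ∈ {v | v ∈ S ∧ v ≠ x ∧ ¬ H.Adj x v} ∧ Rch H {v | v ∈ S ∧ v ≠ x ∧ ¬ H.Adj x v} w y := by
  induction h with
  | refl => exact (hs.elim h1 h2).elim
  | @tail v y h' e ih =>
    by_cases d : H.Adj x v
    · exact ⟨v, y, d, Rch.mem h', e.1, ⟨e.2, h1, h2⟩, ReflTransGen.refl⟩
    · obtain ⟨u, w, a1, a2, a3, a4, a5⟩ := ih (fun d' => h2 (d' ▸ e.1)) d
      exact ⟨u, w, a1, a2, a3, a4, a5.tail ⟨e.1, e.2, h1, h2⟩⟩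

/-- the first entry into a set -/
lemma Rch.entry (h : Rch H S s y) (F : Set ι) (hs : s ∉ F) (hy : y ∈ F) :
    ∃ u w, Rch H (S \ F) s u ∧ H.Adj u w ∧ w ∈ S ∧ w ∈ F := by
  induction h using ReflTransGen.head_induction_on with
  | refl => exact (hs hy).elim
  | @head s v e _ ih =>
    by_cases d : v ∈ F
    · exact ⟨s, v, ReflTransGen.refl, e.1, e.2, d⟩
    · obtain ⟨u, w, a1, a2⟩ := ih d
      exact ⟨u, w, a1.head ⟨e.1, e.2, d⟩, a2⟩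

/-- Hayward's lemma: no long outer path between two vertices complete to an anticonnected set -/
lemma outer (h1 : HoleFree H) (h2 : HoleFree Hᶜ) {T O : Set ι} {x y w : ι}
    (hT : ∀ t ∈ T, ∀ t' ∈ T, Rch Hᶜ T t t') (hx : ∀ t ∈ T, H.Adj x t) (hy : ∀ t ∈ T, H.Adj y t)
    (hne : x ≠ y) (hxy : ¬ H.Adj x y) (hO : ∀ v ∈ O, v ∉ T ∧ ∃ t ∈ T, ¬ H.Adj v t)
    (hc : ∀ v ∈ O, H.Adj x v → ¬ H.Adj v y) (hw : Rch H O x w) (wy : H.Adj w y) : False := by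
  have yO : y ∉ O := fun a => let ⟨_, t, b, c⟩ := hO y a; c (hy t b)
  have r0 : Rch H (insert y O) x y :=
    (hw.mono (Set.subset_insert _ _)).tail ⟨wy, Set.mem_insert _ _⟩
  obtain ⟨w1, v, x1, a2, a3, a4, a5⟩ := r0.exit (Or.inl rfl) hne.symm hxy
  have o1 : w1 ∈ O := ((a2.resolve_left x1.ne').resolve_left fun e => hxy (e ▸ x1))
  have n1 : ¬ H.Adj w1 y := hc w1 o1 x1
  have n1' : y ≠ w1 := fun e => yO (e ▸ o1)
  obtain ⟨w2, v, e12, b2, b3, b4, b5⟩ :=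
    Rch.exit (x := w1) (a5.head ⟨a3, a4⟩) (Or.inl rfl) n1' n1
  obtain ⟨b2, x2', x2⟩ := b2.resolve_left e12.ne'
  have o2 : w2 ∈ O := b2.resolve_left fun e => n1 (e ▸ e12)
  obtain ⟨T1, t1, m1, k1⟩ := hO w1 o1
  obtain ⟨T2, t2, m2, k2⟩ := hO w2 o2
  have r1 : Rch Hᶜ T w2 t1 := (hT t2 m2 t1 m1).head ⟨⟨fun e => T2 (e ▸ m2), k2⟩, m2⟩
  by_cases n2 : H.Adj w2 y
  · exact h2.p4 (a := w2) (b := x) (c := y) (d := w1) (S := T) ⟨x2', fun e => x2 e.symm⟩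
      ⟨hne, hxy⟩ ⟨n1', fun e => n1 e.symm⟩ (fun e => e.2 n2) (fun e => e.2 x1)
      (fun e => e.2 e12.symm) n2.ne x1.ne
      (fun u hu => ⟨fun e => e.2 (hx u hu), fun e => e.2 (hy u hu)⟩) r1
      ⟨fun e => T1 (e ▸ m1), fun e => k1 e.symm⟩
  have n2' : y ≠ w2 := fun e => yO (e ▸ o2)
  obtain ⟨w3, w4, e23, c2, c3, c4, c5⟩ :=
    Rch.exit (x := w2) (b5.head ⟨b3, b4⟩) (Or.inl rfl) n2' n2
  obtain ⟨⟨-, -, x3⟩, e13', e13⟩ := c2.resolve_left e23.ne'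
  have rem : ∀ t ∈ T, ¬ H.Adj w1 t → H.Adj w2 t := fun t m k => by_contra fun k' =>
    h1.p4 (a := w3) (b := w2) (c := w1) (d := x) (S := {u | ¬ H.Adj w2 u ∧ ¬ H.Adj w1 u})
      e23.symm e12.symm x1.symm (fun e => e13 e.symm) (fun e => x2 e.symm) (fun e => x3 e.symm)
      e13' x2' (fun _ hu => hu)
      (((Rch.mono (S' := {u | ¬ H.Adj w2 u ∧ ¬ H.Adj w1 u}) c5
        fun u hu => ⟨hu.2.2, hu.1.2.2⟩).head ⟨c3, c4.2.2, c4.1.2.2⟩).tail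
        ⟨hy t m, k', k⟩) (hx t m).symm
  obtain ⟨u, v, d1, d2, d3, d4⟩ := r1.entry {v | ¬ H.Adj w1 v} (fun e => e e12) k1
  exact h2.p4 (a := w2) (b := y) (c := w1) (d := v) (S := T \ {v | ¬ H.Adj w1 v})
    ⟨n2'.symm, n2⟩ ⟨n1', fun e => n1 e.symm⟩ ⟨fun e => T1 (e ▸ d3), d4⟩
    (fun e => e.2 e12.symm) (fun e => e.2 (hy v d3)) (fun e => e.2 (rem v d3 d4)) e12.ne'
    (hy v d3).ne (fun u hu => ⟨fun e => e.2 (hy u hu.1), fun e => hu.2 e.2⟩) d1 d2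

/-- `a, b` is a two-pair of the subgraph induced on `U` -/
def TP (H : SimpleGraph ι) (U : Set ι) (a b : ι) : Prop :=
  a ∈ U ∧ b ∈ U ∧ a ≠ b ∧ ¬ H.Adj a b ∧ ¬ Rch H {u | u ∈ U ∧ ¬ (H.Adj a u ∧ H.Adj b u)} a b

/-- not a clique -/
def NC (H : SimpleGraph ι) (C : Set ι) : Prop := ∃ a ∈ C, ∃ b ∈ C, a ≠ b ∧ ¬ H.Adj a b

/-- vertices of `U` outside `Z` complete to `T` -/
def Cs (H : SimpleGraph ι) (U Z T : Set ι) : Set ι := {u | u ∈ U ∧ u ∉ Z ∧ ∀ t ∈ T, H.Adj u t}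

variable [Finite ι]

lemma tp_step (h1 : HoleFree H) (h2 : HoleFree Hᶜ) {U Z T₀ : Set ι}
    (ih : ∀ U' ⊂ U, NC H U' → ∃ a b, TP H U' a b) (hZ : ∀ u ∈ Z, ∀ w ∈ Z, ¬ H.Adj u w)
    (hT₀ : ∀ t ∈ T₀, ∃ z ∈ T₀, z ∈ Z ∧ Rch Hᶜ T₀ z t) (hN : NC H (Cs H U Z T₀))
    (hne : ∃ v ∈ U, v ∈ Z) : ∃ a b, a ∉ Z ∧ b ∉ Z ∧ TP H U a b := by
  obtain ⟨T, ⟨hT, hC⟩, hmax⟩ := (Set.toFinite {T : Set ι |
    (∀ t ∈ T, ∃ z ∈ T, z ∈ Z ∧ Rch Hᶜ T z t) ∧ NC H (Cs H U Z T)}).exists_maximal ⟨T₀, hT₀, hN⟩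
  set C := Cs H U Z T with hCd
  obtain ⟨a, b, aC, bC, hab, nab, hr⟩ := ih C ⟨fun u hu => hu.1, fun e =>
    let ⟨v, v1, v2⟩ := hne; (e v1).2.1 v2⟩ hC
  let O : Set ι := {u | u ∈ U ∧ u ∉ T ∧ u ∉ C}
  have O1 : ∀ w ∈ O, w ∉ Z → ∃ t ∈ T, ¬ H.Adj w t := fun w hw e => by
    by_contra d
    push Not at d
    exact hw.2.2 ⟨hw.1, e, d⟩
  have O2 : ∀ w ∈ O, ∀ x ∈ C, ∀ y ∈ C, x ≠ y → ¬ H.Adj x y → H.Adj x w → ¬ H.Adj w y := by
    intro w hw x hx y hy e1 e2 e3 e4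
    refine hw.2.1 (hmax (y := insert w T) ⟨?_, x, ⟨hx.1, hx.2.1, ?_⟩, y, ⟨hy.1, hy.2.1, ?_⟩, e1, e2⟩
      (Set.subset_insert _ _) (Set.mem_insert _ _))
    · have old : ∀ t ∈ T, ∃ z ∈ insert w T, z ∈ Z ∧ Rch Hᶜ (insert w T) z t := fun t ht =>
        let ⟨z, z1, z2, z3⟩ := hT t ht
        ⟨z, Set.mem_insert_of_mem _ z1, z2, z3.mono (Set.subset_insert _ _)⟩
      rintro t (rfl | ht)
      · by_cases e : t ∈ Z
        · exact ⟨t, Set.mem_insert _ _, e, ReflTransGen.refl⟩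
        · obtain ⟨t', m, k⟩ := O1 t hw e
          obtain ⟨z, z1, z2, z3⟩ := old t' m
          exact ⟨z, z1, z2, z3.tail ⟨⟨fun d => hw.2.1 (d ▸ m), fun d => k d.symm⟩,
            Set.mem_insert _ _⟩⟩
      · exact old t ht
    · rintro t (rfl | ht)
      · exact e3
      · exact hx.2.2 t ht
    · rintro t (rfl | ht)
      · exact e4.symm
      · exact hy.2.2 t ht
  have O3 : ∀ x ∈ C, ∀ y ∈ C, x ≠ y → ¬ H.Adj x y → ∀ w, Rch H O x w → ¬ H.Adj w y := by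
    intro x hx y hy e1 e2 w hw wy
    rcases T.eq_empty_or_nonempty with hE | ⟨t₀, ht₀⟩
    · have oz : ∀ v ∈ O, v ∈ Z := fun v hv => by_contra fun e => by simpa [hE] using O1 v hv e
      have : w = x ∨ (w ∈ O ∧ H.Adj x w) := by
        clear wy
        induction hw with
        | refl => exact Or.inl rfl
        | tail _ e ih' =>
          rcases ih' with rfl | d
          · exact Or.inr ⟨e.2, e.1⟩
          · exact (hZ _ (oz _ d.1) _ (oz _ e.2) e.1).elim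
      rcases this with rfl | d
      · exact e2 wy
      · exact O2 w d.1 x hx y hy e1 e2 d.2 wy
    · refine outer h1 h2 (T := T) (fun t ht t' ht' => ?_) hx.2.2 hy.2.2 e1 e2
        (fun v hv => ⟨hv.2.1, ?_⟩) (fun v hv => O2 v hv x hx y hy e1 e2) hw wy
      · obtain ⟨z, z1, z2, z3⟩ := hT t ht
        obtain ⟨z', z1', z2', z3'⟩ := hT t' ht'
        refine (z3.rev z1).trans ?_
        by_cases e : z = z'
        · exact e ▸ z3'
        · exact z3'.head ⟨⟨e, hZ z z2 z' z2'⟩, z1'⟩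
      · by_cases e : v ∈ Z
        · obtain ⟨z, z1, z2, -⟩ := hT t₀ ht₀
          exact ⟨z, z1, hZ v e z z2⟩
        · exact O1 v hv e
  refine ⟨a, b, aC.2.1, bC.2.1, aC.1, bC.1, hab, nab, fun r => hr ?_⟩
  have inv : ∀ x, Rch H {u | u ∈ U ∧ ¬ (H.Adj a u ∧ H.Adj b u)} a x → ∃ y ∈ C,
      Rch H {u | u ∈ C ∧ ¬ (H.Adj a u ∧ H.Adj b u)} a y ∧ Rch H O y x := by
    intro x hx
    induction hx with
    | refl => exact ⟨a, aC, ReflTransGen.refl, ReflTransGen.refl⟩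
    | @tail x x' _ e ih' =>
      obtain ⟨y, y1, y2, y3⟩ := ih'
      by_cases d : x' ∈ C
      · refine ⟨x', d, ?_, ReflTransGen.refl⟩
        by_cases d1 : y = x'
        · exact d1 ▸ y2
        · exact y2.tail ⟨by_contra fun d2 => O3 y y1 x' d d1 d2 x y3 e.1, d, e.2.2⟩
      · exact ⟨y, y1, y2, y3.tail ⟨e.1, e.2.1, fun d' => e.2.2 ⟨aC.2.2 _ d', bC.2.2 _ d'⟩, d⟩⟩
  obtain ⟨y, -, y2, y3⟩ := inv b r
  exact (y3.mem.resolve_right fun d => d.2.2 bC) ▸ y2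

/-- the two-pair theorem of Hayward, Hoang and Maffray -/
lemma exists_tp (h1 : HoleFree H) (h2 : HoleFree Hᶜ) (U : Set ι) :
    NC H U → ∃ a b, TP H U a b := by
  induction U using (wellFounded_lt (α := Set ι)).induction with
  | _ U ih =>
  intro hU
  by_cases h : ∃ v ∈ U, NC H (Cs H U {v} {v})
  · obtain ⟨v, hv, hN⟩ := h
    obtain ⟨a, b, -, -, e⟩ := tp_step h1 h2 ih (Z := {v}) (T₀ := {v}) (by simp)
      (by rintro t rfl; exact ⟨t, rfl, rfl, ReflTransGen.refl⟩) hN ⟨v, hv, rfl⟩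
    exact ⟨a, b, e⟩
  · obtain ⟨a, ha, b, hb, e1, e2⟩ := hU
    refine ⟨a, b, ha, hb, e1, e2, fun r => ?_⟩
    have inv : ∀ x, Rch H {u | u ∈ U ∧ ¬ (H.Adj a u ∧ H.Adj b u)} a x → x = a ∨ H.Adj a x := by
      intro x hx
      induction hx with
      | refl => exact Or.inl rfl
      | @tail x x' r' e ih' =>
        rcases ih' with rfl | d
        · exact Or.inr e.1
        · by_contra d'
          push Not at d'
          refine h ⟨x, ((Rch.mem r').resolve_left d.ne').1, a, ⟨ha, d.ne, ?_⟩, x',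
            ⟨e.2.1, e.1.ne', ?_⟩, d'.1.symm, d'.2⟩
          · rintro t rfl; exact d
          · rintro t rfl; exact e.1.symm
    exact (inv b r).elim (fun d => e1 d.symm) e2

/-- a two-pair that avoids a given independent set as far as possible -/
lemma exists_good_tp (h1 : HoleFree H) (h2 : HoleFree Hᶜ) {Z : Set ι}
    (hZ : ∀ u ∈ Z, ∀ w ∈ Z, ¬ H.Adj u w) {u w : ι} (huw : u ≠ w) (hn : ¬ H.Adj u w)
    (hw : w ∉ Z) : ∃ c z, z ∉ Z ∧ TP H Set.univ c z ∧ (c ∉ Z ∨ ∀ x, H.Adj c x → H.Adj z x) := by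
  by_cases hN : NC H (Cs H Set.univ Z ∅)
  · rcases Z.eq_empty_or_nonempty with rfl | ⟨v, hv⟩
    · obtain ⟨a, b, e⟩ := exists_tp h1 h2 Set.univ ⟨u, trivial, w, trivial, huw, hn⟩
      exact ⟨a, b, id, e, Or.inl id⟩
    · obtain ⟨a, b, e1, e2, e⟩ := tp_step h1 h2 (fun U' _ => exists_tp h1 h2 U') hZ (T₀ := ∅)
        (by simp) hN ⟨v, trivial, hv⟩
      exact ⟨a, b, e2, e, Or.inl e1⟩
  · have cl : ∀ x ∉ Z, x ≠ w → H.Adj x w := fun x a b => by_contra fun d =>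
      hN ⟨x, ⟨trivial, a, by simp⟩, w, ⟨trivial, hw, by simp⟩, b, d⟩
    have hu : u ∈ Z := by_contra fun a => hn (cl u a huw)
    have sub : ∀ x, H.Adj u x → H.Adj w x := fun x a =>
      (cl x (fun b => hZ u hu x b a) fun b => hn (b ▸ a)).symm
    refine ⟨u, w, hw, ⟨trivial, trivial, huw, hn, fun r => ?_⟩, Or.inr sub⟩
    rcases ReflTransGen.cases_head r with e | ⟨x, e, -⟩
    · exact huw e
    · exact e.2.2 ⟨e.1, sub x e.1⟩

omit [Finite ι] in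
lemma TP.coPair {G : SimpleGraph ι} {c z : ι} (h : TP Gᶜ Set.univ c z) :
    ∃ A, CoPair G c z A ∧ ((∀ x, Gᶜ.Adj c x → Gᶜ.Adj z x) → A = ∅) := by
  obtain ⟨-, -, hne, hn, hr⟩ := h
  set S := {u | u ∈ Set.univ ∧ ¬ (Gᶜ.Adj c u ∧ Gᶜ.Adj z u)} with hS
  have zS : z ∈ S := ⟨trivial, fun e => e.2.ne rfl⟩
  have adj : ∀ u w, u ≠ w → ¬ Gᶜ.Adj u w → G.Adj u w := fun u w a b => by_contra fun d => b ⟨a, d⟩
  refine ⟨{u | u ≠ c ∧ Rch Gᶜ S c u}, ⟨adj c z hne hn, fun e => e.1 rfl, fun a ha => ?_,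
    fun u hu uc uz => ?_, fun a ha b hb bz bc => ?_⟩, fun hsub => ?_⟩
  · exact adj z a (fun e => hr (e ▸ ha.2)) fun e => hr (ha.2.tail ⟨e.symm, zS⟩)
  · exact adj c u uc.symm fun e => hu ⟨uc, ReflTransGen.single ⟨e, trivial, fun d => d.2.2 uz⟩⟩
  · exact adj a b (fun e => hb (e ▸ ha)) fun e =>
      hb ⟨bc.ne', ha.2.tail ⟨e, trivial, fun d => d.1.2 bc⟩⟩
  · refine Set.eq_empty_of_forall_notMem fun u hu => ?_
    rcases ReflTransGen.cases_head hu.2 with e | ⟨x, e, -⟩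
    · exact hu.1 e.symm
    · exact e.2.2 ⟨e.1, hsub x e.1⟩

end Pool.Agent.MP_875478_co
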