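import Pool.Agent.MP_875478_co.WCShift
import Pool.Agent.MP_875478_co.WCPair

set_option autoImplicit false
open Finset

namespace Pool.Agent.MP_875478_co

variable {ι : Type} [Fintype ι] [DecidableEq ι] {G G' : SimpleGraph ι} {c z : ι} {A : Set ι}
  {r : ℕ}

/-- an elimination of the shifted graph lifts unless `z` or `c` is tight -/
lemma IsShift.thin (hs : IsShift G G' c z) (hp : CoPair G c z A) (h : Thin G' r univ) :
    Thin G r univ ∨ Tight G r z ∨ (A ≠ ∅ ∧ Tight G r c) := by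
  have cz := hp.adj.ne
  have ac : ∀ a ∈ A, a ≠ c := fun a ha e => hp.cA (e ▸ ha)
  have e1 : ∀ a ∈ A, G'.Adj c a := fun a ha =>
    (hs.hc a (ac a ha) (hp.hA a ha).ne').2 (Or.inr (hp.hA a ha))
  have e2 : ∀ b, b ≠ z → G.Adj c b → G'.Adj c b := fun b a d => (hs.hc b d.ne' a).2 (Or.inl d)
  have e3 : ∀ a ∈ A, ∀ b ∉ A, b ≠ z → G.Adj c b → G'.Adj a b := fun a ha b hb d e =>
    (hs.off a b (ac a ha) (hp.hA a ha).ne' e.ne' d).2 (hp.hAB a ha b hb d e)
  obtain ⟨X, hX, hT, hB⟩ := h.bag (fun D => c ∈ D ∨ (∃ a ∈ A, ∃ b ∉ A, b ≠ z ∧ G.Adj c b ∧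
      a ∈ D ∧ b ∈ D) ∨ (z ∈ D ∧ ∃ u ∈ D, G'.Adj z u))
    (fun D E hf => by
      simp only [mem_union]
      rintro ((a | a) | ⟨a, ha, b, hb, d, e, f | f, g | g⟩ | ⟨f | f, u, g | g, e⟩)
      · exact Or.inl (Or.inl a)
      · exact Or.inr (Or.inl a)
      · exact Or.inl (Or.inr (Or.inl ⟨a, ha, b, hb, d, e, f, g⟩))
      · exact ((hf a f b g).2 (e3 a ha b hb d e)).elim
      · exact ((hf b g a f).2 (e3 a ha b hb d e).symm).elim
      · exact Or.inr (Or.inr (Or.inl ⟨a, ha, b, hb, d, e, f, g⟩))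
      · exact Or.inl (Or.inr (Or.inr ⟨f, u, g, e⟩))
      · exact ((hf z f u g).2 e).elim
      · exact ((hf u g z f).2 e.symm).elim
      · exact Or.inr (Or.inr (Or.inr ⟨f, u, g, e⟩)))
    (fun D E hf => by
      have k : ∀ D E, Far G' D E → ∀ a ∈ A, ∀ b ∉ A, b ≠ z → G.Adj c b → a ∈ D → b ∈ D →
          ∀ u ∈ E, ¬ G'.Adj z u := fun D E hf a ha b hb d e f g u hu e' => by
        by_cases k : u ∈ A
        · exact (hf b g u hu).2 (e3 u k b hb d e).symm
        · exact (hf a f u hu).2 (e3 a ha u k e'.ne' ((hs.hz u).1 e').1)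
      rintro (a | ⟨a, ha, b, hb, d, e, f, g⟩ | ⟨f, u, g, e⟩)
        (a' | ⟨a', ha', b', hb', d', e', f', g'⟩ | ⟨f', u', g', e'⟩)
      · exact (hf c a c a').1 rfl
      · exact (hf c a a' f').2 (e1 a' ha')
      · exact (hf c a u' g').2 (e2 u' e'.ne' ((hs.hz u').1 e').1)
      · exact (hf a f c a').2 (e1 a ha).symm
      · exact (hf a f b' g').2 (e3 a ha b' hb' d' e')
      · exact k D E hf a ha b hb d e f g u' g' e'
      · exact (hf u g c a').2 (e2 u e.ne' ((hs.hz u).1 e).1).symm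
      · exact k E D hf.symm a' ha' b' hb' d' e' f' g' u g e
      · exact (hf z f z f').1 rfl)
    ∅ Thin.empty (by simp [Far]) (by simp) (Or.inl (mem_univ c))
  simp only [mem_compl, not_or, not_not, not_exists, not_and] at hB
  obtain ⟨cX, hB, hz⟩ := hB
  have hz' : z ∉ X → ∀ u, G.Adj c u → G.Adj z u → u ∈ X := fun a u b d =>
    by_contra fun e => hz a u e ((hs.hz u).2 ⟨b, d⟩)
  by_cases hA : ∀ a ∈ A, a ∈ X
  · refine (lift_core hX hT (fun u hu uz w => ?_) ?_).imp_right Or.inl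
    · have uc : u ≠ c := fun e => hu (e ▸ cX)
      have k := hp.hB u (fun e => hu (hA u e)) uc
      by_cases wc : w = c
      · rw [wc, G'.adj_comm, G.adj_comm, hs.hc u uc uz]; tauto
      by_cases wz : w = z
      · rw [wz, G'.adj_comm, G.adj_comm, hs.hz u]; tauto
      exact hs.off u w uc uz wc wz
    · refine (em _).imp_right fun a w e => ?_
      by_cases wc : w = c
      · exact wc ▸ cX
      by_cases wA : w ∈ A
      · exact hA w wA
      exact hz' a w (hp.hB w wA wc e) e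
  push Not at hA
  obtain ⟨a, ha, aX⟩ := hA
  have hB' : ∀ b ∉ A, b ≠ z → G.Adj c b → b ∈ X := fun b hb d e => hB a ha b hb d e aX
  have key := lift_core (G := G.comap (Equiv.swap c z)) (z := z) hX hT (fun u hu uz w => by
      have uc : u ≠ c := fun e => hu (e ▸ cX)
      have k : G.Adj c u → G.Adj z u := fun e => hp.hA u (by_contra fun d => hu (hB' u d uz e))
      rw [SimpleGraph.comap_adj, Equiv.swap_apply_of_ne_of_ne uc uz]
      by_cases wc : w = c
      · rw [wc, Equiv.swap_apply_left, G'.adj_comm, G.adj_comm, hs.hc u uc uz]; tauto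
      by_cases wz : w = z
      · rw [wz, Equiv.swap_apply_right, G'.adj_comm, G.adj_comm, hs.hz u]; tauto
      rw [Equiv.swap_apply_of_ne_of_ne wc wz]
      exact hs.off u w uc uz wc wz)
    ((em _).imp_right fun a w e => by
      by_cases wc : w = c
      · exact wc ▸ cX
      have wz : w ≠ z := e.ne'
      rw [SimpleGraph.comap_adj, Equiv.swap_apply_right, Equiv.swap_apply_of_ne_of_ne wc wz] at e
      by_cases wA : w ∈ A
      · exact hz' a w e (hp.hA w wA)
      exact hB' w wA wz e)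
  rcases key with k | k
  · exact Or.inl (by simpa using k.map (G' := G) (Equiv.swap c z) fun _ _ => Iff.rfl)
  · exact Or.inr (Or.inr ⟨Set.Nonempty.ne_empty ⟨a, ha⟩,
      by simpa using k.map (G' := G) (Equiv.swap c z) fun _ _ => Iff.rfl⟩)

open Classical in
/-- the number of ordered adjacent pairs -/
noncomputable def ecWc (G : SimpleGraph ι) : ℕ :=
  (univ.filter fun p : ι × ι => G.Adj p.1 p.2).card

omit [DecidableEq ι] in
lemma IsShift.ec_lt (hs : IsShift G G' c z) (h : G.Adj c z) : ecWc G' < ecWc G := by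
  classical
  have cz := h.ne
  have n1 : ¬ G'.Adj z c := fun e => G.irrefl ((hs.hz c).1 e).1
  let ψ : ι → ι → ι := fun y x => if x = c ∧ ¬ G.Adj c y then z else x
  have k1 : ∀ x y, G'.Adj x y → G.Adj (ψ y x) (ψ x y) ∧ (ψ y x, ψ x y) ≠ (c, z) := by
    intro x y e
    have a1 := hs.off x y
    have a2 := hs.hc x
    have a3 := hs.hc y
    have a4 := hs.hz x
    have a5 := hs.hz y
    have a6 := e.symm
    have a7 := e.ne
    have a8 := G.adj_comm x c
    have a9 := G.adj_comm x z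
    have b1 := G.irrefl (v := c)
    simp only [ψ, ne_eq, Prod.mk.injEq]
    by_cases xz : x = z <;> by_cases yz : y = z <;> by_cases xc : x = c <;>
      by_cases yc : y = c <;> grind
  have k2 : ∀ x y x' y', G'.Adj x y → G'.Adj x' y' → ψ y x = ψ y' x' → ψ x y = ψ x' y' →
      x = x' ∧ y = y' := by
    intro x y x' y' e e'
    have a4 := hs.hz x
    have a5 := hs.hz y
    have a4' := hs.hz x'
    have a5' := hs.hz y'
    have a6 := e.symm
    have a6' := e'.symm
    have a7 := e.ne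
    have a7' := e'.ne
    simp only [ψ]
    grind
  unfold ecWc
  rw [← card_image_of_injOn (f := fun p : ι × ι => (ψ p.2 p.1, ψ p.1 p.2))]
  · refine card_lt_card ⟨fun p hp => ?_, fun e => ?_⟩
    · obtain ⟨q, hq, rfl⟩ := mem_image.1 hp
      simpa using (k1 q.1 q.2 (by simpa using hq)).1
    · obtain ⟨q, hq, e'⟩ := mem_image.1 (e (x := (c, z)) (by simpa using h))
      exact (k1 q.1 q.2 (by simpa using hq)).2 e'
  · intro p hp q hq e
    simp only [coe_filter, mem_univ, true_and, Set.mem_ofPred_eq, Prod.mk.injEq] at hp hq e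
    have := k2 _ _ _ _ hp hq e.1 e.2
    exact Prod.ext this.1 this.2

omit [DecidableEq ι] in
lemma IsShift.psi {k : ℕ} (hs : IsShift G G' c z) (h : G.Adj c z) (hk : Psi G'ᶜ k) : Psi Gᶜ k := by
  refine Psi.shift (H := Gᶜ) (H' := G'ᶜ) h.ne (fun e => e.2 h) (fun u w a b d e f => ⟨f.1,
    fun g => f.2 ((hs.off u w a b d e).1 g)⟩) (fun u e => ⟨?_, fun g => ?_⟩)
    (fun u a b => ⟨a.1, fun g => ?_⟩) hk
  · rintro rfl
    exact e.elim (fun a => a.2 h) fun a => a.1 rfl
  · exact e.elim (fun a => a.2 ((hs.hz u).1 g).1) fun a => a.2 ((hs.hz u).1 g).2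
  · exact ((hs.hc u a.ne' b.ne').1 g).elim a.2 b.2

lemma thin_of_isolated (hr : 0 < r) (D : Finset ι) (h : ∀ u ∈ D, ∀ w, ¬ G.Adj u w) :
    Thin G r D := by
  induction D using Finset.induction_on with
  | empty => exact Thin.empty
  | @insert v D hv ih =>
    refine (ih fun u hu => h u (mem_insert_of_mem hu)).add hv (lt_of_le_of_lt ?_ hr)
    rw [Nat.le_zero, card_eq_zero, eq_empty_iff_forall_notMem]
    exact fun u hu => let ⟨_, d, a, b⟩ := mem_bd.1 hu; h d a u b

/-- a weakly chordal graph of treewidth at least `r` has corank `r + 1` -/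
theorem psi_of_not_thin (h1 : HoleFree G) (h2 : HoleFree Gᶜ) (h : ¬ Thin G r univ) :
    Psi Gᶜ (Fintype.card ι - (r + 1)) ∧ r + 1 ≤ Fintype.card ι := by
  classical
  induction hm : ecWc G using Nat.strong_induction_on generalizing G with
  | _ m ih =>
  have hZ : ∀ u, Tight G r u → ∀ w, Tight G r w → ¬ Gᶜ.Adj u w := fun u hu w hw e =>
    h (hu.thin_univ hw e.1 e.2)
  by_cases hE : ∃ u w, G.Adj u w ∧ ¬ Tight G r w
  · obtain ⟨u, w, e1, e2⟩ := hE
    obtain ⟨c, z, hz, hp, hc⟩ := exists_good_tp (H := Gᶜ) h2 (by rwa [compl_compl])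
      (Z := {u | Tight G r u}) hZ e1.ne (fun e => e.2 e1) e2
    obtain ⟨A, hA, hA'⟩ := hp.coPair
    obtain ⟨G', hs⟩ := exists_isShift G hA.adj.ne
    have := ih _ (hm ▸ hs.ec_lt hA.adj) (hs.holeFree hA h1) (hs.holeFree_compl hA h2)
      (fun e => (hs.thin hA e).elim h fun e => e.elim hz fun e =>
        hc.elim (fun a => a e.2) fun a => e.1 (hA' a)) rfl
    exact ⟨hs.psi hA.adj this.1, this.2⟩
  · push Not at hE
    have key : ∀ K : Finset ι, (∀ u ∈ K, ∀ w ∈ K, ¬ Gᶜ.Adj u w) → r + 1 ≤ K.card →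
        Psi Gᶜ (Fintype.card ι - (r + 1)) ∧ r + 1 ≤ Fintype.card ι := fun K a b =>
      ⟨(psi_of_indep K a).mono (by omega), b.trans (card_le_univ K)⟩
    rcases Nat.eq_zero_or_pos r with rfl | hr
    · obtain ⟨v, -⟩ : (univ : Finset ι).Nonempty :=
        nonempty_iff_ne_empty.2 fun e => h (e ▸ Thin.empty)
      exact key {v} (by simp) (by simp)
    · refine key (univ.filter (Tight G r)) (fun u hu w hw => hZ u (by simpa using hu) w
        (by simpa using hw)) (by_contra fun e => h (Thin.univ_of_compl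
          (thin_of_isolated hr _ fun u hu w a => ?_) (Nat.le_of_lt_succ (not_le.1 e))))
      simp [hE w u a.symm] at hu

lemma thin_card (G : SimpleGraph ι) : Thin G (Fintype.card ι) univ :=
  Thin.univ_of_compl (X := univ) (by simpa using Thin.empty) le_rfl

end Pool.Agent.MP_875478_co
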