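import Mathlib

set_option autoImplicit false
open Finset

namespace Pool.Agent.MP_875478_co

variable {ι : Type} [Fintype ι] [DecidableEq ι]

open Classical in
/-- the vertex boundary of a vertex set -/
noncomputable def bd (G : SimpleGraph ι) (D : Finset ι) : Finset ι :=
  univ.filter fun u => u ∉ D ∧ ∃ d ∈ D, G.Adj d u

lemma mem_bd {G : SimpleGraph ι} {D : Finset ι} {u : ι} :
    u ∈ bd G D ↔ u ∉ D ∧ ∃ d ∈ D, G.Adj d u := by simp [bd]

/-- disjoint and without edges in between -/
def Far (G : SimpleGraph ι) (D E : Finset ι) : Prop := ∀ u ∈ D, ∀ w ∈ E, u ≠ w ∧ ¬ G.Adj u w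

omit [Fintype ι] [DecidableEq ι] in
lemma Far.symm {G : SimpleGraph ι} {D E : Finset ι} (h : Far G D E) : Far G E D :=
  fun u hu w hw => ⟨(h w hw u hu).1.symm, fun a => (h w hw u hu).2 a.symm⟩

omit [Fintype ι] [DecidableEq ι] in
lemma Far.mono {G : SimpleGraph ι} {D E D' E' : Finset ι} (h : Far G D E) (h1 : D' ⊆ D)
    (h2 : E' ⊆ E) : Far G D' E' := fun u hu w hw => h u (h1 hu) w (h2 hw)

/-- the vertex set can be eliminated with bags of size at most `r` -/
inductive Thin (G : SimpleGraph ι) (r : ℕ) : Finset ι → Prop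
  | empty : Thin G r ∅
  | union {D E : Finset ι} : Thin G r D → Thin G r E → Far G D E → Thin G r (D ∪ E)
  | add {D : Finset ι} {v : ι} : Thin G r D → v ∉ D → (bd G (insert v D)).card < r →
      Thin G r (insert v D)

variable {G G' : SimpleGraph ι} {r : ℕ}

lemma bd_submod (G : SimpleGraph ι) (C B : Finset ι) :
    (bd G (C ∩ B)).card + (bd G (C ∪ B)).card ≤ (bd G C).card + (bd G B).card := by
  rw [← card_union_add_card_inter (bd G C), ← card_union_add_card_inter (bd G (C ∩ B))]
  refine add_le_add (card_le_card fun u => ?_) (card_le_card fun u => ?_)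
  · simp only [mem_union, mem_bd, mem_inter]
    grind
  · simp only [mem_union, mem_bd, mem_inter]
    grind

lemma Thin.inter {D : Finset ι} (h : Thin G r D) (B : Finset ι)
    (hB : ∀ C ⊆ D, (bd G (C ∩ B)).card ≤ (bd G C).card) : Thin G r (D ∩ B) := by
  induction h with
  | empty => simpa using Thin.empty
  | @union D E _ _ hf ih1 ih2 =>
    rw [union_inter_distrib_right]
    exact (ih1 fun C hC => hB C (hC.trans subset_union_left)).union
      (ih2 fun C hC => hB C (hC.trans subset_union_right))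
      (hf.mono inter_subset_left inter_subset_left)
  | @add D v _ hv hc ih =>
    have h1 := ih fun C hC => hB C (hC.trans (subset_insert _ _))
    by_cases hvB : v ∈ B
    · have h2 := hB _ Subset.rfl
      rw [insert_inter_of_mem hvB] at h2 ⊢
      exact h1.add (by simp [hv]) (h2.trans_lt hc)
    · rwa [insert_inter_of_notMem hvB]

lemma Thin.congr {D : Finset ι} (h : Thin G r D) (hG : ∀ u ∈ D, ∀ w, G.Adj u w ↔ G'.Adj u w) :
    Thin G' r D := by
  induction h with
  | empty => exact Thin.empty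
  | @union D E _ _ hf ih1 ih2 =>
    refine (ih1 fun u hu => hG u (mem_union_left _ hu)).union
      (ih2 fun u hu => hG u (mem_union_right _ hu)) fun u hu w hw => ⟨(hf u hu w hw).1, ?_⟩
    rw [← hG u (mem_union_left _ hu)]
    exact (hf u hu w hw).2
  | @add D v _ hv hc ih =>
    refine (ih fun u hu => hG u (mem_insert_of_mem hu)).add hv (lt_of_le_of_lt
      (card_le_card fun u => ?_) hc)
    simp only [mem_bd]
    rintro ⟨a, d, b, c⟩
    exact ⟨a, d, b, (hG d b u).2 c⟩

lemma Thin.fill {E X : Finset ι} (h : Thin G r E) (hX : X.card ≤ r) (hd : ∀ u ∈ E, u ∉ X)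
    (F : Finset ι) (hF : F ⊆ X) (hN : ∀ u ∈ E ∪ F, ∀ w, G.Adj u w → w ∈ E ∪ X) :
    Thin G r (E ∪ F) := by
  induction F using Finset.induction_on with
  | empty => simpa using h
  | @insert v F hv ih =>
    have hvX : v ∈ X := hF (mem_insert_self _ _)
    rw [union_insert] at hN ⊢
    refine (ih ((subset_insert _ _).trans hF) fun u hu => hN u (mem_insert_of_mem hu)).add
      (by simp only [mem_union, not_or]; exact ⟨fun a => hd v a hvX, hv⟩)
      (lt_of_lt_of_le (card_lt_card ⟨fun u => ?_, fun a => ?_⟩) hX)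
    · simp only [mem_bd]
      rintro ⟨a, d, b, c⟩
      have := hN d b u c
      simp only [mem_union, mem_insert] at a this
      tauto
    · simpa [mem_bd] using a hvX

lemma Thin.univ_of_compl {X : Finset ι} (h : Thin G r Xᶜ) (hX : X.card ≤ r) :
    Thin G r univ := by
  have := h.fill hX (by simp) X Subset.rfl (by simp [em'])
  rwa [union_comm, union_compl] at this

/-- some bag of an elimination meets every member of a bramble -/
lemma Thin.bag (Big : Finset ι → Prop)
    (hs : ∀ D E, Far G D E → Big (D ∪ E) → Big D ∨ Big E)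
    (ht : ∀ D E, Far G D E → Big D → Big E → False) {D : Finset ι} (h : Thin G r D) :
    ∀ E, Thin G r E → Far G D E → (D ∪ E)ᶜ.card ≤ r → Big D →
      ∃ X : Finset ι, X.card ≤ r ∧ Thin G r Xᶜ ∧ ¬ Big Xᶜ := by
  induction h with
  | empty => exact fun E _ _ _ hb => (ht ∅ ∅ (by simp [Far]) hb hb).elim
  | @union D D' h1 h2 hf ih1 ih2 =>
    intro E hE hfE hc hb
    rcases hs D D' hf hb with hb | hb
    · refine ih1 (D' ∪ E) (h2.union hE (hfE.mono subset_union_right Subset.rfl)) ?_
        (by rwa [← union_assoc]) hb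
      intro u hu w hw
      rcases mem_union.1 hw with a | a
      · exact hf u hu w a
      · exact hfE u (mem_union_left _ hu) w a
    · refine ih2 (D ∪ E) (h1.union hE (hfE.mono subset_union_left Subset.rfl)) ?_
        (by rwa [← union_assoc, union_comm D']) hb
      intro u hu w hw
      rcases mem_union.1 hw with a | a
      · exact hf.symm u hu w a
      · exact hfE u (mem_union_right _ hu) w a
  | @add D v h1 hv hc ih =>
    intro E hE hfE hcE hb
    set N := bd G (insert v D) with hN
    set F := (insert v D ∪ E)ᶜ \ N with hF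
    have hfar : Far G (insert v D) (E ∪ F) := by
      intro u hu w hw
      rcases mem_union.1 hw with a | a
      · exact hfE u hu w a
      · simp only [hF, hN, mem_sdiff, mem_compl, mem_union, mem_bd] at a
        exact ⟨fun b => a.1 (Or.inl (b ▸ hu)), fun b => a.2 ⟨fun c => a.1 (Or.inl c), u, hu, b⟩⟩
    have hE' : Thin G r (E ∪ F) := by
      refine hE.fill hcE (fun u hu => by simp [hu]) F sdiff_subset fun u hu w hw => ?_
      have : w ∉ insert v D := fun a => (hfar w a u hu).2 hw.symm
      simp only [mem_union, mem_compl]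
      tauto
    have hX : (insert v N)ᶜ = D ∪ (E ∪ F) := by
      ext u
      have a1 : u ∈ E → u ≠ v := fun a b => (hfE v (mem_insert_self _ _) u a).1 b.symm
      have a2 : u ∈ E → u ∉ N := fun a b => by
        obtain ⟨-, d, c1, c2⟩ := mem_bd.1 b
        exact (hfE d c1 u a).2 c2
      have a3 : u ∈ D → u ∉ N := fun a b => (mem_bd.1 b).1 (mem_insert_of_mem a)
      have a4 : u ∈ D → u ≠ v := fun a b => hv (b ▸ a)
      simp only [hF, mem_compl, mem_insert, mem_union, mem_sdiff]
      tauto
    have hcX : (insert v N).card ≤ r := (card_insert_le _ _).trans hc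
    have hfar' := hfar.mono (subset_insert v D) Subset.rfl
    by_cases hD : Big D
    · exact ih (E ∪ F) hE' hfar' (by rw [← hX, compl_compl]; exact hcX) hD
    · refine ⟨insert v N, hcX, hX ▸ h1.union hE' hfar', fun a => ?_⟩
      rw [hX] at a
      exact (hs _ _ hfar' a).elim hD fun b => ht _ _ hfar hb b

/-- `z` has degree at most `r` and everything outside its closed neighbourhood is thin -/
def Tight (G : SimpleGraph ι) (r : ℕ) (z : ι) : Prop :=
  (bd G {z}).card ≤ r ∧ Thin G r (insert z (bd G {z}))ᶜ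

lemma mem_out {z u : ι} : u ∈ (insert z (bd G {z}))ᶜ ↔ u ≠ z ∧ ¬ G.Adj z u := by
  simp only [mem_compl, mem_insert, mem_bd, mem_singleton]
  grind

/-- uncrossing: two non-adjacent tight vertices make the whole graph thin -/
lemma Tight.thin_univ {z z' : ι} (h : Tight G r z) (h' : Tight G r z') (hne : z ≠ z')
    (ha : ¬ G.Adj z z') : Thin G r univ := by
  classical
  set D := (insert z (bd G {z}))ᶜ with hD
  set D' := (insert z' (bd G {z'}))ᶜ with hD'
  have h0 : ({z'} : Finset ι) ∈ univ.filter fun W : Finset ι => z' ∈ W ∧ W ⊆ D := by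
    simp only [mem_filter, mem_univ, true_and, mem_singleton, singleton_subset_iff]
    exact mem_out.2 ⟨hne.symm, ha⟩
  obtain ⟨B, hB, hmin⟩ := exists_min_image _ (fun W => (bd G W).card) ⟨_, h0⟩
  simp only [mem_filter, mem_univ, true_and] at hB hmin
  have hS : (bd G B).card ≤ r := (hmin {z'} (by simpa using h0)).trans h'.1
  have hBt : Thin G r B := by
    have := h.2.inter B fun C hC => by
      have a1 := bd_submod G C B
      have a2 := hmin (C ∪ B) ⟨mem_union_right _ hB.1, union_subset hC hB.2⟩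
      omega
    rwa [inter_eq_right.2 hB.2] at this
  set A := (B ∪ bd G B)ᶜ with hA
  have mA : ∀ u, u ∈ A ↔ u ∉ B ∧ ∀ d ∈ B, ¬ G.Adj d u := fun u => by
    simp only [hA, mem_compl, mem_union, mem_bd]
    grind
  have hAD : A ⊆ D' := fun u hu => mem_out.2
    ⟨fun a => ((mA u).1 hu).1 (a ▸ hB.1), ((mA u).1 hu).2 z' hB.1⟩
  have hzA : z ∈ A := (mA z).2 ⟨fun a => (mem_out.1 (hB.2 a)).1 rfl,
    fun d a b => (mem_out.1 (hB.2 a)).2 b.symm⟩
  have hAt : Thin G r A := by
    have := h'.2.inter A fun C hC => by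
      have a1 := bd_submod G C A
      have hCA : C ∪ A ⊆ D' := union_subset hC hAD
      set W := (C ∪ A ∪ bd G (C ∪ A))ᶜ with hW
      have mW : ∀ u, u ∈ W ↔ u ∉ C ∪ A ∧ ∀ d ∈ C ∪ A, ¬ G.Adj d u := fun u => by
        simp only [hW, mem_compl, mem_union (s := C ∪ A), mem_bd]
        grind
      have a2 := hmin W ⟨(mW z').2 ⟨fun a => (mem_out.1 (hCA a)).1 rfl,
        fun d a b => (mem_out.1 (hCA a)).2 b.symm⟩, fun u hu => mem_out.2
        ⟨fun a => ((mW u).1 hu).1 (a ▸ mem_union_right _ hzA),
          ((mW u).1 hu).2 z (mem_union_right _ hzA)⟩⟩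
      have a3 : (bd G W).card ≤ (bd G (C ∪ A)).card := card_le_card fun u hu => by
        obtain ⟨b1, d, b2, b3⟩ := mem_bd.1 hu
        have b4 : u ∉ C ∪ A := fun c => ((mW d).1 b2).2 u c b3.symm
        rw [mW] at b1
        push Not at b1
        exact mem_bd.2 ⟨b4, b1 b4⟩
      have a4 : (bd G A).card ≤ (bd G B).card := card_le_card fun u hu => by
        obtain ⟨b1, d, b2, b3⟩ := mem_bd.1 hu
        have b4 : u ∉ B := fun c => ((mA d).1 b2).2 u c b3.symm
        rw [mA] at b1
        push Not at b1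
        exact mem_bd.2 ⟨b4, b1 b4⟩
      omega
    rwa [inter_eq_right.2 hAD] at this
  refine Thin.univ_of_compl (X := bd G B) ?_ hS
  have : (bd G B)ᶜ = B ∪ A := by
    ext u
    have : u ∈ B → u ∉ bd G B := fun a b => (mem_bd.1 b).1 a
    simp only [hA, mem_compl, mem_union]
    tauto
  rw [this]
  exact hBt.union hAt fun u hu w hw => ⟨fun a => ((mA w).1 hw).1 (a ▸ hu), ((mA w).1 hw).2 u hu⟩

/-- transfer of an elimination when two graphs differ only inside a bag and one more vertex -/
lemma lift_core {X : Finset ι} {z : ι} (hX : X.card ≤ r) (h : Thin G' r Xᶜ)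
    (hG : ∀ u ∉ X, u ≠ z → ∀ w, G'.Adj u w ↔ G.Adj u w)
    (hz : z ∈ X ∨ ∀ w, G.Adj z w → w ∈ X) : Thin G r univ ∨ Tight G r z := by
  by_cases hzX : z ∈ X
  · exact Or.inl ((h.congr fun u hu => hG u (mem_compl.1 hu)
      fun a => mem_compl.1 hu (a ▸ hzX)).univ_of_compl hX)
  have hN := hz.resolve_left hzX
  have h1 : Thin G' r (Xᶜ ∩ {z}ᶜ) := h.inter _ fun C hC => card_le_card fun u hu => by
    simp only [mem_bd, mem_inter, mem_compl, mem_singleton] at hu ⊢
    obtain ⟨a, d, ⟨b, b'⟩, c⟩ := hu
    refine ⟨fun e => a ⟨e, ?_⟩, d, b, c⟩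
    rintro rfl
    have hd := mem_compl.1 (hC b)
    exact hd (hN d ((hG d hd b' u).1 c).symm)
  have h2 : Thin G r (Xᶜ ∩ {z}ᶜ) := h1.congr fun u hu => by
    simp only [mem_inter, mem_compl, mem_singleton] at hu
    exact hG u hu.1 hu.2
  have hsub : bd G {z} ⊆ X := fun u hu => by
    simp only [mem_bd, mem_singleton, exists_eq_left] at hu
    exact hN u hu.2
  refine Or.inr ⟨(card_le_card hsub).trans hX, ?_⟩
  have h3 := h2.fill hX (fun u hu => mem_compl.1 (mem_inter.1 hu).1) (X \ bd G {z})
    sdiff_subset fun u hu w hw => by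
      simp only [mem_union, mem_inter, mem_compl, mem_singleton, mem_sdiff, mem_bd,
        exists_eq_left] at hu ⊢
      have : w ≠ z := by
        rintro rfl
        rcases hu with a | a
        · exact a.1 (hN u hw.symm)
        · exact a.2 ⟨fun b => hw.ne b, hw.symm⟩
      tauto
  convert h3 using 1
  ext u
  have a1 : u ∈ bd G {z} → u ∈ X := fun a => hsub a
  have a2 : u ∈ X → u ≠ z := fun a b => hzX (b ▸ a)
  simp only [mem_compl, mem_insert, mem_union, mem_inter, mem_singleton, mem_sdiff]
  tauto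

lemma bd_map (σ : ι ≃ ι) (hG : ∀ u w, G'.Adj (σ u) (σ w) ↔ G.Adj u w) (D : Finset ι) :
    bd G' (D.map σ.toEmbedding) = (bd G D).map σ.toEmbedding := by
  ext u
  obtain ⟨u, rfl⟩ := σ.surjective u
  simp only [mem_bd, mem_map_equiv, Equiv.symm_apply_apply]
  refine and_congr Iff.rfl ⟨fun ⟨d, a, b⟩ => ⟨σ.symm d, a, by simpa [← hG] using b⟩,
    fun ⟨d, a, b⟩ => ⟨σ d, by simpa using a, (hG _ _).2 b⟩⟩

lemma Thin.map (σ : ι ≃ ι) (hG : ∀ u w, G'.Adj (σ u) (σ w) ↔ G.Adj u w) {D : Finset ι}
    (h : Thin G r D) : Thin G' r (D.map σ.toEmbedding) := by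
  induction h with
  | empty => simpa using Thin.empty
  | @union D E _ _ hf ih1 ih2 =>
    rw [map_union]
    refine ih1.union ih2 fun u hu w hw => ?_
    obtain ⟨u, rfl⟩ := σ.surjective u
    obtain ⟨w, rfl⟩ := σ.surjective w
    simp only [mem_map_equiv, Equiv.symm_apply_apply] at hu hw
    simpa [hG] using hf u hu w hw
  | @add D v _ hv hc ih =>
    rw [map_insert]
    refine ih.add (by simpa using hv) ?_
    rw [← map_insert, bd_map σ hG, card_map]
    exact hc

lemma Tight.map (σ : ι ≃ ι) (hG : ∀ u w, G'.Adj (σ u) (σ w) ↔ G.Adj u w) {z : ι}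
    (h : Tight G r z) : Tight G' r (σ z) := by
  have a1 := bd_map σ hG {z}
  rw [map_singleton] at a1
  refine ⟨?_, ?_⟩
  · change (bd G' {σ.toEmbedding z}).card ≤ r
    rw [a1, card_map]; exact h.1
  · convert h.2.map σ hG using 1
    ext u
    obtain ⟨u, rfl⟩ := σ.surjective u
    simp only [mem_map_equiv, Equiv.symm_apply_apply, mem_out, hG, ne_eq,
      EmbeddingLike.apply_eq_iff_eq]

/-- a thin set can be coloured with `r` colours so that later neighbourhoods are rainbow -/
lemma Thin.colour {D : Finset ι} (h : Thin G r D) :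
    ∀ f : ι → ℕ, (∀ u ∈ bd G D, f u < r) → (∀ u ∈ bd G D, ∀ w ∈ bd G D, f u = f w → u = w) →
      ∃ g : ι → ℕ, (∀ u ∉ D, g u = f u) ∧ (∀ u ∈ D, g u < r) ∧
        (∀ u ∈ D, ∀ w, G.Adj u w → g u ≠ g w) ∧
        ∀ X : ι → ι → ℝ, (∀ u w, X u w = X w u) → (∀ u w, ¬ G.Adj u w → X u w = 0) →
          (∀ u ∈ D, ∀ k < r, ∑ w, X u w * (if g w = k then 1 else 0) = 0) →
            ∀ u ∈ D, ∀ w, X u w = 0 := by
  induction h with
  | empty => exact fun f _ _ => ⟨f, by simp⟩
  | @union D E _ _ hf ih1 ih2 =>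
    intro f f1 f2
    have s1 : bd G D ⊆ bd G (D ∪ E) := fun u hu => by
      obtain ⟨a, d, b, c⟩ := mem_bd.1 hu
      exact mem_bd.2 ⟨fun e => (mem_union.1 e).elim a fun e => (hf d b u e).2 c, d,
        mem_union_left _ b, c⟩
    have s2 : bd G E ⊆ bd G (D ∪ E) := fun u hu => by
      obtain ⟨a, d, b, c⟩ := mem_bd.1 hu
      exact mem_bd.2 ⟨fun e => (mem_union.1 e).elim (fun e => (hf u e d b).2 c.symm) a, d,
        mem_union_right _ b, c⟩
    obtain ⟨g, g1, g2, g3, g4⟩ := ih1 f (fun u hu => f1 u (s1 hu))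
      fun u hu w hw => f2 u (s1 hu) w (s1 hw)
    have e1 : ∀ u ∈ bd G E, g u = f u := fun u hu =>
      g1 u fun a => (mem_bd.1 (s2 hu)).1 (mem_union_left _ a)
    obtain ⟨g', k1, k2, k3, k4⟩ := ih2 g (fun u hu => e1 u hu ▸ f1 u (s2 hu))
      fun u hu w hw a => f2 u (s2 hu) w (s2 hw) (by rwa [← e1 u hu, ← e1 w hw])
    have e2 : ∀ u ∈ D, g' u = g u := fun u hu => k1 u fun a => (hf u hu u a).1 rfl
    have e3 : ∀ u ∈ D, ∀ w, G.Adj u w → g' w = g w := fun u hu w a =>
      k1 w fun b => (hf u hu w b).2 a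
    refine ⟨g', fun u hu => ?_, fun u hu => ?_, fun u hu w a => ?_, fun X a b c u hu => ?_⟩
    · rw [k1 u fun a => hu (mem_union_right _ a), g1 u fun a => hu (mem_union_left _ a)]
    · exact (mem_union.1 hu).elim (fun a => e2 u a ▸ g2 u a) (k2 u)
    · refine (mem_union.1 hu).elim (fun b => ?_) fun b => k3 u b w a
      rw [e2 u b, e3 u b w a]; exact g3 u b w a
    · refine (mem_union.1 hu).elim (g4 X a b (fun v hv k hk => ?_) u)
        (k4 X a b (fun v hv => c v (mem_union_right _ hv)) u)
      refine Eq.trans (sum_congr rfl fun w _ => ?_) (c v (mem_union_left _ hv) k hk)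
      by_cases d : G.Adj v w
      · rw [e3 v hv w d]
      · simp [b v w d]
  | @add D v _ hv hc ih =>
    intro f f1 f2
    obtain ⟨k, hk, hk'⟩ : ∃ k ∈ range r, k ∉ (bd G (insert v D)).image f :=
      exists_mem_notMem_of_card_lt_card (card_image_le.trans_lt (by simpa using hc))
    rw [mem_range] at hk
    simp only [mem_image, not_exists, not_and] at hk'
    have s1 : ∀ u ∈ bd G D, u ≠ v → u ∈ bd G (insert v D) := fun u hu a => by
      obtain ⟨b, d, c, e⟩ := mem_bd.1 hu
      exact mem_bd.2 ⟨by simp [a, b], d, mem_insert_of_mem c, e⟩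
    obtain ⟨g, g1, g2, g3, g4⟩ := ih (Function.update f v k)
      (fun u hu => by
        by_cases a : u = v
        · simpa [a] using hk
        · simpa [a] using f1 u (s1 u hu a))
      (fun u hu w hw => by
        by_cases a : u = v <;> by_cases b : w = v
        · simp [a, b]
        · simpa [a, b] using fun c => (hk' w (s1 w hw b) c.symm).elim
        · simpa [a, b] using fun c => (hk' u (s1 u hu a) c).elim
        · simpa [a, b] using f2 u (s1 u hu a) w (s1 w hw b))
    have e1 : g v = k := by simp [g1 v hv]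
    have e2 : ∀ u ∉ insert v D, g u = f u := fun u hu => by
      simp only [mem_insert, not_or] at hu
      simp [g1 u hu.2, hu.1]
    have e3 : ∀ w, G.Adj v w → w ∉ D → w ∈ bd G (insert v D) := fun w a b =>
      mem_bd.2 ⟨by simp [b, a.ne'], v, mem_insert_self _ _, a⟩
    refine ⟨g, e2, fun u hu => ?_, fun u hu w a => ?_, fun X a b c u hu => ?_⟩
    · exact (mem_insert.1 hu).elim (fun a => by rw [a, e1]; exact hk) (g2 u)
    · refine (mem_insert.1 hu).elim (fun b => ?_) fun b => g3 u b w a
      subst b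
      by_cases c : w ∈ D
      · exact (g3 w c u a.symm).symm
      · have d := e3 w a c
        rw [e1, e2 w (mem_bd.1 d).1]
        exact fun e => hk' w d e.symm
    · have d := g4 X a b fun u hu => c u (mem_insert_of_mem hu)
      refine (mem_insert.1 hu).elim (fun e => ?_) (d u)
      subst e
      intro w
      by_contra hw
      have nz : ∀ x, X u x ≠ 0 → x ∈ bd G (insert u D) := fun x hx =>
        e3 x (by_contra fun e => hx (b u x e)) fun e => hx ((a u x).trans (d x e u))
      have e := c u (mem_insert_self _ _) (f w) (f1 w (nz w hw))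
      rw [sum_eq_single w (fun x _ hx => ?_) (by simp)] at e
      · exact hw (by simpa [e2 w (mem_bd.1 (nz w hw)).1] using e)
      · by_cases e' : X u x = 0
        · simp [e']
        · have := mt (f2 x (nz x e') w (nz w hw)) hx
          simp [e2 x (mem_bd.1 (nz x e')).1, this]

end Pool.Agent.MP_875478_co
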