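import Pool.Agent.MP_875478_co.Peel
import Pool.Agent.MP_875478_co.WCThin

set_option autoImplicit false
open Set Topology Filter Matrix

namespace Pool.Agent.MP_875478_co

variable {ι κ : Type} [Fintype ι] [Fintype κ]

/-- there is a weak stress-free representation in dimension at most `k` -/
def Psi (H : SimpleGraph ι) (k : ℕ) : Prop :=
  ∃ (κ : Type) (_ : Fintype κ) (V : ι → κ → ℝ), Fintype.card κ ≤ k ∧ WRep H V

lemma WRep.anti {H H' : SimpleGraph ι} {V : ι → κ → ℝ} (h : WRep H' V) (hle : H ≤ H') :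
    WRep H V :=
  ⟨fun i j a => h.1 i j (hle a), fun X a b c => h.2 X a (fun i j d => b i j fun e => d (hle e)) c⟩

lemma Psi.anti {H H' : SimpleGraph ι} {k : ℕ} (h : Psi H' k) (hle : H ≤ H') : Psi H k :=
  let ⟨κ, i, V, a, b⟩ := h
  ⟨κ, i, V, a, b.anti hle⟩

lemma Psi.mono {H : SimpleGraph ι} {k l : ℕ} (h : Psi H k) (hle : k ≤ l) : Psi H l :=
  let ⟨κ, i, V, a, b⟩ := h
  ⟨κ, i, V, a.trans hle, b⟩

lemma psi_of_indep [DecidableEq ι] {H : SimpleGraph ι} (K : Finset ι)
    (hK : ∀ u ∈ K, ∀ w ∈ K, ¬ H.Adj u w) : Psi H (Fintype.card ι - K.card) := by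
  refine ⟨{v // v ∉ K}, inferInstance, fun i c => if i = c.1 then 1 else 0, by simp, ?_, ?_⟩
  · intro i j h
    refine Finset.sum_eq_zero fun c _ => ?_
    by_cases a : i = c.1
    · simp [← a, h.ne']
    · simp [a]
  · intro X a b c
    have d : ∀ i j, j ∉ K → X i j = 0 := fun i j hj => by simpa using c i ⟨j, hj⟩
    ext i j
    by_cases hj : j ∈ K
    · by_cases hi : i ∈ K
      · exact b i j (hK i hi j hj)
      · exact (a i j).trans (d j i hi)
    · exact d i j hj

lemma psi_of_thin [DecidableEq ι] {G : SimpleGraph ι} {r : ℕ} (h : Thin G r Finset.univ) :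
    Psi G r := by
  obtain ⟨g, -, g2, g3, g4⟩ := h.colour (fun _ => 0) (by simp [mem_bd]) (by simp [mem_bd])
  refine ⟨Fin r, inferInstance, fun u c => if g u = c then 1 else 0, by simp, ?_, ?_⟩
  · intro i j h
    refine Finset.sum_eq_zero fun c _ => ?_
    by_cases a : g i = c
    · simp [← a, (g3 i (Finset.mem_univ _) j h).symm]
    · simp [a]
  · intro X a b c
    ext i j
    exact g4 X a b (fun u _ k hk => c u ⟨k, hk⟩) i (Finset.mem_univ _) j

/-- the bilinear map `((W, W'), X) ↦ X W + (R X) W'` -/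
def mulS (κ : Type) (R : (ι → ι → ℝ) →ₗ[ℝ] (ι → ι → ℝ)) :
    ((ι → κ → ℝ) × (ι → κ → ℝ)) →ₗ[ℝ] (ι → ι → ℝ) →ₗ[ℝ] (ι → κ → ℝ) :=
  LinearMap.mk₂ ℝ (fun B X i c => ∑ j, (X i j * B.1 j c + R X i j * B.2 j c))
    (fun _ _ _ => by
      ext; simp only [Prod.fst_add, Prod.snd_add, Pi.add_apply, ← Finset.sum_add_distrib]
      exact Finset.sum_congr rfl fun _ _ => by ring)
    (fun _ _ _ => by
      ext; simp only [Prod.smul_fst, Prod.smul_snd, Pi.smul_apply, smul_eq_mul, Finset.mul_sum]
      exact Finset.sum_congr rfl fun _ _ => by ring)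
    (fun _ _ _ => by
      ext; simp only [map_add, Pi.add_apply, ← Finset.sum_add_distrib]
      exact Finset.sum_congr rfl fun _ _ => by ring)
    (fun _ _ _ => by
      ext; simp only [map_smul, Pi.smul_apply, smul_eq_mul, Finset.mul_sum]
      exact Finset.sum_congr rfl fun _ _ => by ring)

/-- undoing a shift between two non-adjacent vertices costs no dimension -/
theorem WRep.shift {H H' : SimpleGraph ι} {c z : ι} (hcz : c ≠ z) (hn : ¬ H.Adj c z)
    (h1 : ∀ u w, u ≠ c → u ≠ z → w ≠ c → w ≠ z → H.Adj u w → H'.Adj u w)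
    (h2 : ∀ u, H.Adj c u ∨ H.Adj z u → H'.Adj z u)
    (h3 : ∀ u, H.Adj c u → H.Adj z u → H'.Adj c u)
    {V : ι → κ → ℝ} (hV : WRep H' V) : ∃ W : ι → κ → ℝ, WRep H W := by
  classical
  let P : ι → Prop := fun u => H.Adj c u ∧ ¬ H.Adj z u
  have Pc : ¬ P c := fun h => h.1.ne rfl
  have Pz : ¬ P z := fun h => hn h.1
  let φ : (ι → κ → ℝ) × ℝ → ι → ι → ℝ := fun q i j =>
    q.2 * ((if i = z ∧ P j then ∑ k, q.1 c k * q.1 j k else 0) +
      if j = z ∧ P i then ∑ k, q.1 c k * q.1 i k else 0)
  have hφ : ContDiff ℝ 1 φ := contDiff_pi.2 fun i => contDiff_pi.2 fun j => by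
    refine contDiff_snd.mul (ContDiff.add ?_ ?_) <;> split_ifs <;> fun_prop
  let R : (ι → ι → ℝ) →ₗ[ℝ] (ι → ι → ℝ) :=
    { toFun := fun X i j => (if i = c ∧ P j then X z j else 0) + if j = c ∧ P i then X z i else 0
      map_add' := fun X Y => by
        ext i j; simp only [Pi.add_apply]; split_ifs <;> ring
      map_smul' := fun a X => by
        ext i j; simp only [Pi.smul_apply, smul_eq_mul, RingHom.id_apply]; split_ifs <;> ring }
  have hN : {q : (ι → κ → ℝ) × ℝ | ∀ X ∈ suppOn H', mulS κ R (q.1, q.2 • q.1) X = 0 → X = 0} ∈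
      𝓝 (V, (0 : ℝ)) := by
    refine ((isOpen_inj (mulS κ R) (suppOn H')).preimage
      (continuous_fst.prodMk (continuous_snd.smul continuous_fst))).mem_nhds ?_
    intro X hX h0
    refine hV.2 X hX.1 hX.2 fun i k => ?_
    simpa [mulS] using congrFun (congrFun h0 i) k
  obtain ⟨q, hq, ht, hE⟩ := repair hV φ hφ (fun W i j _ => by simp [φ])
    (fun q i j => by simp only [φ, add_comm]) hN
  let W : ι → κ → ℝ := fun i => if i = c then q.1 z + q.2 • q.1 c else q.1 i
  have Wc : W c = q.1 z + q.2 • q.1 c := by simp [W]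
  have Wu : ∀ u, u ≠ c → W u = q.1 u := fun u h => by simp [W, h]
  have oz : ∀ u, H.Adj z u → q.1 z ⬝ᵥ q.1 u = 0 := fun u h => by
    have a := hE z u (h2 u (Or.inr h))
    have b : ¬ P u := fun e => e.2 h
    simpa [φ, b, Pz] using a
  have oc : ∀ u, H.Adj c u → W c ⬝ᵥ W u = 0 := fun u h => by
    have uz : u ≠ z := fun e => hn (e ▸ h)
    rw [Wc, Wu u h.ne', add_dotProduct, smul_dotProduct, smul_eq_mul]
    by_cases b : H.Adj z u
    · have a := hE c u (h3 u h b)
      simp only [φ, hcz, uz, false_and, if_false, add_zero, mul_zero] at a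
      rw [oz u b, a]; simp
    · have a := hE z u (h2 u (Or.inl h))
      have b' : P u := ⟨h, b⟩
      simpa [φ, b', uz, dotProduct] using a
  refine ⟨W, fun i j h => ?_, fun X a b e => ?_⟩
  · by_cases ic : i = c
    · exact ic ▸ oc j (ic ▸ h)
    by_cases jc : j = c
    · rw [dotProduct_comm]; exact jc ▸ oc i (jc ▸ h.symm)
    rw [Wu i ic, Wu j jc]
    by_cases iz : i = z
    · exact iz ▸ oz j (iz ▸ h)
    by_cases jz : j = z
    · rw [dotProduct_comm]; exact jz ▸ oz i (jz ▸ h.symm)
    simpa [φ, iz, jz] using hE i j (h1 i j ic iz jc jz h)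
  · let y : ι → ℝ := fun u => if P u then 0 else q.2 * X c u
    let Y : ι → ι → ℝ := fun i j =>
      if i = c then y j else if j = c then y i else
        X i j + (if i = z then X c j else 0) + if j = z then X c i else 0
    have Xd : ∀ i, X i i = 0 := fun i => b i i (H.irrefl)
    have Xcz : X c z = 0 := b c z hn
    have Xzc : X z c = 0 := (a _ _).trans Xcz
    have XP : ∀ u, P u → X z u = 0 := fun u h => b z u h.2
    have yc : y c = 0 := by simp [y, Xd]
    have yz : y z = 0 := by simp [y, Xcz]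
    have hy : ∀ u, ¬ H'.Adj c u → y u = 0 := fun u h => by
      by_cases d : P u
      · simp [y, d]
      · have : ¬ H.Adj c u := fun f => d ⟨f, fun g => h (h3 u f g)⟩
        simp [y, b c u this]
    have hz : ∀ u, ¬ H'.Adj z u → X z u = 0 ∧ X c u = 0 := fun u h =>
      ⟨b z u fun d => h (h2 u (Or.inr d)), b c u fun d => h (h2 u (Or.inl d))⟩
    have split : ∀ f : ι → ℝ, ∑ j, f j = f c + f z + ∑ j ∈ (Finset.univ.erase c).erase z, f j :=
      fun f => by
        rw [add_assoc, Finset.add_sum_erase _ f (by simp [hcz.symm]),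
          Finset.add_sum_erase _ f (Finset.mem_univ c)]
    have ms : ∀ j, j ∈ (Finset.univ.erase c).erase z → j ≠ c ∧ j ≠ z := fun j h => by
      simp only [Finset.mem_erase] at h; exact ⟨h.2.1, h.1⟩
    have hY : Y = 0 := by
      refine hq Y ⟨fun i j => ?_, fun i j h => ?_⟩ ?_
      · simp only [Y]
        by_cases ic : i = c <;> by_cases jc : j = c <;> simp [ic, jc, a i j, add_right_comm]
      · by_cases ic : i = c
        · simp only [Y, ic, if_true]; exact hy j (ic ▸ h)
        by_cases jc : j = c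
        · simp only [Y, ic, jc, if_true, if_false]; exact hy i fun d => h (jc ▸ d.symm)
        simp only [Y, ic, jc, if_false]
        by_cases iz : i = z
        · subst iz
          by_cases jz : j = i
          · simp [jz, Xd, Xcz]
          · simp [jz, hz j h]
        by_cases jz : j = z
        · subst jz
          have := hz i fun d => h d.symm
          simp [iz, this.2, a i j, this.1]
        simp [iz, jz, b i j fun d => h (h1 i j ic iz jc jz d)]
      · ext i k
        change ∑ j, (Y i j * q.1 j k + ((if i = c ∧ P j then Y z j else 0) +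
          if j = c ∧ P i then Y z i else 0) * (q.2 * q.1 j k)) = 0
        have ec := e c k
        have ez := e z k
        have ei := e i k
        rw [split] at ec ez ei ⊢
        rw [Finset.sum_congr rfl fun j hj => by rw [Wu j (ms j hj).1]] at ec ez ei
        simp only [Xd, Xcz, Xzc, zero_mul, zero_add] at ec ez
        by_cases ic : i = c
        · subst ic
          rw [Finset.sum_congr rfl (g := fun j => q.2 * (X i j * q.1 j k)) fun j hj => ?_,
            ← Finset.mul_sum, ec]
          · simp [Y, yc, yz, Pc, Pz]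
          · by_cases d : P j
            · simp [Y, y, d, (ms j hj).1, (ms j hj).2, hcz.symm, XP j d, Pc]; ring
            · simp [Y, y, d, Pc]; ring
        by_cases iz : i = z
        · subst iz
          rw [Finset.sum_congr rfl (g := fun j => X i j * q.1 j k + X c j * q.1 j k)
            fun j hj => ?_, Finset.sum_add_distrib, ec, ez]
          · simp [Y, yz, ic, Pz, Xd, Xcz]
          · simp [Y, ic, (ms j hj).1, (ms j hj).2]; ring
        rw [Finset.sum_congr rfl (g := fun j => X i j * q.1 j k) fun j hj => ?_]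
        · rw [Wc, Wu z hcz.symm, a i c] at ei
          refine Eq.trans ?_ ei
          congr 1
          by_cases d : P i
          · simp [Y, y, d, ic, iz, hcz.symm, XP i d]; ring
          · simp [Y, y, d, ic, iz, hcz.symm]; ring
        · simp [Y, ic, iz, (ms j hj).1, (ms j hj).2]
    have k1 : ∀ u, u ≠ c → u ≠ z → X c u = 0 ∧ X z u = 0 := fun u uc uz => by
      have d1 := congrFun (congrFun hY c) u
      have d2 := congrFun (congrFun hY z) u
      simp only [Y, if_true, hcz.symm, uc, uz, if_false, add_zero, Pi.zero_apply] at d1 d2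
      by_cases d : P u
      · exact ⟨by simpa [XP u d] using d2, XP u d⟩
      · have : X c u = 0 := by simpa [y, d, ht] using d1
        exact ⟨this, by simpa [this] using d2⟩
    have k2 : ∀ u, X c u = 0 ∧ X z u = 0 := fun u => by
      by_cases uc : u = c
      · simp [uc, Xd, Xzc]
      by_cases uz : u = z
      · simp [uz, Xd, Xcz]
      exact k1 u uc uz
    ext i j
    by_cases ic : i = c
    · exact ic ▸ (k2 j).1
    by_cases jc : j = c
    · exact (a i j).trans (jc ▸ (k2 i).1)
    simpa [Y, ic, jc, (k2 i).1, (k2 j).1] using congrFun (congrFun hY i) j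

lemma Psi.shift {H H' : SimpleGraph ι} {c z : ι} {k : ℕ} (hcz : c ≠ z) (hn : ¬ H.Adj c z)
    (h1 : ∀ u w, u ≠ c → u ≠ z → w ≠ c → w ≠ z → H.Adj u w → H'.Adj u w)
    (h2 : ∀ u, H.Adj c u ∨ H.Adj z u → H'.Adj z u)
    (h3 : ∀ u, H.Adj c u → H.Adj z u → H'.Adj c u) (h : Psi H' k) : Psi H k :=
  let ⟨κ, i, _, a, b⟩ := h
  let ⟨W, hW⟩ := b.shift hcz hn h1 h2 h3
  ⟨κ, i, W, a, hW⟩

end Pool.Agent.MP_875478_co
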