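import Pool.Agent.MP_875478_co.WCShift

set_option autoImplicit false
open Matrix

namespace Pool.Agent.MP_875478_co

variable {ι : Type} [Fintype ι]

open Classical in
/-- the number of neighbours of `v` of rank below `i` -/
noncomputable def cnt (H : SimpleGraph ι) (r : ι → ℕ) (v : ι) (i : ℕ) : ℕ :=
  (Finset.univ.filter fun x => H.Adj v x ∧ r x < i).card

lemma Psi.step {H H' : SimpleGraph ι} (e : ι → ℤ) (leaf : ι → Prop) (par : ι → ι)
    (h1 : ∀ i j, H.Adj i j → 0 ≤ e i + e j)
    (h2 : ∀ i j, H.Adj i j → e i + e j = 0 → (leaf i ∧ j = par i) ∨ (leaf j ∧ i = par j))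
    (h3 : ∀ w, leaf w → ¬ leaf (par w) ∧ e w + e (par w) = 0)
    (h4 : ∀ i j, H.Adj i j → e i + e j ≠ 0 → H'.Adj i j) {k : ℕ} (h : Psi H' k) :
    Psi H (k + 1) := by
  obtain ⟨κ, _, V, a, b⟩ := h
  obtain ⟨W, hW⟩ := WRep.step e leaf par h1 h2 h3 h4 b
  exact ⟨Option κ, inferInstance, W, by simpa using a, hW⟩

/-- putting back the edges at one vertex costs one dimension -/
lemma Psi.del {H H' : SimpleGraph ι} (w : ι)
    (h4 : ∀ i j, i ≠ w → j ≠ w → H.Adj i j → H'.Adj i j) {k : ℕ} (h : Psi H' k) :
    Psi H (k + 1) := by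
  classical
  refine Psi.step (fun i => if i = w then -1 else 1) (fun i => i ≠ w) (fun _ => w)
    (fun i j a => ?_) (fun i j a b => ?_) (fun v a => ?_) (fun i j a b => ?_) h
  · have := a.ne
    by_cases hi : i = w <;> by_cases hj : j = w <;> simp_all
  · have := a.ne
    by_cases hi : i = w <;> by_cases hj : j = w <;> simp_all
  · simp [a]
  · have := a.ne
    refine h4 i j ?_ ?_ a <;> rintro rfl <;> simp_all [eq_comm]

lemma Psi.addback (P : Finset ι) : ∀ {H H' : SimpleGraph ι}
    (_ : ∀ i j, i ∉ P → j ∉ P → H.Adj i j → H'.Adj i j) {k : ℕ} (_ : Psi H' k),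
    Psi H (k + P.card) := by
  classical
  induction P using Finset.induction_on with
  | empty => exact fun h4 k h => h.anti fun i j a => h4 i j (by simp) (by simp) a
  | insert w P hw ih =>
    intro H H' h4 k h
    let H'' : SimpleGraph ι :=
      { Adj := fun i j => H.Adj i j ∧ i ≠ w ∧ j ≠ w
        symm := ⟨fun i j a => ⟨a.1.symm, a.2.2, a.2.1⟩⟩
        loopless := ⟨fun i a => a.1.ne rfl⟩ }
    rw [Finset.card_insert_of_notMem hw, ← add_assoc]
    refine Psi.del (H' := H'') w (fun i j a b d => ⟨d, a, b⟩) (ih (fun i j a b d => ?_) h)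
    exact h4 i j (by simp [a, d.2.1]) (by simp [b, d.2.2]) d.1

lemma cnt_eq_zero {H : SimpleGraph ι} {r : ι → ℕ} {v : ι} {i : ℕ} :
    cnt H r v i = 0 ↔ ∀ x, H.Adj v x → i ≤ r x := by
  simp [cnt, Finset.filter_eq_empty_iff]

/-- along a minimum adjacency order the largest back degree is enough -/
theorem psi_of_order (r : ι → ℕ) (hr : Function.Injective r) : ∀ (k : ℕ) (H : SimpleGraph ι),
    (∀ u v, r u < r v → cnt H r u (r u) ≤ cnt H r v (r u)) → (∀ v, cnt H r v (r v) ≤ k) →
    Psi H k := by
  classical
  intro k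
  induction k with
  | zero =>
    intro H _ h
    have h0 : ∀ u v, ¬ H.Adj u v := fun u v a => by
      have a1 := cnt_eq_zero.1 (Nat.le_zero.1 (h u)) v a
      have a2 := cnt_eq_zero.1 (Nat.le_zero.1 (h v)) u a.symm
      exact a.ne (hr (le_antisymm a1 a2))
    simpa using psi_of_indep (H := H) Finset.univ fun u _ v _ => h0 u v
  | succ k ih =>
    intro H ho h
    obtain ⟨N, hN⟩ : ∃ N : ℕ, ∀ x, r x < N :=
      ⟨Finset.univ.sup r + 1, fun x => Nat.lt_succ_of_le (Finset.le_sup (Finset.mem_univ x))⟩
    let leaf : ι → Prop := fun v => cnt H r v (r v) ≠ 0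
    have hp : ∀ v, ∃ u, leaf v → H.Adj v u ∧ r u < r v ∧ ∀ x, H.Adj v x → r u ≤ r x := by
      intro v
      by_cases hv : leaf v
      · obtain ⟨x, hx⟩ := Finset.card_ne_zero.1 hv
        simp only [Finset.mem_filter, Finset.mem_univ, true_and] at hx
        obtain ⟨u, hu, hm⟩ := Finset.exists_min_image (Finset.univ.filter (H.Adj v)) r
          ⟨x, by simp [hx.1]⟩
        simp only [Finset.mem_filter, Finset.mem_univ, true_and] at hu hm
        exact ⟨u, fun _ => ⟨hu, (hm x hx.1).trans_lt hx.2, hm⟩⟩
      · exact ⟨v, fun a => absurd a hv⟩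
    choose par hp using hp
    have hc : ∀ v, leaf v → ¬ leaf (par v) := fun v hv a => by
      have := ho _ _ (hp v hv).2.1
      rw [cnt_eq_zero.2 (hp v hv).2.2] at this
      exact a (Nat.le_zero.1 this)
    have hl : ∀ i j, H.Adj i j → leaf i ∨ leaf j := fun i j a => by
      by_contra b
      simp only [leaf, not_or, not_not] at b
      exact a.ne (hr (le_antisymm (cnt_eq_zero.1 b.1 j a) (cnt_eq_zero.1 b.2 i a.symm)))
    let e : ι → ℤ := fun v => if leaf v then N - r (par v) else r v - N
    have he : ∀ v x, leaf v → H.Adj v x → 0 ≤ e v + e x ∧ (e v + e x = 0 ↔ x = par v) := by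
      intro v x hv a
      by_cases hx : leaf x
      · have b1 := hN (par v)
        have b2 := hN (par x)
        have b3 : x ≠ par v := fun d => hc v hv (d ▸ hx)
        simp only [e, hv, hx, if_true, b3, iff_false]
        omega
      · have b1 := (hp v hv).2.2 x a
        simp only [e, hv, hx, if_true, if_false]
        refine ⟨by omega, fun d => hr (by omega), fun d => by rw [← d]; ring⟩
    let H' : SimpleGraph ι :=
      { Adj := fun i j => H.Adj i j ∧ e i + e j ≠ 0
        symm := ⟨fun i j a => ⟨a.1.symm, by rw [add_comm]; exact a.2⟩⟩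
        loopless := ⟨fun i a => a.1.ne rfl⟩ }
    have k0 : ∀ v i, cnt H' r v i ≤ cnt H r v i := fun v i =>
      Finset.card_le_card fun x => by
        simp only [Finset.mem_filter, Finset.mem_univ, true_and]
        exact fun a => ⟨a.1.1, a.2⟩
    have k1 : ∀ v i, leaf v → cnt H' r v i =
        ((Finset.univ.filter fun x => H.Adj v x ∧ r x < i).erase (par v)).card := by
      intro v i hv
      unfold cnt
      congr 1
      ext x
      simp only [Finset.mem_filter, Finset.mem_univ, true_and, Finset.mem_erase]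
      exact ⟨fun a => ⟨fun d => a.1.2 ((he v x hv a.1.1).2.2 d), a.1.1, a.2⟩,
        fun a => ⟨⟨a.2.1, fun d => a.1 ((he v x hv a.2.1).2.1 d)⟩, a.2.2⟩⟩
    have k2 : ∀ v, leaf v → cnt H' r v (r v) = cnt H r v (r v) - 1 := fun v hv => by
      rw [k1 v _ hv, Finset.card_erase_of_mem (by simp [(hp v hv).1, (hp v hv).2.1])]
      rfl
    have k3 : ∀ v i, leaf v → cnt H r v i - 1 ≤ cnt H' r v i := fun v i hv => by
      rw [k1 v _ hv]
      exact Finset.pred_card_le_card_erase
    refine Psi.step (H' := H') e leaf par (fun i j a => ?_) (fun i j a b => ?_)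
      (fun w hw => ⟨hc w hw, (he w _ hw (hp w hw).1).2.2 rfl⟩) (fun i j a b => ⟨a, b⟩)
      (ih H' (fun u v a => ?_) fun v => ?_)
    · rcases hl i j a with d | d
      · exact (he i j d a).1
      · rw [add_comm]; exact (he j i d a.symm).1
    · rcases hl i j a with d | d
      · exact Or.inl ⟨d, (he i j d a).2.1 b⟩
      · exact Or.inr ⟨d, (he j i d a.symm).2.1 (by rwa [add_comm])⟩
    · by_cases hu : leaf u
      · have b := ho u v a
        have hv : leaf v := fun d => hu (Nat.le_zero.1 (b.trans (le_of_eq
          (cnt_eq_zero.2 fun x hx => a.le.trans (cnt_eq_zero.1 d x hx)))))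
        have := k3 v (r u) hv
        rw [k2 u hu]
        omega
      · have := k0 u (r u)
        simp only [leaf, not_not] at hu
        omega
    · have b := h v
      by_cases hv : leaf v
      · rw [k2 v hv]; omega
      · have := k0 v (r v)
        simp only [leaf, not_not] at hv
        omega

lemma exists_order (H : SimpleGraph ι) : ∃ r : ι → ℕ, Function.Injective r ∧
    ∀ u v, r u < r v → cnt H r u (r u) ≤ cnt H r v (r u) := by
  classical
  have key : ∀ m, m ≤ Fintype.card ι → ∃ (T : Finset ι) (r : ι → ℕ), T.card = m ∧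
      (∀ x ∈ T, r x < m) ∧ (∀ x, x ∉ T → r x = Fintype.card ι) ∧
      (∀ x ∈ T, ∀ y ∈ T, r x = r y → x = y) ∧
      ∀ u ∈ T, ∀ v, r u < r v → cnt H r u (r u) ≤ cnt H r v (r u) := by
    intro m
    induction m with
    | zero => exact fun _ => ⟨∅, fun _ => Fintype.card ι, by simp⟩
    | succ m ih =>
      intro hm
      obtain ⟨T, r, a1, a2, a3, a4, a5⟩ := ih (by omega)
      obtain ⟨u, hu, hmin⟩ := Finset.exists_min_image Tᶜ (fun v => cnt H r v m)
        (Finset.card_pos.1 (by rw [Finset.card_compl]; omega))
      rw [Finset.mem_compl] at hu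
      have b1 : ∀ x, x ≠ u → Function.update r u m x = r x := fun x h => by simp [h]
      have b2 : ∀ x ∈ T, Function.update r u m x = r x := fun x h => b1 x fun d => hu (d ▸ h)
      have b3 : Function.update r u m u = m := by simp
      have b4 : ∀ v i, i ≤ m → cnt H (Function.update r u m) v i = cnt H r v i := by
        intro v i hi
        unfold cnt
        congr 1
        ext x
        by_cases d : x = u
        · have := a3 u hu
          simp only [Finset.mem_filter, d, b3]
          constructor <;> rintro ⟨_, _, f⟩ <;> omega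
        · simp [b1 x d]
      refine ⟨insert u T, Function.update r u m, by rw [Finset.card_insert_of_notMem hu, a1],
        fun x hx => ?_, fun x hx => ?_, fun x hx y hy => ?_, fun x hx v => ?_⟩
      · rcases Finset.mem_insert.1 hx with rfl | d
        · omega
        · have := a2 x d
          rw [b2 x d]; omega
      · rw [Finset.mem_insert, not_or] at hx
        rw [b1 x hx.1, a3 x hx.2]
      · rcases Finset.mem_insert.1 hx with rfl | d <;> rcases Finset.mem_insert.1 hy with rfl | f
        · simp
        · have := a2 y f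
          rw [b3, b2 y f]; omega
        · have := a2 x d
          rw [b3, b2 x d]; omega
        · rw [b2 x d, b2 y f]; exact a4 x d y f
      · rcases Finset.mem_insert.1 hx with rfl | d
        · rw [b3, b4 _ _ le_rfl, b4 _ _ le_rfl]
          intro f
          refine hmin v (Finset.mem_compl.2 fun g => ?_)
          have := a2 v g
          rw [b2 v g] at f
          omega
        · have g := a2 x d
          rw [b2 x d, b4 _ _ g.le, b4 _ _ g.le]
          intro f
          refine a5 x d v ?_
          by_cases j : v = u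
          · rw [j, a3 u hu]; omega
          · rwa [b1 v j] at f
  obtain ⟨T, r, a1, -, -, a4, a5⟩ := key _ le_rfl
  have hT : T = Finset.univ := Finset.eq_univ_of_card T a1
  subst hT
  exact ⟨r, fun x y => a4 x (by simp) y (by simp), fun u => a5 u (by simp)⟩

open Classical in
/-- the maximum degree is enough -/
theorem psi_of_deg {H : SimpleGraph ι} {k : ℕ}
    (h : ∀ v, (Finset.univ.filter (H.Adj v)).card ≤ k) : Psi H k := by
  obtain ⟨r, a, b⟩ := exists_order H
  refine psi_of_order r a k H b fun v => le_trans (Finset.card_le_card fun x => ?_) (h v)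
  simp only [Finset.mem_filter, Finset.mem_univ, true_and]
  exact fun d => d.1

end Pool.Agent.MP_875478_co
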