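import Pool.Agent.MP_875478_co.WPlace

set_option autoImplicit false
open Matrix

namespace Pool.Agent.MP_875478_co

variable {ι : Type} [Fintype ι] [DecidableEq ι]

/-- the complement of `G` inside `S` needs at least `|S| - c - 1` dimensions -/
def NoLow (G : SimpleGraph ι) (S : Finset ι) (c : ℕ) : Prop :=
  ∀ j, j + c + 2 ≤ S.card → ¬ Psi (On Gᶜ S) j

open Classical in
/-- the number of ordered adjacent pairs in `S` -/
noncomputable def ec (G : SimpleGraph ι) (S : Finset ι) : ℕ :=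
  ∑ x ∈ S, ∑ y ∈ S, if G.Adj x y then 1 else 0

open Classical in
lemma NoLow.low {G : SimpleGraph ι} {S : Finset ι} {c : ℕ} (h : NoLow G S c) (hS : S.Nonempty) :
    ∃ w ∈ S, (S.filter (G.Adj w)).card ≤ c := by
  by_contra hc
  push Not at hc
  have key : ∀ v ∈ S, (Finset.univ.filter ((On Gᶜ S).Adj v)).card + c + 2 ≤ S.card := by
    intro v hv
    have a1 := hc v hv
    have a2 : Disjoint (Finset.univ.filter ((On Gᶜ S).Adj v)) (S.filter (G.Adj v)) :=
      Finset.disjoint_left.2 fun x a b => (Finset.mem_filter.1 a).2.1.2 (Finset.mem_filter.1 b).2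
    have a3 : Finset.univ.filter ((On Gᶜ S).Adj v) ∪ S.filter (G.Adj v) ⊆ S.erase v := by
      intro x hx
      rcases Finset.mem_union.1 hx with a | a <;> rw [Finset.mem_filter] at a
      · exact Finset.mem_erase.2 ⟨a.2.ne', a.2.2.2⟩
      · exact Finset.mem_erase.2 ⟨a.2.ne', a.1⟩
    have a4 := Finset.card_le_card a3
    have a5 := Finset.card_pos.2 hS
    rw [Finset.card_union_of_disjoint a2, Finset.card_erase_of_mem hv] at a4
    omega
  obtain ⟨v, hv⟩ := hS
  have a := key v hv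
  refine h (S.card - c - 2) (by omega) (psi_of_deg fun u => ?_)
  by_cases hu : u ∈ S
  · have := key u hu
    exact Nat.le_sub_of_add_le (Nat.le_sub_of_add_le (by rwa [add_right_comm]))
  · rw [Finset.filter_eq_empty_iff.2 fun x _ d => hu d.2.1]
    simp

omit [Fintype ι] in
open Classical in
lemma ec_insert (G : SimpleGraph ι) {S : Finset ι} {w : ι} (hw : w ∉ S) :
    ec G (insert w S) = ec G S + 2 * (S.filter (G.Adj w)).card := by
  simp only [ec, Finset.sum_insert hw, Finset.sum_add_distrib, SimpleGraph.irrefl, if_false,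
    Finset.card_filter, G.adj_comm _ w]
  ring

open Classical in
/-- contracting a vertex into its worst neighbour -/
lemma NoLow.contract {G : SimpleGraph ι} {S : Finset ι} {c : ℕ} {w : ι} (hw : w ∉ S)
    (h : NoLow G (insert w S) c) : ∃ (G' : SimpleGraph ι) (g : ℕ), G ≤ G' ∧ NoLow G' S c ∧
      ec G S + 2 * g ≤ ec G' S ∧ ∀ v ∈ S.filter (G.Adj w), nd G (S.filter (G.Adj w)) v ≤ g := by
  have hc := Finset.card_insert_of_notMem hw
  rcases (S.filter (G.Adj w)).eq_empty_or_nonempty with hN | hN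
  · refine ⟨G, 0, le_rfl, fun j hj d => h (j + 1) (by omega) ?_, le_rfl, by simp [hN]⟩
    exact Psi.del (H := On Gᶜ (insert w S)) (H' := On Gᶜ S) w (fun a b ha hb e =>
      ⟨e.1, (Finset.mem_insert.1 e.2.1).resolve_left ha,
        (Finset.mem_insert.1 e.2.2).resolve_left hb⟩) d
  obtain ⟨u, hu, hm⟩ := Finset.exists_max_image _ (nd G (S.filter (G.Adj w))) hN
  rw [Finset.mem_filter] at hu
  let G' : SimpleGraph ι :=
    { Adj := fun a b => a ≠ b ∧ (G.Adj a b ∨ (a = u ∧ G.Adj w b) ∨ (b = u ∧ G.Adj w a))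
      symm := ⟨fun a b d => ⟨d.1.symm, d.2.elim (fun e => Or.inl e.symm) fun e => Or.inr e.symm⟩⟩
      loopless := ⟨fun a d => d.1 rfl⟩ }
  refine ⟨G', _, fun a b d => ⟨d.ne, Or.inl d⟩, fun j hj d => h (j + 1) (by omega) ?_, ?_, hm⟩
  · let H : SimpleGraph ι :=
      { Adj := fun a b => a ≠ b ∧ (a = w ∨ b = w ∨ (On G'ᶜ S).Adj a b)
        symm := ⟨fun a b d => ⟨d.1.symm, d.2.elim (fun e => Or.inr (Or.inl e))
          fun e => e.elim Or.inl fun e => Or.inr (Or.inr e.symm)⟩⟩
        loopless := ⟨fun a d => d.1 rfl⟩ }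
    have hH : Psi H (j + 1) := Psi.del w (fun a b ha hb e =>
      (e.2.resolve_left ha).resolve_left hb) d
    refine Psi.shift (H' := H) (c := u) (z := w) hu.2.ne' (fun e => e.1.2 hu.2.symm)
      (fun a b a1 a2 b1 b2 e => ⟨e.ne, Or.inr (Or.inr ⟨⟨e.ne, fun f => ?_⟩,
        (Finset.mem_insert.1 e.2.1).resolve_left a2,
        (Finset.mem_insert.1 e.2.2).resolve_left b2⟩)⟩)
      (fun a e => ⟨?_, Or.inl rfl⟩) (fun a e f => ⟨e.ne, Or.inr (Or.inr ⟨⟨e.ne, fun k => ?_⟩,
        hu.1, (Finset.mem_insert.1 e.2.2).resolve_left f.ne'⟩)⟩) hH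
    · rcases f.2 with k | k | k
      · exact e.1.2 k
      · exact a1 k.1
      · exact b1 k.1
    · rintro rfl
      rcases e with e | e
      · exact e.1.2 hu.2.symm
      · exact e.ne rfl
    · rcases k.2 with l | l | l
      · exact e.1.2 l
      · exact f.1.2 l.2
      · exact e.ne l.1.symm
  · let Y := (S.filter (G.Adj w)).filter fun y => y ≠ u ∧ ¬ G.Adj u y
    have hY : Y ⊆ S := (Finset.filter_subset _ _).trans (Finset.filter_subset _ _)
    have mY : ∀ y, y ∈ Y → G.Adj w y ∧ y ≠ u ∧ ¬ G.Adj u y := fun y hy => by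
      simp only [Y, Finset.mem_filter] at hy
      exact ⟨hy.1.2, hy.2⟩
    have s1 : ∑ x ∈ S, ∑ y ∈ S, (if x = u ∧ y ∈ Y then 1 else 0) = Y.card := by
      rw [Finset.sum_eq_single u (fun b _ hb => by simp [hb]) fun d => absurd hu.1 d]
      simp [Finset.inter_eq_right.2 hY]
    have s2 : ∑ x ∈ S, ∑ y ∈ S, (if y = u ∧ x ∈ Y then 1 else 0) = Y.card := by
      rw [Finset.sum_comm, s1]
    change ec G S + 2 * Y.card ≤ _
    rw [two_mul]
    nth_rewrite 1 [← s1]
    rw [← s2]
    simp only [ec, ← Finset.sum_add_distrib]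
    refine Finset.sum_le_sum fun x _ => Finset.sum_le_sum fun y _ => ?_
    by_cases d1 : G.Adj x y
    · have e1 : ¬ (x = u ∧ y ∈ Y) := fun e => (mY y e.2).2.2 (e.1 ▸ d1)
      have e2 : ¬ (y = u ∧ x ∈ Y) := fun e => (mY x e.2).2.2 (e.1 ▸ d1.symm)
      have e3 : G'.Adj x y := ⟨d1.ne, Or.inl d1⟩
      simp only [d1, e1, e2, e3, if_true, if_false]
      omega
    by_cases d2 : x = u ∧ y ∈ Y
    · have e2 : ¬ (y = u ∧ x ∈ Y) := fun e => (mY y d2.2).2.1 e.1
      have e3 : G'.Adj x y := ⟨fun e => (mY y d2.2).2.1 (e ▸ d2.1),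
        Or.inr (Or.inl ⟨d2.1, (mY y d2.2).1⟩)⟩
      rw [if_neg d1, if_pos d2, if_neg e2, if_pos e3]
      omega
    by_cases d3 : y = u ∧ x ∈ Y
    · have e3 : G'.Adj x y := ⟨fun e => (mY x d3.2).2.1 (e ▸ d3.1),
        Or.inr (Or.inr ⟨d3.1, (mY x d3.2).1⟩)⟩
      rw [if_neg d1, if_neg d2, if_pos d3, if_pos e3]
      omega
    rw [if_neg d1, if_neg d2, if_neg d3]
    exact Nat.zero_le _

/-- the elimination lemma -/
theorem elim (c : ℕ) : ∀ (m : ℕ) (G : SimpleGraph ι) (S : Finset ι), S.card = m → NoLow G S c →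
    ∃ p : ℕ → ℕ, (∀ γ, Good G S (c + γ + 1) γ (p γ)) ∧
      ∀ N, ec G S + 2 * ∑ γ ∈ Finset.range N, p γ ≤ 2 * ∑ i ∈ Finset.range m, min c i := by
  classical
  intro m
  induction m with
  | zero =>
    intro G S hS _
    rw [Finset.card_eq_zero] at hS
    subst hS
    refine ⟨fun _ => 0, fun γ => ⟨∅, le_rfl, le_rfl, 0, ⟨fun i j d => by simp, fun X _ b _ => ?_⟩,
      fun I hI _ t ht _ i => ht i fun d => by simpa using hI d⟩, fun N => by simp [ec]⟩
    ext i j
    exact b i j fun d => by simpa using d.2.1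
  | succ m ih =>
    intro G S hS h
    obtain ⟨w, hw, hd⟩ := h.low (Finset.card_pos.1 (by omega))
    obtain ⟨S, hw', rfl⟩ : ∃ S', w ∉ S' ∧ S = insert w S' :=
      ⟨S.erase w, Finset.notMem_erase _ _, (Finset.insert_erase hw).symm⟩
    rw [Finset.card_insert_of_notMem hw'] at hS
    rw [Finset.filter_insert, if_neg (G.irrefl)] at hd
    obtain ⟨G', g, a1, a2, a3, a4⟩ := h.contract hw'
    obtain ⟨p, b1, b2⟩ := ih G' S (by omega) a2
    refine ⟨fun γ => p γ + if γ < g then 1 else 0, fun γ => ?_, fun N => ?_⟩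
    · by_cases d : γ < g
      · simp only [d, if_true]
        exact ((b1 γ).anti a1).pay w
      · simp only [d, if_false, add_zero]
        exact ((b1 γ).anti a1).place hw' (by omega) fun v hv => (a4 v hv).trans (by omega)
    · have c1 := b2 N
      have c2 : ∑ γ ∈ Finset.range N, (if γ < g then 1 else 0) ≤ g := by
        rw [← Finset.card_filter]
        refine (Finset.card_le_card fun x hx => ?_).trans (Finset.card_range g).le
        exact Finset.mem_range.2 (Finset.mem_filter.1 hx).2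
      have c3 : (S.filter (G.Adj w)).card ≤ m := (Finset.card_filter_le _ _).trans (by omega)
      have c4 : (S.filter (G.Adj w)).card ≤ min c m := le_min hd c3
      rw [ec_insert G hw', Finset.sum_add_distrib, Finset.sum_range_succ]
      omega

lemma sum_min (c d : ℕ) : 2 * ∑ i ∈ Finset.range (c + d), min c i + c * (c + 1) =
    2 * c * (c + d) := by
  induction d with
  | zero =>
    rw [add_zero, Finset.sum_congr rfl fun i hi => min_eq_right (Finset.mem_range.1 hi).le]
    have := Finset.sum_range_id_mul_two c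
    rcases c with _ | c
    · simp
    · simp only [Nat.add_sub_cancel] at this
      nlinarith
  | succ d ih =>
    rw [← add_assoc, Finset.sum_range_succ, min_eq_left (Nat.le_add_right c d)]
    nlinarith

/-- the edge count forced by the two least dimensions -/
theorem edge_bound (G : SimpleGraph ι) {a b c g : ℕ} (ha : ∀ j, Psi G j → a ≤ j)
    (hb : ∀ j, Psi Gᶜ j → b ≤ j) (hc : b + c + 1 = Fintype.card ι)
    (hg : Fintype.card ι + g ≤ a + b) :
    ec G Finset.univ + g * (g + 1) + c * (c + 1) ≤ 2 * c * Fintype.card ι := by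
  obtain ⟨p, h1, h2⟩ := elim c _ G Finset.univ Finset.card_univ fun j hj d => by
    have := hb j (d.anti fun x y e => ⟨e, Finset.mem_univ _, Finset.mem_univ _⟩)
    rw [Finset.card_univ] at hj
    omega
  have h3 : ∑ γ ∈ Finset.range g, g ≤ ∑ γ ∈ Finset.range g, (p γ + γ) :=
    Finset.sum_le_sum fun γ _ => by
      have := ha _ (h1 γ).psi
      omega
  have h4 := Finset.sum_range_id_mul_two g
  have h5 := h2 g
  have h6 := sum_min c (b + 1)
  rw [show c + (b + 1) = Fintype.card ι by omega] at h6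
  rw [Finset.sum_add_distrib, Finset.sum_const, Finset.card_range, smul_eq_mul] at h3
  rcases g with _ | g
  · omega
  · simp only [Nat.add_sub_cancel] at h4
    nlinarith

lemma ec_compl (G : SimpleGraph ι) : Fintype.card ι * Fintype.card ι ≤
    ec G Finset.univ + ec Gᶜ Finset.univ + Fintype.card ι := by
  classical
  have s1 : ∑ x : ι, ∑ y : ι, (if x = y then 1 else 0) = Fintype.card ι := by simp
  have s2 : ∑ x : ι, ∑ y : ι, 1 = Fintype.card ι * Fintype.card ι := by simp
  rw [← s2]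
  nth_rewrite 1 [← s1]
  simp only [ec, ← Finset.sum_add_distrib]
  refine Finset.sum_le_sum fun x _ => Finset.sum_le_sum fun y _ => ?_
  by_cases d1 : G.Adj x y
  · rw [if_pos d1]; omega
  by_cases d2 : x = y
  · rw [if_pos d2]; omega
  · rw [if_pos (show Gᶜ.Adj x y from ⟨d2, d1⟩)]; omega

/-- the two dimensions exceed the number of vertices by `g - 1` with `5 g² + 2 g n ≤ n²` -/
theorem psi_add_psi (G : SimpleGraph ι) (hn : 0 < Fintype.card ι) : ∃ a b g : ℕ, Psi G a ∧
    Psi Gᶜ b ∧ a + b + 1 ≤ Fintype.card ι + g ∧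
    5 * g ^ 2 + 2 * g * Fintype.card ι ≤ Fintype.card ι ^ 2 := by
  classical
  have h0 : ∀ H : SimpleGraph ι, ∃ j, Psi H j := fun H => ⟨_, psi_of_indep ∅ (by simp)⟩
  have ha : ∀ j, Psi G j → Nat.find (h0 G) ≤ j := fun j => Nat.find_min' _
  have hb : ∀ j, Psi Gᶜ j → Nat.find (h0 Gᶜ) ≤ j := fun j => Nat.find_min' _
  refine ⟨_, _, Nat.find (h0 G) + Nat.find (h0 Gᶜ) + 1 - Fintype.card ι, Nat.find_spec (h0 G),
    Nat.find_spec (h0 Gᶜ), by omega, ?_⟩
  generalize Nat.find (h0 G) = a at *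
  generalize Nat.find (h0 Gᶜ) = b at *
  by_cases hg : a + b + 1 ≤ Fintype.card ι
  · simp [Nat.sub_eq_zero_of_le hg]
  obtain ⟨g, hg'⟩ : ∃ g, a + b = Fintype.card ι + g := ⟨a + b - Fintype.card ι, by omega⟩
  rw [hg', add_assoc, Nat.add_sub_cancel_left]
  obtain ⟨v⟩ := Fintype.card_pos_iff.1 hn
  have a1 := ha _ (psi_of_indep {v} (by simp))
  have a2 := hb _ (psi_of_indep {v} (by simp))
  rw [Finset.card_singleton] at a1 a2
  obtain ⟨c, hc⟩ : ∃ c, b + c + 1 = Fintype.card ι := ⟨Fintype.card ι - 1 - b, by omega⟩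
  obtain ⟨c', hc'⟩ : ∃ c, a + c + 1 = Fintype.card ι := ⟨Fintype.card ι - 1 - a, by omega⟩
  have b1 := edge_bound G ha hb hc hg'.ge
  have b2 := edge_bound Gᶜ (g := g) hb (by rwa [compl_compl]) hc' (by omega)
  have b3 := ec_compl G
  have b4 : Fintype.card ι = c + c' + g + 2 := by omega
  have b5 : 5 * g ^ 2 + 2 * g * Fintype.card ι + 6 * g + 4 * Fintype.card ι ≤
      Fintype.card ι ^ 2 := by
    rw [b4] at b1 b2 b3 ⊢
    nlinarith [sq_nonneg ((c : ℤ) - c')]
  have b6 : 2 * g + 4 ≤ Fintype.card ι := by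
    refine Nat.le_of_mul_le_mul_right ?_ hn
    nlinarith
  nlinarith

end Pool.Agent.MP_875478_co
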