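import Pool.Agent.MP_875478_co.WDelta

set_option autoImplicit false
open Matrix

namespace Pool.Agent.MP_875478_co

variable {ι : Type} [Fintype ι] [DecidableEq ι]

/-- the edges of `G` inside `S` -/
def On (G : SimpleGraph ι) (S : Finset ι) : SimpleGraph ι where
  Adj i j := G.Adj i j ∧ i ∈ S ∧ j ∈ S
  symm := ⟨fun _ _ a => ⟨a.1.symm, a.2.2, a.2.1⟩⟩
  loopless := ⟨fun _ a => a.1.ne rfl⟩

open Classical in
/-- the number of non-neighbours of `v` in `I` -/
noncomputable def nd (G : SimpleGraph ι) (I : Finset ι) (v : ι) : ℕ :=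
  (I.filter fun y => y ≠ v ∧ ¬ G.Adj v y).card

/-- the vectors indexed by `I` are linearly independent -/
def Ind {k : ℕ} (x : ι → Fin k → ℝ) (I : Finset ι) : Prop :=
  ∀ t : ι → ℝ, (∀ i, i ∉ I → t i = 0) → (∀ c, ∑ j, t j * x j c = 0) → ∀ i, t i = 0

/-- all but `p` vertices of `S` are placed in dimension `k`, near-cliques being independent -/
def Good (G : SimpleGraph ι) (S : Finset ι) (k γ p : ℕ) : Prop :=
  ∃ T ⊆ S, S.card ≤ T.card + p ∧ ∃ x : ι → Fin k → ℝ, WRep (On G T) x ∧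
    ∀ I ⊆ T, (∀ v ∈ I, nd G I v ≤ γ) → Ind x I

omit [Fintype ι] in
lemma nd_mono {G G' : SimpleGraph ι} (h : G ≤ G') {I J : Finset ι} (hI : I ⊆ J) (v : ι) :
    nd G' I v ≤ nd G J v :=
  Finset.card_le_card fun y => by
    simp only [Finset.mem_filter]
    exact fun a => ⟨hI a.1, a.2.1, fun d => a.2.2 (h d)⟩

lemma Good.anti {G G' : SimpleGraph ι} (h : G ≤ G') {S : Finset ι} {k γ p : ℕ}
    (hG : Good G' S k γ p) : Good G S k γ p := by
  obtain ⟨T, a1, a2, x, a3, a4⟩ := hG
  exact ⟨T, a1, a2, x, a3.anti fun i j d => ⟨h d.1, d.2⟩,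
    fun I hI d => a4 I hI fun v hv => (nd_mono h le_rfl v).trans (d v hv)⟩

lemma Good.pay {G : SimpleGraph ι} {S : Finset ι} {k γ p : ℕ} (hG : Good G S k γ p) (w : ι) :
    Good G (insert w S) k γ (p + 1) := by
  obtain ⟨T, a1, a2, x, a3, a4⟩ := hG
  have := Finset.card_insert_le w S
  exact ⟨T, a1.trans (Finset.subset_insert _ _), by omega, x, a3, a4⟩

omit [Fintype ι] [DecidableEq ι] in
lemma exists_perp {k : ℕ} (x : ι → Fin k → ℝ) (M : Finset ι) (h : M.card < k) :
    ∃ y : Fin k → ℝ, y ⬝ᵥ y ≠ 0 ∧ ∀ v ∈ M, y ⬝ᵥ x v = 0 := by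
  let f : (Fin k → ℝ) →ₗ[ℝ] (M → ℝ) :=
    { toFun := fun y v => y ⬝ᵥ x v
      map_add' := fun _ _ => by ext; simp
      map_smul' := fun _ _ => by ext; simp }
  obtain ⟨y, hy, h0⟩ := (Submodule.ne_bot_iff _).1
    (f.ker_ne_bot_of_finrank_lt (by simpa using h))
  exact ⟨y, fun d => h0 (dotProduct_self_eq_zero.1 d), fun v hv => congrFun hy ⟨v, hv⟩⟩

open Classical in
lemma Good.place {G : SimpleGraph ι} {S : Finset ι} {k γ p : ℕ} (hG : Good G S k γ p) {w : ι}
    (hw : w ∉ S) (hk : (S.filter (G.Adj w)).card + γ < k)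
    (hγ : ∀ v ∈ S.filter (G.Adj w), nd G (S.filter (G.Adj w)) v ≤ γ) :
    Good G (insert w S) k γ p := by
  obtain ⟨T, a1, a2, x, a3, a4⟩ := hG
  have hwT : w ∉ T := fun d => hw (a1 d)
  let N := T.filter (G.Adj w)
  have hN : N ⊆ S.filter (G.Adj w) := Finset.filter_subset_filter _ a1
  have hNi : Ind x N := a4 N (Finset.filter_subset _ _) fun v hv =>
    (nd_mono le_rfl hN v).trans (hγ v (hN hv))
  have hp : ∀ J : {J : Finset ι // J.card ≤ γ}, ∃ y : Fin k → ℝ, y ⬝ᵥ y ≠ 0 ∧
      ∀ v ∈ N ∪ J.1, y ⬝ᵥ x v = 0 := fun J => exists_perp x _ (by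
    have b1 := Finset.card_union_le N J.1
    have b2 := Finset.card_le_card hN
    have b3 := J.2
    omega)
  choose z hz1 hz2 using hp
  let U : Submodule ℝ (Fin k → ℝ) :=
    { carrier := {y | ∀ v ∈ N, y ⬝ᵥ x v = 0}
      add_mem' := fun a b v hv => by rw [add_dotProduct, a v hv, b v hv, add_zero]
      zero_mem' := fun v _ => zero_dotProduct _
      smul_mem' := fun c y a v hv => by rw [smul_dotProduct, a v hv, smul_zero] }
  let f : {J : Finset ι // J.card ≤ γ} → Module.Dual ℝ (Fin k → ℝ) := fun J =>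
    { toFun := fun y => z J ⬝ᵥ y
      map_add' := fun _ _ => by simp
      map_smul' := fun _ _ => by simp }
  obtain ⟨y, hy, hy'⟩ := Module.Dual.exists_forall_mem_ne_zero_of_forall_exists U f
    fun J => ⟨z J, fun v hv => hz2 J v (Finset.mem_union_left _ hv), hz1 J⟩
  have u1 : Function.update x w y w = y := by simp
  have u2 : ∀ v, v ≠ w → Function.update x w y v = x v := fun v h => by simp [h]
  have u3 : ∀ t : ι → ℝ, t w = 0 → ∀ c, ∑ j, t j * Function.update x w y j c =
      ∑ j, t j * x j c := fun t ht c => Finset.sum_congr rfl fun j _ => by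
    by_cases d : j = w
    · simp [d, ht]
    · rw [u2 j d]
  refine ⟨insert w T, Finset.insert_subset_insert _ a1, ?_, Function.update x w y,
    ⟨fun i j d => ?_, fun X b1 b2 b3 => ?_⟩, fun I hI hd t ht h0 => ?_⟩
  · rw [Finset.card_insert_of_notMem hw, Finset.card_insert_of_notMem hwT]; omega
  · have mem : ∀ v, v ∈ insert w T → v ≠ w → v ∈ T := fun v h h' =>
      (Finset.mem_insert.1 h).resolve_left h'
    by_cases hi : i = w
    · subst hi
      rw [u1, u2 j d.1.ne']
      exact hy j (Finset.mem_filter.2 ⟨mem j d.2.2 d.1.ne', d.1⟩)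
    by_cases hj : j = w
    · subst hj
      rw [u1, u2 i hi, dotProduct_comm]
      exact hy i (Finset.mem_filter.2 ⟨mem i d.2.1 hi, d.1.symm⟩)
    rw [u2 i hi, u2 j hj]
    exact a3.1 i j ⟨d.1, mem i d.2.1 hi, mem j d.2.2 hj⟩
  · have c1 : ∀ j, X w j = 0 := by
      refine hNi (X w) (fun i hi => b2 w i fun d => hi ?_) fun c => ?_
      · exact Finset.mem_filter.2 ⟨(Finset.mem_insert.1 d.2.2).resolve_left d.1.ne', d.1⟩
      · rw [← u3 (X w) (b2 w w (SimpleGraph.irrefl _)), b3]
    refine a3.2 X b1 (fun i j d => ?_) fun i c => ?_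
    · by_cases hi : i = w
      · exact hi ▸ c1 j
      by_cases hj : j = w
      · rw [b1, hj]; exact c1 i
      exact b2 i j fun g => d ⟨g.1, (Finset.mem_insert.1 g.2.1).resolve_left hi,
        (Finset.mem_insert.1 g.2.2).resolve_left hj⟩
    · rw [← u3 (X i) ((b1 i w).trans (c1 i)), b3]
  · have c1 : t w = 0 := by
      by_cases hwI : w ∈ I
      swap
      · exact ht w hwI
      let J : {J : Finset ι // J.card ≤ γ} := ⟨I.filter fun v => v ≠ w ∧ ¬ G.Adj w v, hd w hwI⟩
      have c2 : ∑ j, t j * (z J ⬝ᵥ Function.update x w y j) = 0 := by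
        simp only [dotProduct, Finset.mul_sum]
        rw [Finset.sum_comm]
        refine Finset.sum_eq_zero fun c _ => ?_
        rw [← mul_zero (z J c), ← h0 c, Finset.mul_sum]
        exact Finset.sum_congr rfl fun j _ => by ring
      rw [Finset.sum_eq_single w (fun j _ hj => ?_) (by simp), u1] at c2
      · exact (mul_eq_zero.1 c2).resolve_right (hy' J)
      · by_cases hjI : j ∈ I
        · rw [u2 j hj, hz2 J j, mul_zero]
          by_cases d : G.Adj w j
          · exact Finset.mem_union_left _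
              (Finset.mem_filter.2 ⟨(Finset.mem_insert.1 (hI hjI)).resolve_left hj, d⟩)
          · exact Finset.mem_union_right _ (Finset.mem_filter.2 ⟨hjI, hj, d⟩)
        · rw [ht j hjI, zero_mul]
    refine a4 (I.erase w) (fun v hv => ?_) (fun v hv => ?_) t (fun i hi => ?_) fun c => ?_
    · rw [Finset.mem_erase] at hv
      exact (Finset.mem_insert.1 (hI hv.2)).resolve_left hv.1
    · exact (nd_mono le_rfl (Finset.erase_subset _ _) v).trans (hd v (Finset.mem_of_mem_erase hv))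
    · by_cases d : i = w
      · exact d ▸ c1
      · exact ht i fun g => hi (Finset.mem_erase.2 ⟨d, g⟩)
    · rw [← u3 t c1, h0]

lemma Good.psi {G : SimpleGraph ι} {k γ p : ℕ} (hG : Good G Finset.univ k γ p) :
    Psi G (k + p) := by
  obtain ⟨T, -, a2, x, a3, -⟩ := hG
  refine (Psi.addback Tᶜ (H' := On G T) (fun i j a b d => ⟨d, by simpa using a, by simpa using b⟩)
    ⟨Fin k, inferInstance, x, le_of_eq (Fintype.card_fin k), a3⟩).mono ?_
  rw [Finset.card_compl]
  rw [Finset.card_univ] at a2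
  omega

end Pool.Agent.MP_875478_co
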